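import Mathlib

namespace Pool.Agent.H356R3.NS
end Pool.Agent.H356R3.NS
namespace Pool.Agent.H356R3.NS.H3
end Pool.Agent.H356R3.NS.H3
namespace Pool.Agent.H356R3.NS.X
end Pool.Agent.H356R3.NS.X
namespace Pool.Agent.H3NS
end Pool.Agent.H3NS
namespace H459R3.NS
end H459R3.NS

/-!
# Fourier side of the Navier-Stokes equations on the torus: the bilinear term
-/

open MeasureTheory Set Filter Topology
open scoped ENNReal NNReal

namespace Pool.Agent.H356R3.NS

/-- Frequencies. -/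
abbrev K := Fin 3 → ℤ

/-- Values of the Fourier coefficients. -/
abbrev C3 := Fin 3 → ℂ

/-- `|k|²`. -/
noncomputable def sq (k : K) : ℝ := ∑ i, (k i : ℝ) ^ 2

/-- `|k|`. -/
noncomputable def nk (k : K) : ℝ := Real.sqrt (sq k)

/-- The `ℓ¹` norm of a frequency. -/
noncomputable def l1 (k : K) : ℝ := ∑ i, |(k i : ℝ)|

/-- Exponential weight. -/
noncomputable def om (a : ℝ) (k : K) : ℝ := Real.exp (a * l1 k)

lemma sq_nonneg' (k : K) : 0 ≤ sq k := Finset.sum_nonneg fun _ _ => sq_nonneg _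

lemma sq_zero : sq 0 = 0 := by simp [sq]

lemma one_le_sq {k : K} (h : k ≠ 0) : 1 ≤ sq k := by
  obtain ⟨i, hi⟩ := Function.ne_iff.1 h
  have h1 : (1 : ℝ) ≤ (k i : ℝ) ^ 2 := by
    have h2 : (1 : ℤ) ≤ (k i) ^ 2 := by
      have : k i ≠ 0 := hi
      have h3 : 0 < (k i) ^ 2 := by positivity
      omega
    exact_mod_cast h2
  exact h1.trans (Finset.single_le_sum (f := fun i => (k i : ℝ) ^ 2)
    (fun i _ => sq_nonneg _) (Finset.mem_univ i))

lemma sq_pos {k : K} (h : k ≠ 0) : 0 < sq k := lt_of_lt_of_le one_pos (one_le_sq h)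

lemma nk_nonneg (k : K) : 0 ≤ nk k := Real.sqrt_nonneg _

lemma nk_sq (k : K) : nk k ^ 2 = sq k := Real.sq_sqrt (sq_nonneg' k)

lemma nk_mul_self (k : K) : nk k * nk k = sq k := Real.mul_self_sqrt (sq_nonneg' k)

lemma one_le_nk {k : K} (h : k ≠ 0) : 1 ≤ nk k := by
  unfold nk
  rw [Real.one_le_sqrt]
  exact one_le_sq h

lemma nk_pos {k : K} (h : k ≠ 0) : 0 < nk k := lt_of_lt_of_le one_pos (one_le_nk h)

lemma nk_zero : nk 0 = 0 := by simp [nk, sq_zero]

lemma abs_le_nk (k : K) (i : Fin 3) : |(k i : ℝ)| ≤ nk k := by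
  unfold nk
  rw [← Real.sqrt_sq_eq_abs]
  apply Real.sqrt_le_sqrt
  exact Finset.single_le_sum (f := fun i => (k i : ℝ) ^ 2) (fun i _ => sq_nonneg _)
    (Finset.mem_univ i)

lemma l1_nonneg (k : K) : 0 ≤ l1 k := Finset.sum_nonneg fun _ _ => abs_nonneg _

lemma l1_add (k l : K) : l1 (k + l) ≤ l1 k + l1 l := by
  unfold l1
  rw [← Finset.sum_add_distrib]
  refine Finset.sum_le_sum fun i _ => ?_
  simp only [Pi.add_apply, Int.cast_add]
  exact abs_add_le _ _

lemma l1_neg (k : K) : l1 (-k) = l1 k := by simp [l1]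

lemma sq_neg (k : K) : sq (-k) = sq k := by simp [sq]

lemma nk_neg (k : K) : nk (-k) = nk k := by simp [nk, sq_neg]

lemma nk_le_l1 (k : K) : nk k ≤ l1 k := by
  unfold nk
  rw [Real.sqrt_le_left (l1_nonneg k)]
  unfold sq l1
  simp only [Fin.sum_univ_three]
  have h0 := abs_nonneg (k 0 : ℝ)
  have h1 := abs_nonneg (k 1 : ℝ)
  have h2 := abs_nonneg (k 2 : ℝ)
  rw [← sq_abs (k 0 : ℝ), ← sq_abs (k 1 : ℝ), ← sq_abs (k 2 : ℝ)]
  nlinarith [mul_nonneg h0 h1, mul_nonneg h0 h2, mul_nonneg h1 h2]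

lemma om_pos (a : ℝ) (k : K) : 0 < om a k := Real.exp_pos _

lemma one_le_om {a : ℝ} (ha : 0 ≤ a) (k : K) : 1 ≤ om a k :=
  Real.one_le_exp (mul_nonneg ha (l1_nonneg k))

lemma om_mono {a b : ℝ} (h : a ≤ b) (k : K) : om a k ≤ om b k :=
  Real.exp_le_exp.2 (mul_le_mul_of_nonneg_right h (l1_nonneg k))

lemma om_sub {a : ℝ} (ha : 0 ≤ a) (k l : K) : om a k ≤ om a l * om a (k - l) := by
  unfold om
  rw [← Real.exp_add, ← mul_add]
  apply Real.exp_le_exp.2
  apply mul_le_mul_of_nonneg_left _ ha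
  calc l1 k = l1 (l + (k - l)) := by rw [add_sub_cancel]
    _ ≤ _ := l1_add _ _

/-- The coefficients of the bilinear term. -/
noncomputable def coef (k : K) (i j m : Fin 3) : ℂ :=
  -(2 * Real.pi * Complex.I) * (k j : ℂ) *
    ((if m = i then 1 else 0) - (k i : ℂ) * (k m : ℂ) / ((sq k : ℝ) : ℂ))

/-- Convolution. -/
noncomputable def cv (x y : K → C3) (k : K) (i j : Fin 3) : ℂ := ∑' l, x l i * y (k - l) j

/-- The bilinear term `- P (x · ∇) y` on the Fourier side. -/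
noncomputable def Bf (x y : K → C3) (k : K) : C3 := fun i => ∑ j, ∑ m, coef k i j m * cv x y k j m

lemma norm_coef_le (k : K) (i j m : Fin 3) : ‖coef k i j m‖ ≤ 4 * Real.pi * nk k := by
  unfold coef
  have hpi := Real.pi_pos
  rw [norm_mul, norm_mul]
  have h1 : ‖-(2 * (Real.pi : ℂ) * Complex.I)‖ = 2 * Real.pi := by
    rw [norm_neg, norm_mul, norm_mul, Complex.norm_I, Complex.norm_real]
    simp [abs_of_pos hpi]
  have h2 : ‖(k j : ℂ)‖ ≤ nk k := by
    have := abs_le_nk k j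
    rwa [Complex.norm_intCast]
  have h3 : ‖((if m = i then 1 else 0) : ℂ) - (k i : ℂ) * (k m : ℂ) / ((sq k : ℝ) : ℂ)‖ ≤ 2 := by
    have h4 : ‖((if m = i then 1 else 0) : ℂ)‖ ≤ 1 := by split_ifs <;> simp
    have h5 : ‖(k i : ℂ) * (k m : ℂ) / ((sq k : ℝ) : ℂ)‖ ≤ 1 := by
      rw [norm_div, norm_mul, Complex.norm_real, Complex.norm_intCast, Complex.norm_intCast]
      rw [Real.norm_of_nonneg (sq_nonneg' k)]
      apply div_le_one_of_le₀ _ (sq_nonneg' k)
      rw [← nk_mul_self]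
      exact mul_le_mul (abs_le_nk k i) (abs_le_nk k m) (abs_nonneg _) (nk_nonneg k)
    calc _ ≤ _ := norm_sub_le _ _
      _ ≤ 2 := by linarith
  rw [h1]
  calc 2 * Real.pi * ‖(k j : ℂ)‖ * _ ≤ 2 * Real.pi * nk k * 2 := by
        apply mul_le_mul _ h3 (norm_nonneg _) (by have := nk_nonneg k; positivity)
        exact mul_le_mul_of_nonneg_left h2 (by positivity)
    _ = _ := by ring

lemma enorm_pi_le {v : C3} {c : ℝ≥0∞} (h : ∀ i, ‖v i‖ₑ ≤ c) : ‖v‖ₑ ≤ c := by
  induction c with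
  | top => exact le_top
  | coe c =>
    rw [enorm_eq_nnnorm, ENNReal.coe_le_coe]
    rw [pi_nnnorm_le_iff]
    intro i
    have := h i
    rwa [enorm_eq_nnnorm, ENNReal.coe_le_coe] at this

lemma enorm_apply_le (v : C3) (i : Fin 3) : ‖v i‖ₑ ≤ ‖v‖ₑ := by
  rw [enorm_eq_nnnorm, enorm_eq_nnnorm, ENNReal.coe_le_coe]
  exact nnnorm_le_pi_nnnorm v i

lemma enorm_tsum_le' {ι : Type*} {f : ι → ℂ} : ‖∑' i, f i‖ₑ ≤ ∑' i, ‖f i‖ₑ := by
  by_cases h : Summable fun i => ‖f i‖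
  · have h1 := norm_tsum_le_tsum_norm h
    rw [← ofReal_norm]
    refine (ENNReal.ofReal_le_ofReal h1).trans ?_
    rw [ENNReal.ofReal_tsum_of_nonneg (fun _ => norm_nonneg _) h]
    simp
  · by_cases h2 : ∑' i, ‖f i‖ₑ = ⊤
    · rw [h2]; exact le_top
    · exfalso
      apply h
      have := ENNReal.summable_toReal h2
      simpa using this

lemma enorm_cv_le (x y : K → C3) (k : K) (i j : Fin 3) :
    ‖cv x y k i j‖ₑ ≤ ∑' l, ‖x l‖ₑ * ‖y (k - l)‖ₑ := by
  unfold cv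
  refine enorm_tsum_le'.trans ?_
  refine ENNReal.tsum_le_tsum fun l => ?_
  rw [enorm_mul]
  exact mul_le_mul' (enorm_apply_le _ _) (enorm_apply_le _ _)

/-- The constant in the bilinear estimate. -/
noncomputable def C0 : ℝ := 36 * Real.pi

lemma C0_pos : 0 < C0 := by unfold C0; positivity

lemma enorm_Bf_le (x y : K → C3) (k : K) :
    ‖Bf x y k‖ₑ ≤ ENNReal.ofReal (C0 * nk k) * ∑' l, ‖x l‖ₑ * ‖y (k - l)‖ₑ := by
  refine enorm_pi_le fun i => ?_
  unfold Bf
  set T := ∑' l, ‖x l‖ₑ * ‖y (k - l)‖ₑ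
  have h1 : ∀ j m, ‖coef k i j m * cv x y k j m‖ₑ ≤ ENNReal.ofReal (4 * Real.pi * nk k) * T := by
    intro j m
    rw [enorm_mul]
    apply mul_le_mul' _ (enorm_cv_le x y k j m)
    rw [← ofReal_norm]
    exact ENNReal.ofReal_le_ofReal (norm_coef_le k i j m)
  calc ‖∑ j, ∑ m, coef k i j m * cv x y k j m‖ₑ
      ≤ ∑ j : Fin 3, ‖∑ m, coef k i j m * cv x y k j m‖ₑ := enorm_sum_le _ _
    _ ≤ ∑ j : Fin 3, ∑ m : Fin 3, ‖coef k i j m * cv x y k j m‖ₑ :=
        Finset.sum_le_sum fun j _ => enorm_sum_le _ _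
    _ ≤ ∑ j : Fin 3, ∑ m : Fin 3, ENNReal.ofReal (4 * Real.pi * nk k) * T :=
        Finset.sum_le_sum fun j _ => Finset.sum_le_sum fun m _ => h1 j m
    _ = ENNReal.ofReal (C0 * nk k) * T := by
        simp only [Finset.sum_const, Finset.card_univ, Fintype.card_fin, nsmul_eq_mul]
        rw [← mul_assoc, ← mul_assoc]
        congr 1
        have : C0 * nk k = 3 * (3 * (4 * Real.pi * nk k)) := by unfold C0; ring
        rw [this, ENNReal.ofReal_mul (by norm_num : (0:ℝ) ≤ 3),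
          ENNReal.ofReal_mul (by norm_num : (0:ℝ) ≤ 3), show ENNReal.ofReal 3 = 3 by simp]
        push_cast
        ring

lemma coef_zero (i j m : Fin 3) : coef 0 i j m = 0 := by simp [coef]

lemma Bf_zero (x y : K → C3) : Bf x y 0 = 0 := by
  funext i
  simp [Bf, coef_zero]

/-- The bilinear term is divergence free. -/
lemma Bf_div (x y : K → C3) (k : K) : ∑ i, (k i : ℂ) * Bf x y k i = 0 := by
  by_cases hk : k = 0
  · subst hk; simp
  unfold Bf
  have h1 : ∀ j m, ∑ i, (k i : ℂ) * coef k i j m = 0 := by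
    intro j m
    unfold coef
    have hs : ((sq k : ℝ) : ℂ) ≠ 0 := by exact_mod_cast (sq_pos hk).ne'
    have h2 : ∑ i, (k i : ℂ) * (-(2 * Real.pi * Complex.I) * (k j : ℂ) *
        ((if m = i then 1 else 0) - (k i : ℂ) * (k m : ℂ) / ((sq k : ℝ) : ℂ)))
        = -(2 * Real.pi * Complex.I) * (k j : ℂ) * (∑ i, (k i : ℂ) * (if m = i then 1 else 0)
          - (∑ i, (k i : ℂ) * (k i : ℂ)) * (k m : ℂ) / ((sq k : ℝ) : ℂ)) := by
      rw [Finset.sum_mul, Finset.sum_div, ← Finset.sum_sub_distrib, Finset.mul_sum]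
      refine Finset.sum_congr rfl fun i _ => ?_
      ring
    rw [h2]
    have h3 : ∑ i, (k i : ℂ) * (k i : ℂ) = ((sq k : ℝ) : ℂ) := by
      unfold sq
      push_cast
      exact Finset.sum_congr rfl fun i _ => by ring
    rw [h3]
    simp only [mul_ite, mul_one, mul_zero, Finset.sum_ite_eq, Finset.mem_univ, if_true]
    rw [mul_div_assoc, mul_div_cancel₀]
    · ring
    · exact hs
  simp only [Finset.mul_sum]
  rw [Finset.sum_comm]
  refine Finset.sum_eq_zero fun j _ => ?_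
  rw [Finset.sum_comm]
  refine Finset.sum_eq_zero fun m _ => ?_
  have := h1 j m
  calc ∑ i, (k i : ℂ) * (coef k i j m * cv x y k j m)
      = (∑ i, (k i : ℂ) * coef k i j m) * cv x y k j m := by
        rw [Finset.sum_mul]; exact Finset.sum_congr rfl fun i _ => by ring
    _ = 0 := by rw [this, zero_mul]

end Pool.Agent.H356R3.NS
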