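import Pool.Agent.H3NY.R.Basic

namespace Pool.Agent.H356R3.NS
end Pool.Agent.H356R3.NS
namespace Pool.Agent.H356R3.NS.H3
end Pool.Agent.H356R3.NS.H3
namespace Pool.Agent.H356R3.NS.X
end Pool.Agent.H356R3.NS.X
namespace Pool.Agent.H3NS
end Pool.Agent.H3NS
namespace H459R3.NS
end H459R3.NS

open MeasureTheory Set Filter Topology
open scoped ENNReal NNReal

namespace Pool.Agent.H356R3.NS

/-- Absolutely summable sequences. -/
def SN (x : K → C3) : Prop := Summable fun k => ‖x k‖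

lemma SN.add {x y : K → C3} (hx : SN x) (hy : SN y) : SN (x + y) :=
  (Summable.add hx hy).of_nonneg_of_le (fun _ => norm_nonneg _) fun _ => norm_add_le _ _

lemma SN.neg {x : K → C3} (hx : SN x) : SN (-x) := by
  unfold SN at *; simpa using hx

lemma SN.sub {x y : K → C3} (hx : SN x) (hy : SN y) : SN (x - y) := by
  rw [sub_eq_add_neg]; exact hx.add hy.neg

lemma summ_cv {x y : K → C3} (hx : SN x) (hy : SN y) (k : K) (i j : Fin 3) :
    Summable fun l => x l i * y (k - l) j := by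
  refine Summable.of_norm_bounded (g := fun l => ‖x l‖ * ∑' l', ‖y l'‖) (hx.mul_right _) fun l => ?_
  rw [norm_mul]
  apply mul_le_mul (norm_le_pi_norm (x l) i) _ (norm_nonneg _) (norm_nonneg _)
  exact (norm_le_pi_norm (y (k - l)) j).trans (hy.le_tsum (k - l) fun _ _ => norm_nonneg _)

lemma cv_add_left {x x' y : K → C3} (hx : SN x) (hx' : SN x') (hy : SN y) (k : K) (i j : Fin 3) :
    cv (x + x') y k i j = cv x y k i j + cv x' y k i j := by
  unfold cv
  rw [← (summ_cv hx hy k i j).tsum_add (summ_cv hx' hy k i j)]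
  refine tsum_congr fun l => ?_
  simp only [Pi.add_apply]; ring

lemma cv_add_right {x y y' : K → C3} (hx : SN x) (hy : SN y) (hy' : SN y') (k : K) (i j : Fin 3) :
    cv x (y + y') k i j = cv x y k i j + cv x y' k i j := by
  unfold cv
  rw [← (summ_cv hx hy k i j).tsum_add (summ_cv hx hy' k i j)]
  refine tsum_congr fun l => ?_
  simp only [Pi.add_apply]; ring

lemma Bf_add_left {x x' y : K → C3} (hx : SN x) (hx' : SN x') (hy : SN y) :
    Bf (x + x') y = Bf x y + Bf x' y := by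
  funext k i
  simp only [Bf, Pi.add_apply, cv_add_left hx hx' hy, mul_add, Finset.sum_add_distrib]

lemma Bf_add_right {x y y' : K → C3} (hx : SN x) (hy : SN y) (hy' : SN y') :
    Bf x (y + y') = Bf x y + Bf x y' := by
  funext k i
  simp only [Bf, Pi.add_apply, cv_add_right hx hy hy', mul_add, Finset.sum_add_distrib]

lemma Bf_sub_left {x x' y : K → C3} (hx : SN x) (hx' : SN x') (hy : SN y) :
    Bf (x - x') y = Bf x y - Bf x' y := by
  have := Bf_add_left (hx.sub hx') hx' hy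
  rw [sub_add_cancel] at this
  rw [this, add_sub_cancel_right]

lemma Bf_sub_right {x y y' : K → C3} (hx : SN x) (hy : SN y) (hy' : SN y') :
    Bf x (y - y') = Bf x y - Bf x y' := by
  have := Bf_add_right hx (hy.sub hy') hy'
  rw [sub_add_cancel] at this
  rw [this, add_sub_cancel_right]

/-- Difference of squares. -/
lemma Bf_diff {x y : K → C3} (hx : SN x) (hy : SN y) :
    Bf x x - Bf y y = Bf (x - y) x + Bf y (x - y) := by
  rw [Bf_sub_left hx hy hx, Bf_sub_right hy hx hy]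
  abel

/-- Reality condition. -/
def Sym (x : K → C3) : Prop := ∀ k i, x (-k) i = star (x k i)

lemma Sym.add {x y : K → C3} (hx : Sym x) (hy : Sym y) : Sym (x + y) := by
  intro k i; simp [hx k i, hy k i]

lemma Sym.sub {x y : K → C3} (hx : Sym x) (hy : Sym y) : Sym (x - y) := by
  intro k i; simp [hx k i, hy k i]

lemma cv_sym {x y : K → C3} (hx : Sym x) (hy : Sym y) (k : K) (i j : Fin 3) :
    cv x y (-k) i j = star (cv x y k i j) := by
  unfold cv
  rw [show star (∑' l, x l i * y (k - l) j) = ∑' l, star (x l i * y (k - l) j) from tsum_star]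
  rw [← (Equiv.neg K).tsum_eq]
  refine tsum_congr fun l => ?_
  simp only [Equiv.neg_apply, star_mul']
  rw [← hx, ← hy]
  congr 2
  abel

lemma coef_neg (k : K) (i j m : Fin 3) : coef (-k) i j m = star (coef k i j m) := by
  unfold coef
  simp only [sq_neg, Pi.neg_apply, Int.cast_neg, Complex.star_def, map_mul, map_neg, map_sub,
    map_div₀, Complex.conj_ofReal, Complex.conj_I, map_ofNat]
  have h1 : ∀ n : ℤ, (starRingEnd ℂ) (n : ℂ) = n := fun n => by simp
  have h2 : (starRingEnd ℂ) (if m = i then (1 : ℂ) else 0) = if m = i then 1 else 0 := by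
    split_ifs <;> simp
  rw [h1, h1, h1, h2]
  ring

lemma Bf_sym {x y : K → C3} (hx : Sym x) (hy : Sym y) : Sym (Bf x y) := by
  intro k i
  unfold Bf
  simp only [star_sum, star_mul', ← coef_neg, ← cv_sym hx hy]

/-- A single mode. -/
noncomputable def Sg (κ : K) (v : C3) : K → C3 := fun k => if k = κ then v else 0

lemma SN_Sg (κ : K) (v : C3) : SN (Sg κ v) := by
  unfold SN
  refine summable_of_ne_finset_zero (s := {κ}) fun k hk => ?_
  simp only [Finset.mem_singleton] at hk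
  simp [Sg, hk]

lemma cv_Sg (κ κ' : K) (v v' : C3) (k : K) (i j : Fin 3) :
    cv (Sg κ v) (Sg κ' v') k i j = if k = κ + κ' then v i * v' j else 0 := by
  unfold cv
  rw [tsum_eq_single κ]
  · simp only [Sg, if_true]
    have : (k - κ = κ') ↔ (k = κ + κ') := by
      rw [sub_eq_iff_eq_add, add_comm]
    by_cases h : k = κ + κ'
    · rw [if_pos (this.2 h), if_pos h]
    · rw [if_neg (fun h' => h (this.1 h')), if_neg h]; simp
  · intro l hl
    simp [Sg, hl]

/-- The interaction of two modes. -/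
noncomputable def bt (k : K) (v v' : C3) : C3 := fun i => ∑ j, ∑ m, coef k i j m * (v j * v' m)

lemma Bf_Sg (κ κ' : K) (v v' : C3) : Bf (Sg κ v) (Sg κ' v') = Sg (κ + κ') (bt (κ + κ') v v') := by
  funext k i
  unfold Bf
  simp only [cv_Sg]
  by_cases h : k = κ + κ'
  · subst h
    simp [Sg, bt]
  · simp [Sg, h]

/-- `k · v` -/
noncomputable def dt (k : K) (v : C3) : ℂ := ∑ j, (k j : ℂ) * v j

lemma bt_eq (k : K) (v v' : C3) (i : Fin 3) :
    bt k v v' i = -(2 * Real.pi * Complex.I) * dt k v *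
      (v' i - (k i : ℂ) * dt k v' / ((sq k : ℝ) : ℂ)) := by
  unfold bt coef dt
  have h1 : ∀ j, ∑ m, -(2 * Real.pi * Complex.I) * (k j : ℂ) *
      ((if m = i then 1 else 0) - (k i : ℂ) * (k m : ℂ) / ((sq k : ℝ) : ℂ)) * (v j * v' m)
      = ((k j : ℂ) * v j) * (-(2 * Real.pi * Complex.I) *
        (v' i - (k i : ℂ) * (∑ m, (k m : ℂ) * v' m) / ((sq k : ℝ) : ℂ))) := by
    intro j
    have h2 : v' i = ∑ m, (if m = i then 1 else 0) * v' m := by simp
    rw [h2, Finset.mul_sum, Finset.sum_div, ← Finset.sum_sub_distrib, Finset.mul_sum,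
      Finset.mul_sum]
    refine Finset.sum_congr rfl fun m _ => ?_
    ring
  simp only [h1]
  rw [← Finset.sum_mul]
  ring

lemma bt_zero_left {k : K} {v v' : C3} (h : dt k v = 0) : bt k v v' = 0 := by
  funext i
  rw [bt_eq, h]; simp

lemma bt_perp {k : K} {v v' : C3} (h : dt k v' = 0) :
    bt k v v' = (-(2 * Real.pi * Complex.I) * dt k v) • v' := by
  funext i
  rw [bt_eq, h]; simp

lemma bt_freq_zero (v v' : C3) : bt 0 v v' = 0 := by
  apply bt_zero_left
  simp [dt]

lemma Sg_zero (κ : K) : Sg κ 0 = 0 := by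
  funext k; simp [Sg]

lemma Sg_add (κ : K) (v v' : C3) : Sg κ (v + v') = Sg κ v + Sg κ v' := by
  funext k; simp only [Sg, Pi.add_apply]; split_ifs <;> simp

/-! ### Weighted norms -/

/-- Weighted `ℓ¹` norm. -/
noncomputable def NW (W : K → ℝ≥0∞) (x : K → C3) : ℝ≥0∞ := ∑' k, W k * ‖x k‖ₑ

/-- weight `e^{a|k|}/|k|` -/
noncomputable def Wm (a : ℝ) (k : K) : ℝ≥0∞ := ENNReal.ofReal (om a k / nk k)

/-- weight `e^{a|k|}` -/
noncomputable def Wa (a : ℝ) (k : K) : ℝ≥0∞ := ENNReal.ofReal (om a k)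

/-- weight `e^{a|k|}|k|` -/
noncomputable def Wp (a : ℝ) (k : K) : ℝ≥0∞ := ENNReal.ofReal (om a k * nk k)

lemma NW_add_le (W : K → ℝ≥0∞) (x y : K → C3) : NW W (x + y) ≤ NW W x + NW W y := by
  unfold NW
  rw [← ENNReal.tsum_add]
  refine ENNReal.tsum_le_tsum fun k => ?_
  rw [← mul_add]
  exact mul_le_mul' le_rfl (enorm_add_le _ _)

lemma NW_neg (W : K → ℝ≥0∞) (x : K → C3) : NW W (-x) = NW W x := by
  unfold NW; simp

lemma NW_sub_le (W : K → ℝ≥0∞) (x y : K → C3) : NW W (x - y) ≤ NW W x + NW W y := by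
  rw [sub_eq_add_neg, ← NW_neg W y]
  exact NW_add_le _ _ _

lemma NW_zero (W : K → ℝ≥0∞) : NW W 0 = 0 := by simp [NW]

lemma NW_mono {W W' : K → ℝ≥0∞} (h : ∀ k, W k ≤ W' k) (x : K → C3) : NW W x ≤ NW W' x :=
  ENNReal.tsum_le_tsum fun k => mul_le_mul' (h k) le_rfl

lemma NW_Sg (W : K → ℝ≥0∞) (κ : K) (v : C3) : NW W (Sg κ v) = W κ * ‖v‖ₑ := by
  unfold NW
  rw [tsum_eq_single κ]
  · simp [Sg]
  · intro k hk; simp [Sg, hk]

lemma Wa_mono {a b : ℝ} (h : a ≤ b) (k : K) : Wa a k ≤ Wa b k :=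
  ENNReal.ofReal_le_ofReal (om_mono h k)

/-- The bilinear estimate. -/
lemma NW_Bf_le {a : ℝ} (ha : 0 ≤ a) (x y : K → C3) :
    NW (Wm a) (Bf x y) ≤ ENNReal.ofReal C0 * (NW (Wa a) x * NW (Wa a) y) := by
  have h1 : ∀ k, Wm a k * ‖Bf x y k‖ₑ ≤ ENNReal.ofReal C0 *
      ∑' l, (Wa a l * ‖x l‖ₑ) * (Wa a (k - l) * ‖y (k - l)‖ₑ) := by
    intro k
    by_cases hk : k = 0
    · subst hk; rw [Bf_zero]; simp
    have hn := nk_pos hk
    calc Wm a k * ‖Bf x y k‖ₑ
        ≤ Wm a k * (ENNReal.ofReal (C0 * nk k) * ∑' l, ‖x l‖ₑ * ‖y (k - l)‖ₑ) :=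
          mul_le_mul' le_rfl (enorm_Bf_le x y k)
      _ = ENNReal.ofReal C0 * (ENNReal.ofReal (om a k) * ∑' l, ‖x l‖ₑ * ‖y (k - l)‖ₑ) := by
          rw [← mul_assoc, ← mul_assoc]
          congr 1
          unfold Wm
          rw [← ENNReal.ofReal_mul (div_nonneg (om_pos a k).le hn.le), ← ENNReal.ofReal_mul C0_pos.le]
          congr 1
          field_simp
      _ ≤ _ := by
          apply mul_le_mul' le_rfl
          rw [← ENNReal.tsum_mul_left]
          refine ENNReal.tsum_le_tsum fun l => ?_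
          calc ENNReal.ofReal (om a k) * (‖x l‖ₑ * ‖y (k - l)‖ₑ)
              ≤ (ENNReal.ofReal (om a l) * ENNReal.ofReal (om a (k - l)))
                * (‖x l‖ₑ * ‖y (k - l)‖ₑ) := by
                apply mul_le_mul' _ le_rfl
                rw [← ENNReal.ofReal_mul (om_pos a l).le]
                exact ENNReal.ofReal_le_ofReal (om_sub ha k l)
            _ = _ := by unfold Wa; ring
  calc NW (Wm a) (Bf x y) ≤ ∑' k, ENNReal.ofReal C0 *
      ∑' l, (Wa a l * ‖x l‖ₑ) * (Wa a (k - l) * ‖y (k - l)‖ₑ) := ENNReal.tsum_le_tsum h1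
    _ = ENNReal.ofReal C0 * ∑' l, ∑' k, (Wa a l * ‖x l‖ₑ) * (Wa a (k - l) * ‖y (k - l)‖ₑ) := by
        rw [ENNReal.tsum_mul_left, ENNReal.tsum_comm]
    _ = _ := by
        congr 1
        unfold NW
        rw [← ENNReal.tsum_mul_right]
        refine tsum_congr fun l => ?_
        rw [ENNReal.tsum_mul_left]
        congr 1
        exact (Equiv.subRight l).tsum_eq fun k => Wa a k * ‖y k‖ₑ

/-- Interpolation. -/
lemma NW_interp {a : ℝ} {x : K → C3} (h0 : x 0 = 0) :
    NW (Wa a) x * NW (Wa a) x ≤ NW (Wm a) x * NW (Wp a) x := by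
  have key : ∀ k l, (Wa a k * ‖x k‖ₑ) * (Wa a l * ‖x l‖ₑ) + (Wa a k * ‖x k‖ₑ) * (Wa a l * ‖x l‖ₑ)
      ≤ (Wm a k * ‖x k‖ₑ) * (Wp a l * ‖x l‖ₑ) + (Wp a k * ‖x k‖ₑ) * (Wm a l * ‖x l‖ₑ) := by
    intro k l
    by_cases hk : k = 0
    · subst hk; simp [h0]
    by_cases hl : l = 0
    · subst hl; simp [h0]
    have hk' := nk_pos hk
    have hl' := nk_pos hl
    have e1 : (Wa a k * ‖x k‖ₑ) * (Wa a l * ‖x l‖ₑ) + (Wa a k * ‖x k‖ₑ) * (Wa a l * ‖x l‖ₑ)
        = ENNReal.ofReal (om a k * om a l + om a k * om a l) * (‖x k‖ₑ * ‖x l‖ₑ) := by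
      unfold Wa
      rw [ENNReal.ofReal_add (by have := om_pos a k; have := om_pos a l; positivity)
        (by have := om_pos a k; have := om_pos a l; positivity), ENNReal.ofReal_mul (om_pos a k).le]
      ring
    have e2 : (Wm a k * ‖x k‖ₑ) * (Wp a l * ‖x l‖ₑ) + (Wp a k * ‖x k‖ₑ) * (Wm a l * ‖x l‖ₑ)
        = ENNReal.ofReal ((om a k / nk k) * (om a l * nk l) + (om a k * nk k) * (om a l / nk l))
          * (‖x k‖ₑ * ‖x l‖ₑ) := by
      unfold Wm Wp
      have p1 := om_pos a k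
      have p2 := om_pos a l
      rw [ENNReal.ofReal_add (by positivity) (by positivity),
        ENNReal.ofReal_mul (p := om a k / nk k) (by positivity),
        ENNReal.ofReal_mul (p := om a k * nk k) (by positivity)]
      ring
    rw [e1, e2]
    apply mul_le_mul' _ le_rfl
    apply ENNReal.ofReal_le_ofReal
    have p1 := om_pos a k
    have p2 := om_pos a l
    have h3 : (om a k / nk k) * (om a l * nk l) + (om a k * nk k) * (om a l / nk l)
        = om a k * om a l * ((nk l ^ 2 + nk k ^ 2) / (nk k * nk l)) := by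
      field_simp
    rw [h3, ← two_mul, mul_comm (2 : ℝ)]
    apply mul_le_mul_of_nonneg_left _ (by positivity)
    rw [le_div_iff₀ (by positivity)]
    nlinarith [sq_nonneg (nk k - nk l)]
  have h2 : NW (Wa a) x * NW (Wa a) x + NW (Wa a) x * NW (Wa a) x
      ≤ NW (Wm a) x * NW (Wp a) x + NW (Wp a) x * NW (Wm a) x := by
    have e : ∀ f g : K → ℝ≥0∞, (∑' k, f k) * (∑' l, g l) = ∑' k, ∑' l, f k * g l := by
      intro f g
      rw [← ENNReal.tsum_mul_right]
      exact tsum_congr fun k => ENNReal.tsum_mul_left.symm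
    unfold NW
    rw [e, e, e, ← ENNReal.tsum_add, ← ENNReal.tsum_add]
    refine ENNReal.tsum_le_tsum fun k => ?_
    rw [← ENNReal.tsum_add, ← ENNReal.tsum_add]
    exact ENNReal.tsum_le_tsum fun l => key k l
  rw [mul_comm (NW (Wp a) x), ← two_mul, ← two_mul] at h2
  exact (ENNReal.mul_le_mul_iff_right (by norm_num) (by norm_num)).1 h2

end Pool.Agent.H356R3.NS
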