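import Pool.Agent.H3NY.R.Key

namespace Pool.Agent.H356R3.NS
end Pool.Agent.H356R3.NS
namespace Pool.Agent.H356R3.NS.H3
end Pool.Agent.H356R3.NS.H3
namespace Pool.Agent.H356R3.NS.X
end Pool.Agent.H356R3.NS.X
namespace Pool.Agent.H3NS
end Pool.Agent.H3NS
namespace H459R3.NS
end H459R3.NS

open MeasureTheory Set Filter Topology
open scoped ENNReal NNReal

namespace Pool.Agent.H356R3.NS

/-- The parameters of the contraction argument. -/
structure Par (c D Lam ρ : ℝ) : Prop where
  hc : 0 < c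
  hD : 0 < D
  hL : 0 < Lam
  hρ : 0 < ρ
  h1 : 36 * C0 ^ 2 * Real.sqrt (1 / (2 * Lam)) * D ≤ c
  h2 : Real.exp (2 * (Lam * D ^ 2)) * (2 * ρ) ≤ Real.sqrt (1 / (2 * Lam))
  h3 : Real.exp (2 * (Lam * D ^ 2)) * (2 * ρ) ≤ D

lemma exists_par {c D : ℝ} (hc : 0 < c) (hD : 0 < D) : ∃ Lam ρ, Par c D Lam ρ := by
  have hC := C0_pos
  set κ := c / (36 * C0 ^ 2 * D)
  have hκ : 0 < κ := by positivity
  refine ⟨1 / (2 * κ ^ 2), Real.exp (-(2 * (1 / (2 * κ ^ 2) * D ^ 2))) * (min κ D) / 2, ?_⟩
  have hs : Real.sqrt (1 / (2 * (1 / (2 * κ ^ 2)))) = κ := by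
    have : 1 / (2 * (1 / (2 * κ ^ 2))) = κ ^ 2 := by field_simp
    rw [this, Real.sqrt_sq hκ.le]
  have hm : 0 < min κ D := lt_min hκ hD
  have he : Real.exp (2 * (1 / (2 * κ ^ 2) * D ^ 2)) *
      (2 * (Real.exp (-(2 * (1 / (2 * κ ^ 2) * D ^ 2))) * (min κ D) / 2)) = min κ D := by
    have : Real.exp (2 * (1 / (2 * κ ^ 2) * D ^ 2)) * Real.exp (-(2 * (1 / (2 * κ ^ 2) * D ^ 2))) = 1 := by
      rw [← Real.exp_add]; simp
    calc _ = (Real.exp (2 * (1 / (2 * κ ^ 2) * D ^ 2)) * Real.exp (-(2 * (1 / (2 * κ ^ 2) * D ^ 2)))) * min κ D := by ring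
      _ = _ := by rw [this, one_mul]
  refine ⟨hc, hD, by positivity, by positivity, ?_, ?_, ?_⟩
  · rw [hs]
    apply le_of_eq
    simp only [κ]
    field_simp
  · rw [hs, he]; exact min_le_left _ _
  · rw [he]; exact min_le_right _ _

variable {c D Lam ρ : ℝ}

lemma gw_le (hL : 0 ≤ Lam) {A : ℝ → ℝ} (hA : Continuous A) (hA0 : ∀ t, 0 ≤ A t) (hD : 0 ≤ D)
    (hAi : LN (fun t => ENNReal.ofReal (A t)) ≤ ENNReal.ofReal D) {t : ℝ} (ht : 0 ≤ t) :
    gw Lam A t ≤ Lam * D ^ 2 := by
  unfold gw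
  apply mul_le_mul_of_nonneg_left _ hL
  have h1 : ENNReal.ofReal (∫ s in (0 : ℝ)..t, A s ^ 2) ≤ ENNReal.ofReal (D ^ 2) := by
    rw [intervalIntegral.integral_of_le ht, ofReal_integral_eq_lintegral_ofReal]
    · calc ∫⁻ s in Ioc 0 t, ENNReal.ofReal (A s ^ 2)
          = ∫⁻ s in Ioc 0 t, ENNReal.ofReal (A s) ^ (2 : ℝ) := by
            refine lintegral_congr fun s => ?_
            rw [ENNReal.rpow_two, ENNReal.ofReal_pow (hA0 s)]
        _ ≤ ∫⁻ s in Ioi 0, ENNReal.ofReal (A s) ^ (2 : ℝ) := lintegral_mono_set fun s hs => hs.1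
        _ = LN (fun t => ENNReal.ofReal (A t)) ^ (2 : ℝ) := by
            unfold LN
            rw [← ENNReal.rpow_mul]; norm_num
        _ ≤ ENNReal.ofReal D ^ (2 : ℝ) := ENNReal.rpow_le_rpow hAi (by norm_num)
        _ = _ := by rw [ENNReal.rpow_two, ENNReal.ofReal_pow hD]
    · exact ((hA.pow 2).integrableOn_Icc (a := 0) (b := t)).mono_set Ioc_subset_Icc_self
    · exact Filter.Eventually.of_forall fun s => sq_nonneg _
  exact (ENNReal.ofReal_le_ofReal_iff (by positivity)).1 h1

/-- The main contraction estimate. -/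
lemma contr (hp : Par c D Lam ρ) {a : ℝ} {A : ℝ → ℝ} (hA : Continuous A) (hA0 : ∀ t, 0 ≤ A t)
    (hAi : LN (fun t => ENNReal.ofReal (A t)) ≤ ENNReal.ofReal D)
    {F d : Fam} (hF : CF F) (h0 : ∀ t, F 0 t = 0) (hd : CF d) {Y : ℝ → ℝ≥0∞} (hY : Measurable Y)
    (hYi : LN (fun s => ENNReal.ofReal (Real.exp (-gw Lam A s)) * Y s) ≤ ENNReal.ofReal (2 * ρ))
    (hb : ∀ s, 0 < s → NW (Wm a) (at' F s) ≤
      ENNReal.ofReal C0 * (NW (Wa a) (at' d s) * (2 * ENNReal.ofReal (A s) + Y s))) :
    LF (gw Lam A) a (Duh c F) ≤ (1 / 2) * LF (gw Lam A) a d ∧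
    ∀ t, 0 ≤ t → NW (Wm a) (at' (Duh c F) t) ≤
      ENNReal.ofReal (Real.exp (Lam * D ^ 2) * (3 * C0 * D)) * LF (gw Lam A) a d := by
  obtain ⟨hc, hD, hL, hρ, h1, h2, h3⟩ := hp
  have hC := C0_pos
  set g := gw Lam A
  set G := Lam * D ^ 2
  set κ := Real.sqrt (1 / (2 * Lam))
  have hκ : 0 < κ := Real.sqrt_pos.2 (by positivity)
  have hg : Monotone g := gw_mono hL.le hA
  have hgc : Continuous g := continuous_iff_continuousAt.2 fun s => (gw_deriv Lam hA s).continuousAt
  have hgG : ∀ t, 0 ≤ t → g t ≤ G := fun t ht => gw_le hL.le hA hA0 hD.le hAi ht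
  have hg0 : ∀ t, 0 ≤ t → 0 ≤ g t := fun t ht => gw_nonneg hL.le hA ht
  have hgm : Measurable fun t => ENNReal.ofReal (Real.exp (-g t)) := by fun_prop
  set δ : ℝ → ℝ≥0∞ := fun s => ENNReal.ofReal (Real.exp (-g s)) * NW (Wa a) (at' d s)
  set Z : ℝ → ℝ≥0∞ := fun s => ENNReal.ofReal (Real.exp (-g s)) * Y s
  have hδm : Measurable δ := hgm.mul (NW_meas _ hd)
  have hZm : Measurable Z := hgm.mul hY
  have hx : LF g a d = LN δ := rfl
  set x := LF g a d
  -- the product term
  have hYd : ∀ s, 0 < s → ∀ w : ℝ≥0∞, w ≤ 1 → w * (NW (Wa a) (at' d s) * Y s)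
      ≤ ENNReal.ofReal (Real.exp (2 * G)) * (Z s * δ s) := by
    intro s hs w hw
    have e : ENNReal.ofReal (Real.exp (2 * G)) * (Z s * δ s)
        = ENNReal.ofReal (Real.exp (2 * G) * (Real.exp (-g s) * Real.exp (-g s))) *
          (NW (Wa a) (at' d s) * Y s) := by
      simp only [Z, δ]
      rw [ENNReal.ofReal_mul (Real.exp_pos _).le, ENNReal.ofReal_mul (Real.exp_pos _).le]
      ring
    rw [e]
    apply mul_le_mul' _ le_rfl
    refine hw.trans ?_
    rw [← Real.exp_add, ← Real.exp_add, ENNReal.one_le_ofReal]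
    apply Real.one_le_exp
    have := hgG s hs.le
    linarith
  have hsum : ENNReal.ofReal (Real.exp (2 * G)) * ∫⁻ s in Ioi 0, Z s * δ s
      ≤ ENNReal.ofReal (Real.exp (2 * G) * (2 * ρ)) * x := by
    calc _ ≤ ENNReal.ofReal (Real.exp (2 * G)) * (LN Z * LN δ) :=
          mul_le_mul' le_rfl (LN_cs hZm hδm)
      _ ≤ ENNReal.ofReal (Real.exp (2 * G)) * (ENNReal.ofReal (2 * ρ) * x) :=
          mul_le_mul' le_rfl (mul_le_mul' hYi le_rfl)
      _ = _ := by rw [← mul_assoc, ← ENNReal.ofReal_mul (Real.exp_pos _).le]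
  -- P
  have hP : ∀ t, 0 < t → ENNReal.ofReal (Real.exp (-g t)) * ∫⁻ s in Ioc 0 t, NW (Wm a) (at' F s)
      ≤ ENNReal.ofReal (3 * C0 * κ) * x := by
    intro t ht
    have m1 : Measurable fun s => ENNReal.ofReal (Real.exp (-(g t - g s)) * |A s|) := by fun_prop
    have hcs : ∫⁻ s in Ioc 0 t, ENNReal.ofReal (Real.exp (-(g t - g s)) * |A s|) * δ s
        ≤ ENNReal.ofReal κ * x := by
      have := ENNReal.lintegral_mul_le_Lp_mul_Lq (volume.restrict (Ioc (0 : ℝ) t))
        Real.HolderConjugate.two_two m1.aemeasurable hδm.aemeasurable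
      refine this.trans ?_
      apply mul_le_mul'
      · calc _ ≤ (ENNReal.ofReal (1 / (2 * Lam))) ^ (1 / 2 : ℝ) :=
              ENNReal.rpow_le_rpow (kernel_le hL hA ht.le) (by norm_num)
          _ = ENNReal.ofReal κ := by
              rw [ENNReal.ofReal_rpow_of_nonneg (by positivity) (by norm_num), ← Real.sqrt_eq_rpow]
      · rw [hx]; unfold LN
        apply ENNReal.rpow_le_rpow _ (by norm_num)
        exact lintegral_mono_set fun s hs => hs.1
    calc ENNReal.ofReal (Real.exp (-g t)) * ∫⁻ s in Ioc 0 t, NW (Wm a) (at' F s)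
        = ∫⁻ s in Ioc 0 t, ENNReal.ofReal (Real.exp (-g t)) * NW (Wm a) (at' F s) := by
          rw [lintegral_const_mul _ (NW_meas _ hF)]
      _ ≤ ∫⁻ s in Ioc 0 t, ENNReal.ofReal C0 * (2 * (ENNReal.ofReal (Real.exp (-(g t - g s)) * |A s|) * δ s)
          + ENNReal.ofReal (Real.exp (2 * G)) * (Z s * δ s)) := by
          refine setLIntegral_mono' measurableSet_Ioc fun s hs => ?_
          have hs0 : 0 < s := hs.1
          calc ENNReal.ofReal (Real.exp (-g t)) * NW (Wm a) (at' F s)
              ≤ ENNReal.ofReal (Real.exp (-g t)) * (ENNReal.ofReal C0 *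
                (NW (Wa a) (at' d s) * (2 * ENNReal.ofReal (A s) + Y s))) :=
                mul_le_mul' le_rfl (hb s hs0)
            _ = ENNReal.ofReal C0 * (2 * (ENNReal.ofReal (Real.exp (-g t)) *
                (ENNReal.ofReal (A s) * NW (Wa a) (at' d s)))
                + ENNReal.ofReal (Real.exp (-g t)) * (NW (Wa a) (at' d s) * Y s)) := by ring
            _ ≤ _ := by
                apply mul_le_mul' le_rfl
                apply add_le_add
                · apply mul_le_mul' le_rfl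
                  apply le_of_eq
                  simp only [δ]
                  rw [abs_of_nonneg (hA0 s), ENNReal.ofReal_mul (Real.exp_pos _).le]
                  have e : Real.exp (-g t) = Real.exp (-(g t - g s)) * Real.exp (-g s) := by
                    rw [← Real.exp_add]; congr 1; ring
                  rw [e, ENNReal.ofReal_mul (Real.exp_pos _).le]
                  ring
                · apply hYd s hs0
                  rw [ENNReal.ofReal_le_one, Real.exp_le_one_iff]
                  have := hg0 t ht.le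
                  linarith
      _ = ENNReal.ofReal C0 * (2 * ∫⁻ s in Ioc 0 t, ENNReal.ofReal (Real.exp (-(g t - g s)) * |A s|) * δ s)
          + ENNReal.ofReal C0 * (ENNReal.ofReal (Real.exp (2 * G)) * ∫⁻ s in Ioc 0 t, Z s * δ s) := by
          rw [lintegral_const_mul _ (by fun_prop), lintegral_add_left (by fun_prop),
            lintegral_const_mul _ (by fun_prop), lintegral_const_mul _ (by fun_prop)]
          ring
      _ ≤ ENNReal.ofReal C0 * (2 * (ENNReal.ofReal κ * x)) +
          ENNReal.ofReal C0 * (ENNReal.ofReal (Real.exp (2 * G) * (2 * ρ)) * x) := by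
          apply add_le_add
          · exact mul_le_mul' le_rfl (mul_le_mul' le_rfl hcs)
          · apply mul_le_mul' le_rfl
            refine le_trans ?_ hsum
            exact mul_le_mul' le_rfl (lintegral_mono_set fun s hs => hs.1)
      _ ≤ ENNReal.ofReal C0 * (2 * (ENNReal.ofReal κ * x)) +
          ENNReal.ofReal C0 * (ENNReal.ofReal κ * x) := by
          gcongr
      _ = ENNReal.ofReal (3 * C0 * κ) * x := by
          rw [ENNReal.ofReal_mul (by positivity), ENNReal.ofReal_mul (by positivity)]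
          simp only [ENNReal.ofReal_ofNat]
          ring
  have hQ : ∫⁻ s in Ioi 0, ENNReal.ofReal (Real.exp (-g s)) * NW (Wm a) (at' F s)
      ≤ ENNReal.ofReal (3 * C0 * D) * x := by
    have m1 : Measurable fun s => ENNReal.ofReal (A s) := by fun_prop
    have hcs : ∫⁻ s in Ioi 0, ENNReal.ofReal (A s) * δ s ≤ ENNReal.ofReal D * x :=
      (LN_cs m1 hδm).trans (mul_le_mul' hAi le_rfl)
    calc ∫⁻ s in Ioi 0, ENNReal.ofReal (Real.exp (-g s)) * NW (Wm a) (at' F s)
        ≤ ∫⁻ s in Ioi 0, ENNReal.ofReal C0 * (2 * (ENNReal.ofReal (A s) * δ s)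
          + ENNReal.ofReal (Real.exp (2 * G)) * (Z s * δ s)) := by
          refine setLIntegral_mono' measurableSet_Ioi fun s hs => ?_
          have hs0 : 0 < s := hs
          calc ENNReal.ofReal (Real.exp (-g s)) * NW (Wm a) (at' F s)
              ≤ ENNReal.ofReal (Real.exp (-g s)) * (ENNReal.ofReal C0 *
                (NW (Wa a) (at' d s) * (2 * ENNReal.ofReal (A s) + Y s))) :=
                mul_le_mul' le_rfl (hb s hs0)
            _ = ENNReal.ofReal C0 * (2 * (ENNReal.ofReal (A s) * δ s)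
                + ENNReal.ofReal (Real.exp (-g s)) * (NW (Wa a) (at' d s) * Y s)) := by
                simp only [δ]; ring
            _ ≤ _ := by
                apply mul_le_mul' le_rfl
                apply add_le_add le_rfl
                apply hYd s hs0
                rw [ENNReal.ofReal_le_one, Real.exp_le_one_iff]
                have := hg0 s hs0.le
                linarith
      _ = ENNReal.ofReal C0 * (2 * ∫⁻ s in Ioi 0, ENNReal.ofReal (A s) * δ s)
          + ENNReal.ofReal C0 * (ENNReal.ofReal (Real.exp (2 * G)) * ∫⁻ s in Ioi 0, Z s * δ s) := by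
          rw [lintegral_const_mul _ (by fun_prop), lintegral_add_left (by fun_prop),
            lintegral_const_mul _ (by fun_prop), lintegral_const_mul _ (by fun_prop)]
          ring
      _ ≤ ENNReal.ofReal C0 * (2 * (ENNReal.ofReal D * x)) +
          ENNReal.ofReal C0 * (ENNReal.ofReal (Real.exp (2 * G) * (2 * ρ)) * x) := by
          apply add_le_add
          · exact mul_le_mul' le_rfl (mul_le_mul' le_rfl hcs)
          · exact mul_le_mul' le_rfl hsum
      _ ≤ ENNReal.ofReal C0 * (2 * (ENNReal.ofReal D * x)) +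
          ENNReal.ofReal C0 * (ENNReal.ofReal D * x) := by
          gcongr
      _ = ENNReal.ofReal (3 * C0 * D) * x := by
          rw [ENNReal.ofReal_mul (by positivity), ENNReal.ofReal_mul (by positivity)]
          simp only [ENNReal.ofReal_ofNat]
          ring
  constructor
  · have hk := key_le hc hF h0 hg hP hQ
    have h5 : ENNReal.ofReal (3 * C0 * κ) * x * (ENNReal.ofReal (3 * C0 * D) * x)
        ≤ ENNReal.ofReal c * ((1 / 2) * x) ^ 2 := by
      have e1 : ENNReal.ofReal (3 * C0 * κ) * x * (ENNReal.ofReal (3 * C0 * D) * x)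
          = ENNReal.ofReal (3 * C0 * κ * (3 * C0 * D)) * x ^ 2 := by
        rw [ENNReal.ofReal_mul (p := 3 * C0 * κ) (by positivity)]; ring
      have e2 : ENNReal.ofReal c * ((1 / 2) * x) ^ 2 = ENNReal.ofReal (c * (1 / 4)) * x ^ 2 := by
        rw [ENNReal.ofReal_mul hc.le]
        have : ENNReal.ofReal (1 / 4) = (1 / 2) ^ 2 := by
          rw [ENNReal.ofReal_div_of_pos (by norm_num)]
          simp only [ENNReal.ofReal_one, ENNReal.ofReal_ofNat, one_div]
          rw [← ENNReal.inv_pow]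
          norm_num
        rw [this]; ring
      rw [e1, e2]
      apply mul_le_mul' _ le_rfl
      apply ENNReal.ofReal_le_ofReal
      nlinarith
    have h6 : ENNReal.ofReal c * LF g a (Duh c F) ^ 2 ≤ ENNReal.ofReal c * ((1 / 2) * x) ^ 2 :=
      hk.trans h5
    have h7 : LF g a (Duh c F) ^ 2 ≤ ((1 / 2) * x) ^ 2 :=
      (ENNReal.mul_le_mul_iff_right (by simpa using hc) ENNReal.ofReal_ne_top).1 h6
    rw [← ENNReal.rpow_two, ← ENNReal.rpow_two] at h7
    exact (ENNReal.rpow_le_rpow_iff (by norm_num : (0 : ℝ) < 2)).1 h7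
  · intro t ht
    calc NW (Wm a) (at' (Duh c F) t) ≤ ∫⁻ s in Ioc 0 t, NW (Wm a) (at' F s) :=
          NW_Duh_le hc.le (Wm a) hF ht
      _ ≤ ∫⁻ s in Ioi 0, NW (Wm a) (at' F s) := lintegral_mono_set fun s hs => hs.1
      _ ≤ ∫⁻ s in Ioi 0, ENNReal.ofReal (Real.exp G) *
          (ENNReal.ofReal (Real.exp (-g s)) * NW (Wm a) (at' F s)) := by
          refine setLIntegral_mono' measurableSet_Ioi fun s hs => ?_
          have hs0 : 0 < s := hs
          rw [← mul_assoc, ← ENNReal.ofReal_mul (Real.exp_pos _).le, ← Real.exp_add]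
          calc NW (Wm a) (at' F s) = 1 * NW (Wm a) (at' F s) := (one_mul _).symm
            _ ≤ _ := by
                apply mul_le_mul' _ le_rfl
                rw [ENNReal.one_le_ofReal]
                apply Real.one_le_exp
                have := hgG s hs0.le
                linarith
      _ = ENNReal.ofReal (Real.exp G) * ∫⁻ s in Ioi 0,
          (ENNReal.ofReal (Real.exp (-g s)) * NW (Wm a) (at' F s)) := by
          have mm : Measurable fun s => ENNReal.ofReal (Real.exp (-g s)) * NW (Wm a) (at' F s) :=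
            hgm.mul (NW_meas _ hF)
          rw [lintegral_const_mul _ mm]
      _ ≤ ENNReal.ofReal (Real.exp G) * (ENNReal.ofReal (3 * C0 * D) * x) :=
          mul_le_mul' le_rfl hQ
      _ = _ := by rw [← mul_assoc, ← ENNReal.ofReal_mul (Real.exp_pos _).le]

end Pool.Agent.H356R3.NS
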