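import Pool.Agent.H3NY.R.Basic

namespace Pool.Agent.H356R3.NS
end Pool.Agent.H356R3.NS
namespace Pool.Agent.H356R3.NS.H3
end Pool.Agent.H356R3.NS.H3
namespace Pool.Agent.H356R3.NS.X
end Pool.Agent.H356R3.NS.X
namespace Pool.Agent.H3NS
end Pool.Agent.H3NS
namespace H459R3.NS
end H459R3.NS

open MeasureTheory Set Filter Topology
open scoped ENNReal NNReal ContDiff

namespace Pool.Agent.H356R3.NS

/-- cubes of frequencies -/
noncomputable def bx (M : ℕ) : Finset K := Finset.Icc (fun _ => -(M : ℤ)) (fun _ => (M : ℤ))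

lemma mem_bx {M : ℕ} {k : K} : k ∈ bx M ↔ ∀ i, |k i| ≤ M := by
  unfold bx
  rw [Finset.mem_Icc, Pi.le_def, Pi.le_def]
  constructor
  · rintro ⟨h1, h2⟩ i
    exact abs_le.2 ⟨h1 i, h2 i⟩
  · intro h
    exact ⟨fun i => (abs_le.1 (h i)).1, fun i => (abs_le.1 (h i)).2⟩

end Pool.Agent.H356R3.NS
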