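import Pool.Agent.H3NY.R.Basic

namespace Pool.Agent.H356R3.NS
end Pool.Agent.H356R3.NS
namespace Pool.Agent.H356R3.NS.H3
end Pool.Agent.H356R3.NS.H3
namespace Pool.Agent.H356R3.NS.X
end Pool.Agent.H356R3.NS.X
namespace Pool.Agent.H3NS
end Pool.Agent.H3NS
namespace H459R3.NS
end H459R3.NS

open MeasureTheory Set Filter Topology
open scoped ENNReal NNReal

namespace Pool.Agent.H356R3.NS

/-- sum over the dyadic shell `2^j ≤ |k| < 2^{j+1}` -/
noncomputable def shell (j : ℕ) (f : K → ℝ≥0∞) : ℝ≥0∞ :=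
  ∑' k, if (4 : ℝ) ^ j ≤ sq k ∧ sq k < 4 ^ (j + 1) then f k else 0

/-- `r`-th power of the norm of `FB^{-1}_{1,r}` -/
noncomputable def crit (r : ℝ) (a : K → C3) : ℝ≥0∞ :=
  ∑' j : ℕ, (shell j (fun k => ‖a k‖ₑ) / 2 ^ j) ^ r

lemma shell_mono (j : ℕ) {f g : K → ℝ≥0∞} (h : ∀ k, (4 : ℝ) ^ j ≤ sq k → sq k < 4 ^ (j + 1) → f k ≤ g k) :
    shell j f ≤ shell j g := by
  unfold shell
  refine ENNReal.tsum_le_tsum fun k => ?_
  split_ifs with h1
  · exact h k h1.1 h1.2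
  · exact le_rfl

lemma shell_zero (j : ℕ) {f : K → ℝ≥0∞} (h : ∀ k, (4 : ℝ) ^ j ≤ sq k → sq k < 4 ^ (j + 1) → f k = 0) :
    shell j f = 0 := by
  unfold shell
  rw [ENNReal.tsum_eq_zero]
  intro k
  split_ifs with h1
  · exact h k h1.1 h1.2
  · rfl

lemma shell_add (j : ℕ) (f g : K → ℝ≥0∞) : shell j (fun k => f k + g k) = shell j f + shell j g := by
  unfold shell
  rw [← ENNReal.tsum_add]
  refine tsum_congr fun k => ?_
  split_ifs <;> simp

lemma tsum_shell_le (f : K → ℝ≥0∞) : ∑' j, shell j f ≤ ∑' k, f k := by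
  unfold shell
  rw [ENNReal.tsum_comm]
  refine ENNReal.tsum_le_tsum fun k => ?_
  by_cases h : ∃ j : ℕ, (4 : ℝ) ^ j ≤ sq k ∧ sq k < 4 ^ (j + 1)
  · obtain ⟨j, hj⟩ := h
    have : ∀ j' : ℕ, j' ≠ j → (if (4 : ℝ) ^ j' ≤ sq k ∧ sq k < 4 ^ (j' + 1) then f k else 0) = 0 := by
      intro j' hj'
      rw [if_neg]
      rintro ⟨h1, h2⟩
      rcases lt_or_gt_of_ne hj' with h | h
      · have : (4 : ℝ) ^ (j' + 1) ≤ 4 ^ j := pow_le_pow_right₀ (by norm_num) h
        linarith [hj.1]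
      · have : (4 : ℝ) ^ (j + 1) ≤ 4 ^ j' := pow_le_pow_right₀ (by norm_num) h
        linarith [hj.2]
    rw [tsum_eq_single j this]
    split_ifs <;> simp
  · have : ∀ j : ℕ, (if (4 : ℝ) ^ j ≤ sq k ∧ sq k < 4 ^ (j + 1) then f k else 0) = 0 :=
      fun j => if_neg fun h' => h ⟨j, h'⟩
    simp [this]

lemma tsum_rpow_le {ι : Type*} {r : ℝ} (hr : 1 ≤ r) (f : ι → ℝ≥0∞) : ∑' j, f j ^ r ≤ (∑' j, f j) ^ r := by
  classical
  rw [ENNReal.tsum_eq_iSup_sum]
  refine iSup_le fun s => ?_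
  refine le_trans ?_ (ENNReal.rpow_le_rpow (ENNReal.sum_le_tsum s) (by linarith))
  induction s using Finset.induction_on with
  | empty => simp
  | insert a s ha ih =>
    rw [Finset.sum_insert ha, Finset.sum_insert ha]
    exact (add_le_add le_rfl ih).trans (ENNReal.add_rpow_le_rpow_add _ _ hr)

/-- the critical norm is controlled by the Lei-Lin norm -/
lemma crit_le {r : ℝ} (hr : 1 ≤ r) (a : K → C3) :
    crit r a ≤ (2 * ∑' k, ENNReal.ofReal (1 / nk k) * ‖a k‖ₑ) ^ r := by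
  unfold crit
  refine (tsum_rpow_le hr _).trans (ENNReal.rpow_le_rpow ?_ (by linarith))
  rw [← ENNReal.tsum_mul_left]
  refine le_trans (ENNReal.tsum_le_tsum fun j => ?_)
    (tsum_shell_le fun k => 2 * (ENNReal.ofReal (1 / nk k) * ‖a k‖ₑ))
  unfold shell
  rw [div_eq_mul_inv, ← ENNReal.tsum_mul_right]
  refine ENNReal.tsum_le_tsum fun k => ?_
  split_ifs with h
  · show ‖a k‖ₑ * (2 ^ j)⁻¹ ≤ 2 * (ENNReal.ofReal (1 / nk k) * ‖a k‖ₑ)
    rw [← mul_assoc, mul_comm ‖a k‖ₑ]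
    apply mul_le_mul' _ le_rfl
    have hk : nk k < 2 ^ (j + 1) := by
      unfold nk
      rw [Real.sqrt_lt' (by positivity)]
      calc sq k < 4 ^ (j + 1) := h.2
        _ = (2 ^ (j + 1)) ^ 2 := by rw [← pow_mul, mul_comm, pow_mul]; norm_num
    have hk0 : 0 < nk k := by
      unfold nk
      apply Real.sqrt_pos.2
      have : (0 : ℝ) < 4 ^ j := by positivity
      linarith [h.1]
    have e : ((2 : ℝ≥0∞) ^ j)⁻¹ = ENNReal.ofReal (1 / 2 ^ j) := by
      rw [one_div, ENNReal.ofReal_inv_of_pos (by positivity), ENNReal.ofReal_pow (by norm_num)]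
      simp
    rw [e, show (2 : ℝ≥0∞) = ENNReal.ofReal 2 by simp, ← ENNReal.ofReal_mul (by norm_num)]
    apply ENNReal.ofReal_le_ofReal
    rw [mul_one_div, div_le_div_iff₀ (by positivity) hk0, one_mul, ← pow_succ']
    exact hk.le
  · simp

lemma crit_zero {r : ℝ} (hr : 0 < r) : crit r 0 = 0 := by
  unfold crit shell
  simp [ENNReal.zero_rpow_of_pos hr]

/-- additivity for separated frequencies -/
lemma crit_add {r : ℝ} (hr : 0 < r) {a b : K → C3} {J : ℕ} (ha : ∀ k, (4 : ℝ) ^ J ≤ sq k → a k = 0)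
    (hb : ∀ k, sq k < 4 ^ J → b k = 0) : crit r (a + b) = crit r a + crit r b := by
  unfold crit
  rw [← ENNReal.tsum_add]
  refine tsum_congr fun j => ?_
  by_cases hj : j < J
  · have h1 : shell j (fun k => ‖b k‖ₑ) = 0 := shell_zero j fun k _ h2 => by
      rw [hb k (h2.trans_le (pow_le_pow_right₀ (by norm_num) hj)), enorm_zero]
    have h2 : shell j (fun k => ‖(a + b) k‖ₑ) = shell j (fun k => ‖a k‖ₑ) := by
      unfold shell
      refine tsum_congr fun k => ?_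
      split_ifs with h
      · show ‖(a + b) k‖ₑ = ‖a k‖ₑ
        rw [Pi.add_apply, hb k (h.2.trans_le (pow_le_pow_right₀ (by norm_num) hj)), add_zero]
      · rfl
    rw [h1, h2]
    simp [ENNReal.zero_rpow_of_pos hr]
  · push Not at hj
    have h1 : shell j (fun k => ‖a k‖ₑ) = 0 := shell_zero j fun k h2 _ => by
      rw [ha k ((pow_le_pow_right₀ (by norm_num) hj).trans h2), enorm_zero]
    have h2 : shell j (fun k => ‖(a + b) k‖ₑ) = shell j (fun k => ‖b k‖ₑ) := by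
      unfold shell
      refine tsum_congr fun k => ?_
      split_ifs with h
      · show ‖(a + b) k‖ₑ = ‖b k‖ₑ
        rw [Pi.add_apply, ha k ((pow_le_pow_right₀ (by norm_num) hj).trans h.1), zero_add]
      · rfl
    rw [h1, h2]
    simp [ENNReal.zero_rpow_of_pos hr]

/-- tails of the critical norm -/
lemma crit_tail {r : ℝ} (hr : 0 < r) {a : K → C3} (h : crit r a ≠ ⊤) {δ : ℝ≥0∞} (hδ : 0 < δ) :
    ∃ J : ℕ, ∀ b : K → C3, (∀ k, b k = a k ∨ b k = 0) → (∀ k, sq k < 4 ^ J → b k = 0) → crit r b < δ := by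
  have h1 := ENNReal.tendsto_sum_nat_add (fun j => (shell j (fun k => ‖a k‖ₑ) / 2 ^ j) ^ r) h
  obtain ⟨J, hJ⟩ := (h1.eventually (gt_mem_nhds hδ)).exists
  refine ⟨J, fun b hb hb0 => lt_of_le_of_lt ?_ hJ⟩
  unfold crit
  rw [← Summable.sum_add_tsum_nat_add' (k := J) ENNReal.summable]
  have h2 : ∑ j ∈ Finset.range J, (shell j (fun k => ‖b k‖ₑ) / 2 ^ j) ^ r = 0 := by
    refine Finset.sum_eq_zero fun j hj => ?_
    rw [Finset.mem_range] at hj
    rw [shell_zero j fun k _ h2 => by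
      rw [hb0 k (h2.trans_le (pow_le_pow_right₀ (by norm_num) hj)), enorm_zero]]
    simp [ENNReal.zero_rpow_of_pos hr]
  rw [h2, zero_add]
  refine ENNReal.tsum_le_tsum fun j => ?_
  refine ENNReal.rpow_le_rpow (ENNReal.div_le_div_right (shell_mono _ fun k _ _ => ?_) _) hr.le
  rcases hb k with h | h
  · rw [h]
  · rw [h, enorm_zero]; exact zero_le

end Pool.Agent.H356R3.NS
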