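import Pool.Agent.H3NY.R.Step

namespace Pool.Agent.H356R3.NS
end Pool.Agent.H356R3.NS
namespace Pool.Agent.H356R3.NS.H3
end Pool.Agent.H356R3.NS.H3
namespace Pool.Agent.H356R3.NS.X
end Pool.Agent.H356R3.NS.X
namespace Pool.Agent.H3NS
end Pool.Agent.H3NS
namespace H459R3.NS
end H459R3.NS

open MeasureTheory Set Filter Topology
open scoped ENNReal NNReal

namespace Pool.Agent.H356R3.NS

lemma Sym_pair (κ : K) (s : ℂ) (l : K) : Sym (Sg κ (s • cK l) + Sg (-κ) (star s • cK l)) := by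
  have h := sym_pair κ 0 s l 0
  have e : at' (Mo κ 0 (s • cK l) + Mo (-κ) 0 (star s • cK l)) 0
      = Sg κ (s • cK l) + Sg (-κ) (star s • cK l) := by
    have : at' (Mo κ 0 (s • cK l) + Mo (-κ) 0 (star s • cK l)) 0
      = at' (Mo κ 0 (s • cK l)) 0 + at' (Mo (-κ) 0 (star s • cK l)) 0 := rfl
    rw [this, at'_Mo, at'_Mo]; simp
  rwa [e] at h

lemma dt_Sg {κ : K} {v : C3} (h : dt κ v = 0) (k : K) : dt k (Sg κ v k) = 0 := by
  by_cases hk : k = κ
  · subst hk; simpa [Sg] using h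
  · simp [Sg, hk, dt]

lemma dt_add (k : K) (v v' : C3) : dt k (v + v') = dt k v + dt k v' := by
  unfold dt; rw [← Finset.sum_add_distrib]
  exact Finset.sum_congr rfl fun i _ => by simp; ring

variable {q cc η : K}

lemma W0_sym (c : ℝ) (q cc η : K) (γ : ℂ) (lm : ℝ) (N : ℕ) : Sym (W0 c q cc η γ lm N) := by
  have h1 := Sym_pair ((N : ℤ) • η) (am lm N) q
  have h2 := Sym_pair ((N : ℤ) • η + q) (be c q η γ lm N) cc
  have e3 : star (am lm N) = am lm N := star_am lm N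
  rw [e3] at h1
  have := h1.add h2
  rw [← add_assoc] at this
  exact this

lemma W0_div (hG : Geo q cc η) (c : ℝ) (γ : ℂ) (lm : ℝ) (N : ℕ) (k : K) : dt k (W0 c q cc η γ lm N k) = 0 := by
  unfold W0
  have h1 : ip ((N : ℤ) • η) q = 0 := by rw [ip_smul, hG.ηq, mul_zero]
  have h2 : ip ((N : ℤ) • η + q) cc = 0 := by rw [ip_add, ip_smul, hG.ηc, hG.qc, mul_zero, zero_add]
  simp only [Pi.add_apply, dt_add]
  rw [dt_Sg, dt_Sg, dt_Sg, dt_Sg]
  · simp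
  · rw [dt_smul, ip_neg, h2]; simp
  · rw [dt_smul, h2]; simp
  · rw [dt_smul, ip_neg, h1]; simp
  · rw [dt_smul, h1]; simp

lemma supp_Sg (κ : K) (v : C3) : (Function.support (Sg κ v)).Finite := by
  refine (Set.finite_singleton κ).subset fun k hk => ?_
  rw [Function.mem_support] at hk
  by_contra h
  exact hk (by simp only [mem_singleton_iff] at h; simp [Sg, h])

lemma supp_add {x y : K → C3} (hx : (Function.support x).Finite) (hy : (Function.support y).Finite) :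
    (Function.support (x + y)).Finite := (hx.union hy).subset (Function.support_add _ _)

lemma W0_fin (c : ℝ) (γ : ℂ) (lm : ℝ) (N : ℕ) : (Function.support (W0 c q cc η γ lm N)).Finite :=
  supp_add (supp_add (supp_add (supp_Sg _ _) (supp_Sg _ _)) (supp_Sg _ _)) (supp_Sg _ _)

lemma W0_cut' (hG : Geo q cc η) (c : ℝ) (γ : ℂ) (lm : ℝ) {N : ℕ} {k : K}
    (h2 : sq k < (N : ℝ) ^ 2) : W0 c q cc η γ lm N k = 0 := by
  have hη := one_le_sq hG.hη
  have hq := sq_nonneg' q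
  have hN2 : (0 : ℝ) ≤ (N : ℝ) ^ 2 := by positivity
  have s1 : (N : ℝ) ^ 2 ≤ sq ((N : ℤ) • η) := by rw [sq_k1]; nlinarith
  have s2 : (N : ℝ) ^ 2 ≤ sq ((N : ℤ) • η + q) := by rw [sq_k2 hG]; nlinarith
  have ne : ∀ {κ : K}, (N : ℝ) ^ 2 ≤ sq κ → ∀ v : C3, Sg κ v k = 0 := by
    intro κ hκ v
    unfold Sg
    rw [if_neg]
    rintro rfl; linarith
  unfold W0
  simp only [Pi.add_apply]
  rw [ne s1, ne (by rw [sq_neg]; exact s1), ne s2, ne (by rw [sq_neg]; exact s2)]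
  simp

lemma E0_add (q cc : K) (γ γ' : ℂ) : E0 q cc (γ + γ') = E0 q cc γ + E0 q cc γ' := by
  unfold E0
  rw [star_add, add_smul, add_smul, Sg_add, Sg_add]
  abel

lemma E0_zero (q cc : K) : E0 q cc 0 = 0 := by
  funext k
  simp [E0, Sg]

/-- cross product -/
def crs (q c : K) : K := ![q 1 * c 2 - q 2 * c 1, q 2 * c 0 - q 0 * c 2, q 0 * c 1 - q 1 * c 0]

lemma ip3 (k l : K) : ip k l = k 0 * l 0 + k 1 * l 1 + k 2 * l 2 := by
  unfold ip; rw [Fin.sum_univ_three]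

lemma ip_self_pos {k : K} (h : k ≠ 0) : 0 < ip k k := by
  have := sq_pos h
  rw [sq_eq_ip] at this
  exact_mod_cast this

lemma geo_crs {q c : K} (hq : q ≠ 0) (hc : c ≠ 0) (h : ip q c = 0) : Geo q c (crs q c) := by
  refine ⟨hq, hc, ?_, h, ?_, ?_⟩
  · intro h0
    have h1 : ip (crs q c) (crs q c) = ip q q * ip c c - ip q c ^ 2 := by
      simp only [ip3, crs, Matrix.cons_val_zero, Matrix.cons_val_one, Matrix.cons_val]; ring
    rw [h0, h] at h1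
    have h2 : ip (0 : K) 0 = 0 := by simp [ip]
    rw [h2] at h1
    have := mul_pos (ip_self_pos hq) (ip_self_pos hc)
    nlinarith
  · simp only [ip3, crs, Matrix.cons_val_zero, Matrix.cons_val_one, Matrix.cons_val]; ring
  · simp only [ip3, crs, Matrix.cons_val_zero, Matrix.cons_val_one, Matrix.cons_val]; ring

lemma exists_perp {q : K} (hq : q ≠ 0) : ∃ c : K, c ≠ 0 ∧ ip q c = 0 := by
  by_cases h : q 0 = 0 ∧ q 1 = 0
  · refine ⟨![1, 0, 0], fun h0 => ?_, ?_⟩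
    · have := congrFun h0 0; simp at this
    · rw [ip3]; simp [h.1]
  · refine ⟨![q 1, -q 0, 0], fun h0 => h ?_, ?_⟩
    · have h1 := congrFun h0 0
      have h2 := congrFun h0 1
      simp at h1 h2
      exact ⟨h2, h1⟩
    · rw [ip3]; simp; ring

lemma decomp {q c : K} (hq : q ≠ 0) (hc : c ≠ 0) (h : ip q c = 0) {v : C3} (hv : dt q v = 0) :
    ∃ γ1 γ2 : ℂ, v = γ1 • cK c + γ2 • cK (crs q c) := by
  have hqq : ((ip q q : ℤ) : ℂ) ≠ 0 := by exact_mod_cast (ip_self_pos hq).ne'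
  have hcc : ((ip c c : ℤ) : ℂ) ≠ 0 := by exact_mod_cast (ip_self_pos hc).ne'
  have h' : (q 0 : ℂ) * c 0 + q 1 * c 1 + q 2 * c 2 = 0 := by
    rw [ip3] at h; exact_mod_cast h
  have hv' : (q 0 : ℂ) * v 0 + q 1 * v 1 + q 2 * v 2 = 0 := by
    unfold dt at hv; rw [Fin.sum_univ_three] at hv; exact hv
  refine ⟨dt c v / (ip c c : ℤ), dt (crs q c) v / ((ip q q : ℤ) * (ip c c : ℤ)), ?_⟩
  have e1 : dt c v = (c 0 : ℂ) * v 0 + c 1 * v 1 + c 2 * v 2 := by unfold dt; rw [Fin.sum_univ_three]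
  have e2 : dt (crs q c) v = ((q 1 : ℂ) * c 2 - q 2 * c 1) * v 0 + ((q 2 : ℂ) * c 0 - q 0 * c 2) * v 1
      + ((q 0 : ℂ) * c 1 - q 1 * c 0) * v 2 := by
    unfold dt; rw [Fin.sum_univ_three]; simp [crs]
  have e3 : ((ip q q : ℤ) : ℂ) = (q 0 : ℂ) * q 0 + q 1 * q 1 + q 2 * q 2 := by rw [ip3]; push_cast; ring
  have e4 : ((ip c c : ℤ) : ℂ) = (c 0 : ℂ) * c 0 + c 1 * c 1 + c 2 * c 2 := by rw [ip3]; push_cast; ring
  have e5 : ∀ i, cK (crs q c) i = (![(q 1 : ℂ) * c 2 - q 2 * c 1, (q 2 : ℂ) * c 0 - q 0 * c 2,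
      (q 0 : ℂ) * c 1 - q 1 * c 0] : C3) i := by
    intro i; fin_cases i <;> simp [cK, crs]
  have key : ∀ i, ((ip q q : ℤ) : ℂ) * (ip c c : ℤ) * v i = dt c v * (ip q q : ℤ) * c i
      + dt (crs q c) v * cK (crs q c) i := by
    intro i
    rw [e5, e1, e2, e3, e4]
    fin_cases i <;>
    simp only [Fin.zero_eta, Fin.mk_one, Fin.reduceFinMk, Matrix.cons_val_zero, Matrix.cons_val_one,
      Matrix.cons_val]
    · linear_combination (((q 0 : ℂ) * c 0 + q 1 * c 1 + q 2 * c 2) * v 0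
        - (q 0 * ((c 0 : ℂ) * v 0 + c 1 * v 1 + c 2 * v 2) + c 0 * ((q 0 : ℂ) * v 0 + q 1 * v 1 + q 2 * v 2))) * h'
        + ((c 0 : ℂ) * c 0 + c 1 * c 1 + c 2 * c 2) * q 0 * hv'
    · linear_combination (((q 0 : ℂ) * c 0 + q 1 * c 1 + q 2 * c 2) * v 1
        - (q 1 * ((c 0 : ℂ) * v 0 + c 1 * v 1 + c 2 * v 2) + c 1 * ((q 0 : ℂ) * v 0 + q 1 * v 1 + q 2 * v 2))) * h'
        + ((c 0 : ℂ) * c 0 + c 1 * c 1 + c 2 * c 2) * q 1 * hv'
    · linear_combination (((q 0 : ℂ) * c 0 + q 1 * c 1 + q 2 * c 2) * v 2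
        - (q 2 * ((c 0 : ℂ) * v 0 + c 1 * v 1 + c 2 * v 2) + c 2 * ((q 0 : ℂ) * v 0 + q 1 * v 1 + q 2 * v 2))) * h'
        + ((c 0 : ℂ) * c 0 + c 1 * c 1 + c 2 * c 2) * q 2 * hv'
  funext i
  simp only [Pi.add_apply, Pi.smul_apply, smul_eq_mul]
  have h6 := key i
  rw [show cK c i = (c i : ℂ) from rfl]
  field_simp
  linear_combination h6

end Pool.Agent.H356R3.NS
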