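import Pool.Agent.H3NY.R.Duh

namespace Pool.Agent.H356R3.NS
end Pool.Agent.H356R3.NS
namespace Pool.Agent.H356R3.NS.H3
end Pool.Agent.H356R3.NS.H3
namespace Pool.Agent.H356R3.NS.X
end Pool.Agent.H356R3.NS.X
namespace Pool.Agent.H3NS
end Pool.Agent.H3NS
namespace H459R3.NS
end H459R3.NS

open MeasureTheory Set Filter Topology
open scoped ENNReal NNReal

namespace Pool.Agent.H356R3.NS

/-- integer vectors as complex vectors -/
noncomputable def cK (l : K) : C3 := fun i => (l i : ℂ)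

/-- integer inner product -/
def ip (k l : K) : ℤ := ∑ i, k i * l i

lemma dt_smul (k l : K) (s : ℂ) : dt k (s • cK l) = s * (ip k l : ℂ) := by
  unfold dt ip cK
  push_cast
  rw [Finset.mul_sum]
  exact Finset.sum_congr rfl fun i _ => by simp; ring

lemma ip_add (k k' l : K) : ip (k + k') l = ip k l + ip k' l := by
  unfold ip
  rw [← Finset.sum_add_distrib]
  exact Finset.sum_congr rfl fun i _ => by simp; ring

lemma ip_neg (k l : K) : ip (-k) l = -ip k l := by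
  unfold ip; simp

lemma ip_comm (k l : K) : ip k l = ip l k := by
  unfold ip; exact Finset.sum_congr rfl fun i _ => mul_comm _ _

lemma sq_eq_ip (k : K) : sq k = (ip k k : ℝ) := by
  unfold sq ip; push_cast
  exact Finset.sum_congr rfl fun i _ => by ring

lemma Bsg_zero {κ κ' l : K} (s : ℂ) (v : C3) (h : ip (κ + κ') l = 0) :
    Bf (Sg κ (s • cK l)) (Sg κ' v) = 0 := by
  rw [Bf_Sg, bt_zero_left, Sg_zero]
  rw [dt_smul, h]; simp

lemma Bsg_zero' {κ κ' : K} (v v' : C3) (h : κ + κ' = 0) : Bf (Sg κ v) (Sg κ' v') = 0 := by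
  rw [Bf_Sg, h, bt_freq_zero, Sg_zero]

lemma Bsg {κ κ' l l' : K} (s s' : ℂ) (h : ip (κ + κ') l' = 0) :
    Bf (Sg κ (s • cK l)) (Sg κ' (s' • cK l')) =
      Sg (κ + κ') ((-(2 * Real.pi * Complex.I) * (s * (ip (κ + κ') l : ℂ)) * s') • cK l') := by
  rw [Bf_Sg, bt_perp, dt_smul, smul_smul]
  rw [dt_smul, h]; simp

/-- The self interaction of the wave. -/
lemma BW {k1 k2 q cc : K} (h2 : k2 = k1 + q) (h1q : ip k1 q = 0) (h1c : ip k1 cc = 0)
    (hqc : ip q cc = 0) (α α' β β' : ℂ) (S : K → C3)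
    (hS : S = Sg k1 (α • cK q) + Sg (-k1) (α' • cK q) + Sg k2 (β • cK cc) + Sg (-k2) (β' • cK cc)) :
    Bf S S = Sg (k1 + k2) ((-(2 * Real.pi * Complex.I) * (α * (ip q q : ℂ)) * β) • cK cc)
      + Sg (-q) ((2 * Real.pi * Complex.I * (α * (ip q q : ℂ)) * β') • cK cc)
      + Sg q ((-(2 * Real.pi * Complex.I) * (α' * (ip q q : ℂ)) * β) • cK cc)
      + Sg (-(k1 + k2)) ((2 * Real.pi * Complex.I * (α' * (ip q q : ℂ)) * β') • cK cc) := by
  set S1 := Sg k1 (α • cK q) with e1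
  set S2 := Sg (-k1) (α' • cK q) with e2
  set S3 := Sg k2 (β • cK cc) with e3
  set S4 := Sg (-k2) (β' • cK cc) with e4
  have n1 : SN S1 := SN_Sg _ _
  have n2 : SN S2 := SN_Sg _ _
  have n3 : SN S3 := SN_Sg _ _
  have n4 : SN S4 := SN_Sg _ _
  have nS : SN S := by rw [hS]; exact ((n1.add n2).add n3).add n4
  have hexp : ∀ T, SN T → Bf T S = Bf T S1 + Bf T S2 + Bf T S3 + Bf T S4 := by
    intro T hT
    rw [hS, Bf_add_right hT ((n1.add n2).add n3) n4, Bf_add_right hT (n1.add n2) n3,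
      Bf_add_right hT n1 n2]
  have hleft : Bf S S = Bf S1 S + Bf S2 S + Bf S3 S + Bf S4 S := by
    conv_lhs => rw [show Bf S S = Bf (S1 + S2 + S3 + S4) S from by rw [← hS]]
    rw [Bf_add_left ((n1.add n2).add n3) n4 nS, Bf_add_left (n1.add n2) n3 nS,
      Bf_add_left n1 n2 nS]
  rw [hleft, hexp _ n1, hexp _ n2, hexp _ n3, hexp _ n4]
  have i2q : ip k2 q = ip q q := by rw [h2, ip_add, h1q, zero_add]
  have i2c : ip k2 cc = 0 := by rw [h2, ip_add, h1c, hqc, zero_add]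
  have a11 : Bf S1 S1 = 0 := Bsg_zero _ _ (by rw [ip_add, h1q]; rfl)
  have a12 : Bf S1 S2 = 0 := Bsg_zero' _ _ (by simp)
  have a13 : Bf S1 S3 = Sg (k1 + k2) ((-(2 * Real.pi * Complex.I) * (α * (ip q q : ℂ)) * β) • cK cc) := by
    rw [e1, e3, Bsg _ _ (by rw [ip_add, h1c, i2c]; rfl)]
    rw [ip_add, h1q, i2q, zero_add]
  have a14 : Bf S1 S4 = Sg (-q) ((2 * Real.pi * Complex.I * (α * (ip q q : ℂ)) * β') • cK cc) := by
    have hf : k1 + -k2 = -q := by rw [h2]; abel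
    rw [e1, e4, Bsg _ _ (by rw [hf, ip_neg, hqc]; rfl), hf, ip_neg]
    congr 2
    push_cast; ring
  have a21 : Bf S2 S1 = 0 := Bsg_zero' _ _ (by simp)
  have a22 : Bf S2 S2 = 0 := Bsg_zero _ _ (by rw [ip_add, ip_neg, h1q]; rfl)
  have a23 : Bf S2 S3 = Sg q ((-(2 * Real.pi * Complex.I) * (α' * (ip q q : ℂ)) * β) • cK cc) := by
    have hf : -k1 + k2 = q := by rw [h2]; abel
    rw [e2, e3, Bsg _ _ (by rw [hf, hqc]), hf]
  have a24 : Bf S2 S4 = Sg (-(k1 + k2)) ((2 * Real.pi * Complex.I * (α' * (ip q q : ℂ)) * β') • cK cc) := by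
    have hf : -k1 + -k2 = -(k1 + k2) := by abel
    rw [e2, e4, Bsg _ _ (by rw [hf, ip_neg, ip_add, h1c, i2c]; rfl), hf, ip_neg, ip_add, h1q, i2q]
    congr 2
    push_cast; ring
  have a31 : Bf S3 S1 = 0 := Bsg_zero _ _ (by rw [ip_add, i2c, h1c]; rfl)
  have a32 : Bf S3 S2 = 0 := Bsg_zero _ _ (by rw [ip_add, i2c, ip_neg, h1c]; rfl)
  have a33 : Bf S3 S3 = 0 := Bsg_zero _ _ (by rw [ip_add, i2c]; rfl)
  have a34 : Bf S3 S4 = 0 := Bsg_zero' _ _ (by simp)
  have a41 : Bf S4 S1 = 0 := Bsg_zero _ _ (by rw [ip_add, ip_neg, i2c, h1c]; rfl)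
  have a42 : Bf S4 S2 = 0 := Bsg_zero _ _ (by rw [ip_add, ip_neg, ip_neg, i2c, h1c]; rfl)
  have a43 : Bf S4 S3 = 0 := Bsg_zero' _ _ (by simp)
  have a44 : Bf S4 S4 = 0 := Bsg_zero _ _ (by rw [ip_add, ip_neg, i2c]; rfl)
  rw [a11, a12, a13, a14, a21, a22, a23, a24, a31, a32, a33, a34, a41, a42, a43, a44]
  abel

/-- Exponentially decaying modes. -/
noncomputable def Mo (κ : K) (μ : ℝ) (v : C3) : Fam :=
  fun k t => if k = κ then Real.exp (-(μ * max t 0)) • v else 0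

lemma at'_Mo (κ : K) (μ : ℝ) (v : C3) (t : ℝ) :
    at' (Mo κ μ v) t = Sg κ (Real.exp (-(μ * max t 0)) • v) := by
  funext k; simp [at', Mo, Sg]

lemma Mo_cf (κ : K) (μ : ℝ) (v : C3) : CF (Mo κ μ v) := by
  intro k
  unfold Mo
  split_ifs
  · fun_prop
  · exact continuous_const

lemma Mo_dom (κ : K) {μ : ℝ} (hμ : 0 ≤ μ) (v : C3) (a : ℝ) :
    ∃ b : K → ℝ, Summable (fun k => om a k * b k) ∧ ∀ k t, ‖Mo κ μ v k t‖ ≤ b k := by
  refine ⟨fun k => if k = κ then ‖v‖ else 0, ?_, ?_⟩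
  · refine summable_of_ne_finset_zero (s := {κ}) fun k hk => ?_
    simp only [Finset.mem_singleton] at hk
    simp [hk]
  · intro k t
    by_cases h : k = κ
    · simp only [Mo, h, if_true]
      rw [norm_smul, Real.norm_of_nonneg (Real.exp_pos _).le]
      have : Real.exp (-(μ * max t 0)) ≤ 1 := by
        rw [Real.exp_le_one_iff]
        have : 0 ≤ μ * max t 0 := mul_nonneg hμ (le_max_right _ _)
        linarith
      calc _ ≤ 1 * ‖v‖ := mul_le_mul_of_nonneg_right this (norm_nonneg _)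
        _ = _ := one_mul _
    · simp [Mo, h]

lemma NW_Mo_le (W : K → ℝ≥0∞) (κ : K) {μ σ : ℝ} (h : σ ≤ μ) (v : C3) (t : ℝ) :
    NW W (at' (Mo κ μ v) t) ≤ W κ * ENNReal.ofReal (‖v‖ * Real.exp (-(σ * max t 0))) := by
  rw [at'_Mo, NW_Sg]
  apply mul_le_mul' le_rfl
  rw [← ofReal_norm, norm_smul, Real.norm_of_nonneg (Real.exp_pos _).le, mul_comm]
  apply ENNReal.ofReal_le_ofReal
  apply mul_le_mul_of_nonneg_left _ (norm_nonneg _)
  apply Real.exp_le_exp.2
  have : 0 ≤ max t 0 := le_max_right _ _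
  nlinarith

lemma Duh_Mo {c μ : ℝ} {κ : K} (v : C3) {m : ℝ} (hm : m ≠ 0) (h : μ - c * sq κ = m) (k : K) (t : ℝ) :
    Duh c (Mo κ μ v) k t = if k = κ then
      ((Real.exp (-(c * sq κ * max t 0)) - Real.exp (-(μ * max t 0))) / m) • v else 0 := by
  by_cases hk : k = κ
  · subst hk
    rw [if_pos rfl]
    unfold Duh
    have hτ : 0 ≤ max t 0 := le_max_right _ _
    set τ := max t 0
    have e1 : ∀ s ∈ uIcc 0 τ, Real.exp (-(c * sq k * (τ - s))) • Mo k μ v k s =
        Real.exp (-(c * sq k * τ)) • (Real.exp (-(m * s)) • v) := by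
      intro s hs
      rw [uIcc_of_le hτ] at hs
      unfold Mo
      rw [if_pos rfl, max_eq_left hs.1, smul_smul, smul_smul, ← Real.exp_add, ← Real.exp_add]
      congr 2
      rw [← h]; ring
    rw [intervalIntegral.integral_congr e1, intervalIntegral.integral_smul]
    have e2 : ∫ s in (0 : ℝ)..τ, Real.exp (-(m * s)) • v = ((1 - Real.exp (-(m * τ))) / m) • v := by
      rw [intervalIntegral.integral_smul_const]
      congr 1
      have hd : ∀ s ∈ uIcc 0 τ, HasDerivAt (fun s => -(Real.exp (-(m * s)) / m)) (Real.exp (-(m * s))) s := by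
        intro s _
        have h1 : HasDerivAt (fun s : ℝ => -(m * s)) (-m) s := by
          simpa using ((hasDerivAt_id' s).const_mul m).fun_neg
        refine ((h1.exp).div_const m).fun_neg.congr_deriv ?_
        field_simp
      rw [intervalIntegral.integral_eq_sub_of_hasDerivAt hd
        ((by fun_prop : Continuous fun s => Real.exp (-(m * s))).intervalIntegrable _ _)]
      simp
      ring
    rw [e2, smul_smul]
    congr 1
    rw [mul_div_assoc', mul_sub, mul_one, ← Real.exp_add]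
    congr 3
    rw [← h]; ring
  · rw [if_neg hk]
    unfold Duh Mo
    simp [hk]

end Pool.Agent.H356R3.NS
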