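import Pool.Agent.H3NY.R.Fix
import Pool.Agent.H3NY.R.Wave

namespace Pool.Agent.H356R3.NS
end Pool.Agent.H356R3.NS
namespace Pool.Agent.H356R3.NS.H3
end Pool.Agent.H356R3.NS.H3
namespace Pool.Agent.H356R3.NS.X
end Pool.Agent.H356R3.NS.X
namespace Pool.Agent.H3NS
end Pool.Agent.H3NS
namespace H459R3.NS
end H459R3.NS

open MeasureTheory Set Filter Topology
open scoped ENNReal NNReal

namespace Pool.Agent.H356R3.NS

lemma sym_pair (κ : K) (μ : ℝ) (s : ℂ) (l : K) :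
    SymF (Mo κ μ (s • cK l) + Mo (-κ) μ (star s • cK l)) := by
  intro t k i
  have e : at' (Mo κ μ (s • cK l) + Mo (-κ) μ (star s • cK l)) t
      = Sg κ (Real.exp (-(μ * max t 0)) • (s • cK l)) + Sg (-κ) (Real.exp (-(μ * max t 0)) • (star s • cK l)) := by
    rw [← at'_Mo, ← at'_Mo]; rfl
  rw [e]
  generalize Real.exp (-(μ * max t 0)) = E
  simp only [Pi.add_apply, Sg]
  have h1 : (-k = κ) ↔ (k = -κ) := by constructor <;> rintro h <;> rw [← neg_neg k, h] <;> simp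
  have h2 : (-k = -κ) ↔ (k = κ) := neg_inj
  by_cases ha : k = κ
  · by_cases hb : k = -κ
    · rw [if_pos (h1.2 hb), if_pos (h2.2 ha), if_pos ha, if_pos hb]
      simp [cK, add_comm]
    · rw [if_neg (fun h => hb (h1.1 h)), if_pos (h2.2 ha), if_pos ha, if_neg hb]
      simp [cK]
  · by_cases hb : k = -κ
    · rw [if_pos (h1.2 hb), if_neg (fun h => ha (h2.1 h)), if_neg ha, if_pos hb]
      simp [cK]
    · rw [if_neg (fun h => hb (h1.1 h)), if_neg (fun h => ha (h2.1 h)), if_neg ha, if_neg hb]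
      simp

lemma lint_e {σ : ℝ} (hσ : 0 < σ) :
    ∫⁻ t in Ioi 0, ENNReal.ofReal (Real.exp (-(σ * max t 0))) = ENNReal.ofReal (1 / σ) := by
  rw [← lint_exp hσ 0, setLIntegral_congr (Ioi_ae_eq_Ici (a := (0 : ℝ)))]
  refine setLIntegral_congr_fun measurableSet_Ici fun t ht => ?_
  rw [mem_Ici] at ht
  simp only [max_eq_left ht, sub_zero]

lemma LN_e {σ : ℝ} (hσ : 0 < σ) :
    LN (fun t => ENNReal.ofReal (Real.exp (-(σ * max t 0)))) = ENNReal.ofReal (Real.sqrt (1 / (2 * σ))) := by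
  unfold LN
  have e : ∀ t : ℝ, ENNReal.ofReal (Real.exp (-(σ * max t 0))) ^ (2 : ℝ)
      = ENNReal.ofReal (Real.exp (-((2 * σ) * max t 0))) := by
    intro t
    rw [ENNReal.rpow_two, ← ENNReal.ofReal_pow (Real.exp_pos _).le, ← Real.exp_nat_mul]
    congr 2; push_cast; ring
  simp only [e]
  rw [lint_e (by positivity), ENNReal.ofReal_rpow_of_nonneg (by positivity) (by norm_num),
    ← Real.sqrt_eq_rpow]

/-- The low mode to be added. -/
noncomputable def E0 (q cc : K) (γ : ℂ) : K → C3 := Sg q (γ • cK cc) + Sg (-q) (star γ • cK cc)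

/-- amplitude of the first wave -/
noncomputable def am (lm : ℝ) (N : ℕ) : ℂ := ((lm * N : ℝ) : ℂ)

/-- amplitude of the second wave -/
noncomputable def be (c : ℝ) (q η : K) (γ : ℂ) (lm : ℝ) (N : ℕ) : ℂ :=
  ((2 * c * N ^ 2 * sq η : ℝ) : ℂ) * γ / (2 * Real.pi * Complex.I * (ip q q : ℂ) * am lm N)

/-- The high frequency wave. -/
noncomputable def W0 (c : ℝ) (q cc η : K) (γ : ℂ) (lm : ℝ) (N : ℕ) : K → C3 :=
  Sg ((N : ℤ) • η) (am lm N • cK q) + Sg (-((N : ℤ) • η)) (am lm N • cK q)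
    + Sg ((N : ℤ) • η + q) (be c q η γ lm N • cK cc) + Sg (-((N : ℤ) • η + q)) (star (be c q η γ lm N) • cK cc)

lemma star_am (lm : ℝ) (N : ℕ) : star (am lm N) = am lm N := by
  unfold am; rw [Complex.star_def, Complex.conj_ofReal]

lemma norm_am {lm : ℝ} (hlm : 0 < lm) (N : ℕ) : ‖am lm N‖ = N * lm := by
  unfold am; rw [Complex.norm_real, Real.norm_of_nonneg (by positivity), mul_comm]

lemma ip_smul (n : ℤ) (k l : K) : ip (n • k) l = n * ip k l := by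
  unfold ip
  rw [Finset.mul_sum]
  exact Finset.sum_congr rfl fun i _ => by simp; ring

lemma ip_add_right (k l l' : K) : ip k (l + l') = ip k l + ip k l' := by
  rw [ip_comm, ip_add, ip_comm l, ip_comm l']

lemma ip_smul_right (n : ℤ) (k l : K) : ip k (n • l) = n * ip k l := by
  rw [ip_comm, ip_smul, ip_comm l]

structure Geo (q cc η : K) : Prop where
  hq : q ≠ 0
  hc : cc ≠ 0
  hη : η ≠ 0
  qc : ip q cc = 0
  ηq : ip η q = 0
  ηc : ip η cc = 0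

variable {q cc η : K}

lemma sq_k1 (N : ℕ) : sq ((N : ℤ) • η) = N ^ 2 * sq η := by
  rw [sq_eq_ip, sq_eq_ip, ip_smul, ip_comm, ip_smul]; push_cast; ring

lemma sq_k2 (hG : Geo q cc η) (N : ℕ) : sq ((N : ℤ) • η + q) = N ^ 2 * sq η + sq q := by
  rw [sq_eq_ip, sq_eq_ip, sq_eq_ip, ip_add, ip_add_right, ip_add_right, ip_smul, ip_smul_right,
    ip_smul, ip_smul_right, ip_comm q η, hG.ηq]
  push_cast; ring

lemma sq_k12 (hG : Geo q cc η) (N : ℕ) :
    sq ((N : ℤ) • η + ((N : ℤ) • η + q)) = 4 * (N ^ 2 * sq η) + sq q := by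
  have e : (N : ℤ) • η + ((N : ℤ) • η + q) = ((2 * N : ℕ) : ℤ) • η + q := by
    push_cast; rw [← add_assoc, ← two_smul ℤ, smul_smul]
  rw [e, sq_k2 hG]; push_cast; ring

lemma ne_zero_of_sq {k : K} (h : 0 < sq k) : k ≠ 0 := by
  rintro rfl; rw [sq_zero] at h; exact lt_irrefl _ h

/-- The data of the wave. -/
noncomputable def wF (c : ℝ) (q cc η : K) (γ : ℂ) (lm : ℝ) (N : ℕ) : Fam :=
  (Mo ((N : ℤ) • η) (c * sq ((N : ℤ) • η)) (am lm N • cK q)
    + Mo (-((N : ℤ) • η)) (c * sq ((N : ℤ) • η)) (am lm N • cK q))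
    + (Mo ((N : ℤ) • η + q) (c * sq ((N : ℤ) • η + q)) (be c q η γ lm N • cK cc)
    + Mo (-((N : ℤ) • η + q)) (c * sq ((N : ℤ) • η + q)) (star (be c q η γ lm N) • cK cc))

noncomputable def muF (c : ℝ) (q η : K) (N : ℕ) : ℝ :=
  c * sq ((N : ℤ) • η) + c * sq ((N : ℤ) • η + q)

noncomputable def IF (c : ℝ) (q cc η : K) (γ : ℂ) (N : ℕ) : Fam :=
  Mo q (muF c q η N) (γ • cK cc) + Mo (-q) (muF c q η N) (star γ • cK cc)

/-- pair of modes with coefficient `- m γ` -/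
noncomputable def pF (c : ℝ) (q cc η : K) (γ : ℂ) (N : ℕ) (κ : K) : Fam :=
  Mo κ (muF c q η N) ((-((2 * c * N ^ 2 * sq η : ℝ) : ℂ) * γ) • cK cc)
    + Mo (-κ) (muF c q η N) (star (-((2 * c * N ^ 2 * sq η : ℝ) : ℂ) * γ) • cK cc)

lemma smul_conv (e : ℝ) (s : ℂ) (l : K) : e • (s • cK l) = (((e : ℝ) : ℂ) * s) • cK l := by
  rw [← smul_smul]; rfl

lemma be_eq {c lm : ℝ} (hlm : 0 < lm) (hG : Geo q cc η) (γ : ℂ) {N : ℕ} (hN : 1 ≤ N) :
    2 * Real.pi * Complex.I * (am lm N * (ip q q : ℂ)) * be c q η γ lm N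
      = ((2 * c * N ^ 2 * sq η : ℝ) : ℂ) * γ := by
  unfold be
  have h1 : ((ip q q : ℤ) : ℂ) ≠ 0 := by
    have : ((ip q q : ℤ) : ℝ) ≠ 0 := by rw [← sq_eq_ip]; exact (sq_pos hG.hq).ne'
    exact_mod_cast this
  have h2 : am lm N ≠ 0 := by
    have : (0 : ℝ) < N := by exact_mod_cast hN
    unfold am; exact_mod_cast (by positivity : lm * (N : ℝ) ≠ 0)
  have h3 : (Real.pi : ℂ) ≠ 0 := by exact_mod_cast Real.pi_ne_zero
  have h4 := Complex.I_ne_zero
  field_simp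

lemma BwF {c lm : ℝ} (hlm : 0 < lm) (hG : Geo q cc η) (γ : ℂ) {N : ℕ} (hN : 1 ≤ N) (t : ℝ) :
    Bf (at' (wF c q cc η γ lm N) t) (at' (wF c q cc η γ lm N) t)
      = at' (pF c q cc η γ N q) t + at' (pF c q cc η γ N ((N : ℤ) • η + ((N : ℤ) • η + q))) t := by
  set k1 := (N : ℤ) • η with hk1
  set τ := max t 0
  set e1 := Real.exp (-(c * sq k1 * τ))
  set e2 := Real.exp (-(c * sq (k1 + q) * τ))
  set b := be c q η γ lm N
  have hw : at' (wF c q cc η γ lm N) t = Sg k1 (((e1 : ℂ) * am lm N) • cK q) + Sg (-k1) (((e1 : ℂ) * am lm N) • cK q)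
      + Sg (k1 + q) (((e2 : ℂ) * b) • cK cc) + Sg (-(k1 + q)) (((e2 : ℂ) * star b) • cK cc) := by
    have : at' (wF c q cc η γ lm N) t = (at' (Mo k1 (c * sq k1) (am lm N • cK q)) t
        + at' (Mo (-k1) (c * sq k1) (am lm N • cK q)) t)
        + (at' (Mo (k1 + q) (c * sq (k1 + q)) (b • cK cc)) t
        + at' (Mo (-(k1 + q)) (c * sq (k1 + q)) (star b • cK cc)) t) := rfl
    rw [this]
    simp only [at'_Mo, smul_conv]
    rw [add_assoc (Sg k1 _ + Sg (-k1) _)]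
  have h1q : ip k1 q = 0 := by rw [hk1, ip_smul, hG.ηq, mul_zero]
  have h1c : ip k1 cc = 0 := by rw [hk1, ip_smul, hG.ηc, mul_zero]
  rw [BW (k2 := k1 + q) rfl h1q h1c hG.qc _ _ _ _ _ hw]
  have hμ : Real.exp (-(muF c q η N * τ)) = e1 * e2 := by
    simp only [e1, e2, muF, ← hk1]
    rw [← Real.exp_add]; congr 1; ring
  have hb := be_eq (c := c) hlm hG γ hN
  have hb' : 2 * Real.pi * Complex.I * (am lm N * (ip q q : ℂ)) * star b
      = star (-((2 * c * N ^ 2 * sq η : ℝ) : ℂ) * γ) := by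
    have := congrArg star hb
    simp only [star_mul', Complex.star_def, map_ofNat, Complex.conj_ofReal, Complex.conj_I] at this ⊢
    rw [map_neg, neg_mul, Complex.conj_ofReal, ← this]
    have e3 : (starRingEnd ℂ) (am lm N) = am lm N := star_am lm N
    have e4 : (starRingEnd ℂ) ((ip q q : ℤ) : ℂ) = ((ip q q : ℤ) : ℂ) := by simp
    rw [e3, e4]
    ring
  have hp : ∀ κ, at' (pF c q cc η γ N κ) t =
      Sg κ ((((e1 * e2 : ℝ) : ℂ) * (-((2 * c * N ^ 2 * sq η : ℝ) : ℂ) * γ)) • cK cc)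
      + Sg (-κ) ((((e1 * e2 : ℝ) : ℂ) * star (-((2 * c * N ^ 2 * sq η : ℝ) : ℂ) * γ)) • cK cc) := by
    intro κ
    have : at' (pF c q cc η γ N κ) t = at' (Mo κ (muF c q η N) ((-((2 * c * N ^ 2 * sq η : ℝ) : ℂ) * γ) • cK cc)) t
      + at' (Mo (-κ) (muF c q η N) (star (-((2 * c * N ^ 2 * sq η : ℝ) : ℂ) * γ) • cK cc)) t := rfl
    rw [this, at'_Mo, at'_Mo, hμ, smul_conv, smul_conv]
  rw [hp, hp]
  have x1 : -(2 * Real.pi * Complex.I) * ((e1 : ℂ) * am lm N * (ip q q : ℂ)) * ((e2 : ℂ) * b)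
      = ((e1 * e2 : ℝ) : ℂ) * (-((2 * c * N ^ 2 * sq η : ℝ) : ℂ) * γ) := by
    rw [neg_mul (((2 * c * N ^ 2 * sq η : ℝ) : ℂ)), ← hb]
    push_cast; ring
  have x2 : 2 * Real.pi * Complex.I * ((e1 : ℂ) * am lm N * (ip q q : ℂ)) * ((e2 : ℂ) * star b)
      = ((e1 * e2 : ℝ) : ℂ) * star (-((2 * c * N ^ 2 * sq η : ℝ) : ℂ) * γ) := by
    rw [← hb']
    push_cast; ring
  rw [x1, x2]
  abel

end Pool.Agent.H356R3.NS
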