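import Pool.Agent.H3NY.R.Contr
import Pool.Agent.H3NY.R.Step

namespace Pool.Agent.H356R3.NS
end Pool.Agent.H356R3.NS
namespace Pool.Agent.H356R3.NS.H3
end Pool.Agent.H356R3.NS.H3
namespace Pool.Agent.H356R3.NS.X
end Pool.Agent.H356R3.NS.X
namespace Pool.Agent.H3NS
end Pool.Agent.H3NS
namespace H459R3.NS
end H459R3.NS

open MeasureTheory Set Filter Topology
open scoped ENNReal NNReal

namespace Pool.Agent.H356R3.NS

/-- weighted domination -/
def WDom (a : ℝ) (u : Fam) : Prop :=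
  ∃ b : K → ℝ, Summable (fun k => om a k * b k) ∧ ∀ k t, ‖u k t‖ ≤ b k

lemma WDom.add {a : ℝ} {u v : Fam} (hu : WDom a u) (hv : WDom a v) : WDom a (u + v) := by
  obtain ⟨b, hb, h⟩ := hu
  obtain ⟨b', hb', h'⟩ := hv
  refine ⟨fun k => b k + b' k, ?_, fun k t => (norm_add_le _ _).trans (add_le_add (h k t) (h' k t))⟩
  simp only [mul_add]
  exact hb.add hb'

lemma WDom.mono {a a' : ℝ} (haa : a' ≤ a) {u : Fam} (hu : WDom a u) : WDom a' u := by
  obtain ⟨b, hb, h⟩ := hu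
  have hb0 : ∀ k, 0 ≤ b k := fun k => (norm_nonneg _).trans (h k 0)
  exact ⟨b, hb.of_nonneg_of_le (fun k => mul_nonneg (om_pos _ _).le (hb0 k))
    fun k => mul_le_mul_of_nonneg_right (om_mono haa k) (hb0 k), h⟩

lemma WDom.dom {a : ℝ} (ha : 0 ≤ a) {u : Fam} (hu : WDom a u) : Dom u := by
  obtain ⟨b, hb, h⟩ := hu
  have hb0 : ∀ k, 0 ≤ b k := fun k => (norm_nonneg _).trans (h k 0)
  refine ⟨b, hb.of_nonneg_of_le hb0 fun k => ?_, h⟩
  calc b k = 1 * b k := (one_mul _).symm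
    _ ≤ _ := mul_le_mul_of_nonneg_right (one_le_om ha k) (hb0 k)

variable {q cc η : K}

lemma w_init (c : ℝ) (γ : ℂ) (lm : ℝ) (N : ℕ) (k : K) (t : ℝ) :
    wF c q cc η γ lm N k t = Real.exp (-(c * sq k * max t 0)) • W0 c q cc η γ lm N k := by
  have h : ∀ (κ : K) (v : C3) (s : ℝ), s = sq κ → Mo κ (c * s) v k t
      = Real.exp (-(c * sq k * max t 0)) • Sg κ v k := by
    rintro κ v s rfl
    unfold Mo Sg
    by_cases hk : k = κ
    · subst hk; simp
    · simp [hk]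
  have e : wF c q cc η γ lm N k t = (Mo ((N : ℤ) • η) (c * sq ((N : ℤ) • η)) (am lm N • cK q) k t
    + Mo (-((N : ℤ) • η)) (c * sq ((N : ℤ) • η)) (am lm N • cK q) k t)
    + (Mo ((N : ℤ) • η + q) (c * sq ((N : ℤ) • η + q)) (be c q η γ lm N • cK cc) k t
    + Mo (-((N : ℤ) • η + q)) (c * sq ((N : ℤ) • η + q)) (star (be c q η γ lm N) • cK cc) k t) := rfl
  rw [e, h _ _ _ rfl, h _ _ _ (sq_neg _).symm, h _ _ _ rfl, h _ _ _ (sq_neg _).symm, ← smul_add,
    ← smul_add, ← smul_add]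
  unfold W0
  simp only [Pi.add_apply]
  congr 1
  abel

lemma mu_sub (c : ℝ) (hG : Geo q cc η) (N : ℕ) : muF c q η N - c * sq q = 2 * c * N ^ 2 * sq η := by
  unfold muF
  rw [sq_k1, sq_k2 hG]; ring

lemma I_mode {c μ m : ℝ} {κ : K} (hm : m ≠ 0) (h : μ - c * sq κ = m) (s s' : ℂ) (hs : s' = -(m : ℂ) * s)
    (l : K) (k : K) (t : ℝ) :
    Mo κ μ (s • cK l) k t - Duh c (Mo κ μ (s' • cK l)) k t
      = Real.exp (-(c * sq k * max t 0)) • Sg κ (s • cK l) k := by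
  rw [Duh_Mo _ hm h]
  unfold Mo Sg
  by_cases hk : k = κ
  · subst hk
    simp only [if_true]
    rw [hs]
    generalize Real.exp (-(μ * max t 0)) = E1
    generalize Real.exp (-(c * sq k * max t 0)) = E2
    funext i
    simp only [Pi.sub_apply, Pi.smul_apply, smul_eq_mul, Complex.real_smul]
    have hm' : (m : ℂ) ≠ 0 := by exact_mod_cast hm
    push_cast
    field_simp
    ring
  · simp [hk]

lemma I_init {c : ℝ} (hc : 0 < c) (hG : Geo q cc η) (γ : ℂ) {N : ℕ} (hN : 1 ≤ N) (k : K) (t : ℝ) :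
    IF c q cc η γ N k t - Duh c (pF c q cc η γ N q) k t
      = Real.exp (-(c * sq k * max t 0)) • E0 q cc γ k := by
  have hsη := sq_pos hG.hη
  have hN' : (0 : ℝ) < N := by exact_mod_cast hN
  have hm : (2 * c * N ^ 2 * sq η : ℝ) ≠ 0 := by positivity
  unfold pF IF
  rw [Duh_add (Mo_cf _ _ _) (Mo_cf _ _ _)]
  unfold E0
  simp only [Pi.add_apply, smul_add]
  rw [← I_mode hm (mu_sub c hG N) γ _ rfl cc k t,
    ← I_mode (κ := -q) hm (by rw [sq_neg]; exact mu_sub c hG N) (star γ) _ (by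
      simp only [star_mul', star_neg, Complex.star_def, Complex.conj_ofReal]; rfl) cc k t]
  simp only [star_mul', star_neg, Complex.star_def, Complex.conj_ofReal]
  abel

lemma norm_be {c lm : ℝ} (hc : 0 < c) (hlm : 0 < lm) (hG : Geo q cc η) (γ : ℂ) {N : ℕ} (hN : 1 ≤ N) :
    ‖be c q η γ lm N‖ = N * (c * sq η * ‖γ‖ / (Real.pi * sq q * lm)) := by
  have hN' : (0 : ℝ) < N := by exact_mod_cast hN
  have hpi := Real.pi_pos
  have hq := sq_pos hG.hq
  have hη := sq_pos hG.hη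
  unfold be
  have e1 : ‖((ip q q : ℤ) : ℂ)‖ = sq q := by
    rw [Complex.norm_intCast, ← sq_eq_ip, abs_of_pos hq]
  rw [norm_div, norm_mul, norm_mul, norm_mul, norm_mul, norm_mul, e1, Complex.norm_real,
    Complex.norm_real, Complex.norm_I, norm_am hlm, Real.norm_of_nonneg (by positivity),
    Real.norm_of_nonneg hpi.le]
  simp only [Complex.norm_ofNat]
  field_simp

lemma NW_pair_le (W : K → ℝ≥0∞) {κ : K} {μ σ X wm : ℝ} (h : σ ≤ μ) (v v' : C3) (t : ℝ)
    (hv : ‖v‖ ≤ X) (hv' : ‖v'‖ ≤ X) (hw : 0 ≤ wm) (hW : W κ ≤ ENNReal.ofReal wm)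
    (hW' : W (-κ) ≤ ENNReal.ofReal wm) :
    NW W (at' (Mo κ μ v + Mo (-κ) μ v') t)
      ≤ ENNReal.ofReal (2 * wm * X * Real.exp (-(σ * max t 0))) := by
  have hX : 0 ≤ X := (norm_nonneg _).trans hv
  have e : at' (Mo κ μ v + Mo (-κ) μ v') t = at' (Mo κ μ v) t + at' (Mo (-κ) μ v') t := rfl
  rw [e]
  refine (NW_add_le _ _ _).trans ?_
  have h1 : ∀ (κ' : K) (v : C3), ‖v‖ ≤ X → W κ' ≤ ENNReal.ofReal wm → NW W (at' (Mo κ' μ v) t) ≤
      ENNReal.ofReal (wm * X * Real.exp (-(σ * max t 0))) := by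
    intro κ' v hv hW
    refine (NW_Mo_le W κ' h v t).trans ((mul_le_mul' hW le_rfl).trans ?_)
    rw [← ENNReal.ofReal_mul hw]
    apply ENNReal.ofReal_le_ofReal
    rw [mul_assoc]
    apply mul_le_mul_of_nonneg_left _ hw
    exact mul_le_mul_of_nonneg_right hv (Real.exp_pos _).le
  refine (add_le_add (h1 _ _ hv hW) (h1 _ _ hv' hW')).trans ?_
  rw [← ENNReal.ofReal_add (by positivity) (by positivity)]
  apply ENNReal.ofReal_le_ofReal
  apply le_of_eq; ring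

lemma Wa_le_two {a T : ℝ} (hT : 0 < T) (ha0 : 0 ≤ a) (ha : a ≤ Real.log 2 / T) {κ : K} (hκ : l1 κ ≤ T) :
    om a κ ≤ 2 := by
  unfold om
  calc Real.exp (a * l1 κ) ≤ Real.exp (Real.log 2) := by
        apply Real.exp_le_exp.2
        calc a * l1 κ ≤ a * T := mul_le_mul_of_nonneg_left hκ ha0
          _ ≤ Real.log 2 / T * T := mul_le_mul_of_nonneg_right ha hT.le
          _ = Real.log 2 := div_mul_cancel₀ _ hT.ne'
    _ = 2 := Real.exp_log (by norm_num)

/-- the norm in `L²((δ, ∞); ℓ¹)` -/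
noncomputable def LNd (δ : ℝ) (x : Fam) : ℝ≥0∞ :=
  LN (fun t => (Ioi δ).indicator (fun t => NW (Wa 0) (at' x t)) t)

lemma LNd_add {δ : ℝ} {x y : Fam} (hx : CF x) (hy : CF y) : LNd δ (x + y) ≤ LNd δ x + LNd δ y := by
  unfold LNd
  have mi : ∀ {x : Fam}, CF x → Measurable fun t => (Ioi δ).indicator (fun t => NW (Wa 0) (at' x t)) t :=
    fun hx => (NW_meas _ hx).indicator measurableSet_Ioi
  refine (LN_mono fun t _ => ?_).trans (LN_add_le (mi hx) (mi hy))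
  by_cases htd : t ∈ Ioi δ
  · rw [indicator_of_mem htd, indicator_of_mem htd, indicator_of_mem htd]
    exact NW_add_le _ _ _
  · rw [indicator_of_notMem htd]; exact zero_le

lemma LNd_le_LN (δ : ℝ) (x : Fam) : LNd δ x ≤ LN (fun t => NW (Wa 0) (at' x t)) :=
  LN_mono fun t _ => indicator_le_self _ _ t

lemma LNd_exp {x : Fam} {B σ δ : ℝ} (hB : 0 ≤ B) (hσ : 0 < σ)
    (h : ∀ t, NW (Wa 0) (at' x t) ≤ ENNReal.ofReal (B * Real.exp (-(σ * max t 0)))) :
    LNd δ x ≤ ENNReal.ofReal (B * Real.exp (-(σ / 2 * δ)) * Real.sqrt (1 / σ)) := by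
  unfold LNd
  have h1 : ∀ t, 0 < t → (Ioi δ).indicator (fun t => NW (Wa 0) (at' x t)) t ≤
      ENNReal.ofReal (B * Real.exp (-(σ / 2 * δ))) * ENNReal.ofReal (Real.exp (-(σ / 2 * max t 0))) := by
    intro t _
    by_cases htd : t ∈ Ioi δ
    · rw [indicator_of_mem htd, ← ENNReal.ofReal_mul (by positivity)]
      refine (h t).trans (ENNReal.ofReal_le_ofReal ?_)
      rw [mul_assoc, ← Real.exp_add]
      apply mul_le_mul_of_nonneg_left _ hB
      apply Real.exp_le_exp.2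
      have : δ ≤ max t 0 := (le_of_lt htd).trans (le_max_left _ _)
      nlinarith
    · rw [indicator_of_notMem htd]; exact zero_le
  refine (LN_mono h1).trans ?_
  rw [LN_const_mul _ (by fun_prop), LN_e (half_pos hσ), ← ENNReal.ofReal_mul (by positivity)]
  apply ENNReal.ofReal_le_ofReal
  have : 2 * (σ / 2) = σ := by ring
  rw [this]

lemma num_small {c δ ee Cx N : ℝ} (hc : 0 < c) (hδ : 0 < δ) (hC : 0 ≤ Cx) (hN : 1 ≤ N) (hee : 0 < ee)
    (h : Cx / Real.sqrt c * (2 / (c * δ)) / (ee / 2) ≤ N) :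
    Cx * N * Real.exp (-(c * N ^ 2 / 2 * δ)) * Real.sqrt (1 / (c * N ^ 2)) ≤ ee / 2 := by
  have hsc := Real.sqrt_pos.2 hc
  have hNp : 0 < N := by linarith
  have h2 : Real.sqrt (1 / (c * N ^ 2)) = 1 / (Real.sqrt c * N) := by
    have : 1 / (c * N ^ 2) = (1 / (Real.sqrt c * N)) ^ 2 := by
      rw [div_pow, mul_pow, Real.sq_sqrt hc.le]
      field_simp
    rw [this, Real.sqrt_sq (by positivity)]
  have h3 : Real.exp (-(c * N ^ 2 / 2 * δ)) ≤ 2 / (c * δ) / N := by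
    have h4 : c * N ^ 2 / 2 * δ ≤ Real.exp (c * N ^ 2 / 2 * δ) := by
      have := Real.add_one_le_exp (c * N ^ 2 / 2 * δ); linarith
    rw [Real.exp_neg, inv_le_comm₀ (Real.exp_pos _) (by positivity)]
    refine le_trans ?_ h4
    rw [inv_div, div_div_eq_mul_div]
    have : N ≤ N ^ 2 := by nlinarith
    have hcd : 0 < c * δ := by positivity
    nlinarith [mul_le_mul_of_nonneg_left this hcd.le]
  rw [h2]
  have h5 : Cx / Real.sqrt c * (2 / (c * δ)) ≤ N * (ee / 2) := by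
    rwa [div_le_iff₀ (by positivity)] at h
  calc Cx * N * Real.exp (-(c * N ^ 2 / 2 * δ)) * (1 / (Real.sqrt c * N))
      ≤ Cx * N * (2 / (c * δ) / N) * (1 / (Real.sqrt c * N)) := by gcongr
    _ = Cx / Real.sqrt c * (2 / (c * δ)) / N := by field_simp
    _ ≤ ee / 2 := by
        rw [div_le_iff₀ hNp]; linarith

lemma LN_le_LF {D Lam a b : ℝ} (hL : 0 ≤ Lam) (hD : 0 ≤ D) {A : ℝ → ℝ} (hA : Continuous A)
    (hA0 : ∀ t, 0 ≤ A t) (hAi : LN (fun t => ENNReal.ofReal (A t)) ≤ ENNReal.ofReal D) (hb : b ≤ a)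
    {r : Fam} (hr : CF r) : LN (fun t => NW (Wa b) (at' r t)) ≤
      ENNReal.ofReal (Real.exp (Lam * D ^ 2)) * LF (gw Lam A) a r := by
  have hg : Monotone (gw Lam A) := gw_mono hL hA
  unfold LF
  have hgm : Measurable fun t => ENNReal.ofReal (Real.exp (-gw Lam A t)) :=
    ENNReal.measurable_ofReal.comp (Real.measurable_exp.comp hg.measurable.neg)
  have mm : Measurable fun t => ENNReal.ofReal (Real.exp (-gw Lam A t)) * NW (Wa a) (at' r t) :=
    hgm.mul (NW_meas _ hr)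
  rw [← LN_const_mul _ mm]
  refine LN_mono fun t ht => ?_
  rw [← mul_assoc, ← ENNReal.ofReal_mul (Real.exp_pos _).le, ← Real.exp_add]
  calc NW (Wa b) (at' r t) ≤ 1 * NW (Wa a) (at' r t) := by
        rw [one_mul]; exact NW_mono (fun k => Wa_mono hb k) _
    _ ≤ _ := by
        apply mul_le_mul' _ le_rfl
        rw [ENNReal.one_le_ofReal]
        apply Real.one_le_exp
        have := gw_le hL hA hA0 hD hAi ht.le
        linarith

lemma Par.mono {c D Lam ρ ρ' : ℝ} (h : Par c D Lam ρ) (h0 : 0 < ρ') (hle : ρ' ≤ ρ) : Par c D Lam ρ' :=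
  ⟨h.hc, h.hD, h.hL, h0, h.h1,
    (mul_le_mul_of_nonneg_left (by linarith) (Real.exp_pos _).le).trans h.h2,
    (mul_le_mul_of_nonneg_left (by linarith) (Real.exp_pos _).le).trans h.h3⟩

end Pool.Agent.H356R3.NS
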