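import Pool.Agent.H3NY.R.Crit
import Pool.Agent.H3NY.R.Step2

namespace Pool.Agent.H356R3.NS
end Pool.Agent.H356R3.NS
namespace Pool.Agent.H356R3.NS.H3
end Pool.Agent.H356R3.NS.H3
namespace Pool.Agent.H356R3.NS.X
end Pool.Agent.H356R3.NS.X
namespace Pool.Agent.H3NS
end Pool.Agent.H3NS
namespace H459R3.NS
end H459R3.NS

open MeasureTheory Set Filter Topology
open scoped ENNReal NNReal

namespace Pool.Agent.H356R3.NS

variable {q cc η : K}

lemma nk_pos' {k : K} (h : k ≠ 0) : 0 < nk k := by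
  unfold nk; exact Real.sqrt_pos.2 (sq_pos h)

lemma nk_sq' (k : K) : nk k ^ 2 = sq k := by
  unfold nk; exact Real.sq_sqrt (sq_nonneg' k)

lemma W0_critE {c t : ℝ} (hc : 0 < c) (ht : 0 < t) (hG : Geo q cc η) (γ : ℂ) {r : ℝ} (hr : 1 ≤ r)
    {N : ℕ} (hN : 1 ≤ N) : crit r (W0 c q cc η γ (nk η * t) N) ≤
      ENNReal.ofReal ((4 * (t * ‖cK q‖ + c * ‖γ‖ / (Real.pi * sq q * t) * ‖cK cc‖)) ^ r) := by
  have hnη : 0 < nk η := nk_pos' hG.hη
  set lm := nk η * t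
  have hlm : 0 < lm := mul_pos hnη ht
  set B0 := c * sq η * ‖γ‖ / (Real.pi * sq q * lm)
  have hQ := sq_pos hG.hq
  have hsη := sq_pos hG.hη
  have hpi := Real.pi_pos
  have hB0 : 0 ≤ B0 := by positivity
  have hNr : (1 : ℝ) ≤ N := by exact_mod_cast hN
  have hNp : (0 : ℝ) < N := by linarith
  have hB0' : B0 / nk η = c * ‖γ‖ / (Real.pi * sq q * t) := by
    simp only [B0, lm]
    rw [← nk_sq' η]
    field_simp
  have s1 : (N * nk η : ℝ) ^ 2 ≤ sq ((N : ℤ) • η) := by rw [sq_k1, mul_pow, nk_sq']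
  have s2 : (N * nk η : ℝ) ^ 2 ≤ sq ((N : ℤ) • η + q) := by
    rw [sq_k2 hG, mul_pow, nk_sq']; linarith
  have hw : ∀ {κ : K}, (N * nk η : ℝ) ^ 2 ≤ sq κ →
      ENNReal.ofReal (1 / nk κ) ≤ ENNReal.ofReal (1 / (N * nk η)) := by
    intro κ hκ
    apply ENNReal.ofReal_le_ofReal
    apply one_div_le_one_div_of_le (by positivity)
    exact Real.le_sqrt_of_sq_le hκ
  have hterm : ∀ {κ : K} {v : C3} {X : ℝ}, (N * nk η : ℝ) ^ 2 ≤ sq κ → ‖v‖ ≤ X →
      NW (fun k => ENNReal.ofReal (1 / nk k)) (Sg κ v) ≤ ENNReal.ofReal (1 / (N * nk η) * X) := by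
    intro κ v X h1 h2
    rw [NW_Sg, ENNReal.ofReal_mul (by positivity)]
    apply mul_le_mul' (hw h1)
    rw [← ofReal_norm]; exact ENNReal.ofReal_le_ofReal h2
  have hbe : ‖be c q η γ lm N‖ = N * B0 := norm_be hc hlm hG γ hN
  have nv : ‖am lm N • cK q‖ ≤ N * (lm * ‖cK q‖) := by rw [norm_smul, norm_am hlm, mul_assoc]
  have nb : ‖be c q η γ lm N • cK cc‖ ≤ N * (B0 * ‖cK cc‖) := by rw [norm_smul, hbe, mul_assoc]
  have nb' : ‖star (be c q η γ lm N) • cK cc‖ ≤ N * (B0 * ‖cK cc‖) := by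
    rw [norm_smul, norm_star, hbe, mul_assoc]
  have key : NW (fun k => ENNReal.ofReal (1 / nk k)) (W0 c q cc η γ lm N)
      ≤ ENNReal.ofReal (2 * (t * ‖cK q‖ + B0 / nk η * ‖cK cc‖)) := by
    unfold W0
    calc _ ≤ ENNReal.ofReal (1 / (N * nk η) * (N * (lm * ‖cK q‖)))
          + ENNReal.ofReal (1 / (N * nk η) * (N * (lm * ‖cK q‖)))
          + ENNReal.ofReal (1 / (N * nk η) * (N * (B0 * ‖cK cc‖)))
          + ENNReal.ofReal (1 / (N * nk η) * (N * (B0 * ‖cK cc‖))) := by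
          refine (NW_add_le _ _ _).trans (add_le_add ((NW_add_le _ _ _).trans (add_le_add
            ((NW_add_le _ _ _).trans (add_le_add ?_ ?_)) ?_)) ?_)
          · exact hterm s1 nv
          · exact hterm (by rw [sq_neg]; exact s1) nv
          · exact hterm s2 nb
          · exact hterm (by rw [sq_neg]; exact s2) nb'
      _ = _ := by
          rw [← ENNReal.ofReal_add (by positivity) (by positivity),
            ← ENNReal.ofReal_add (by positivity) (by positivity),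
            ← ENNReal.ofReal_add (by positivity) (by positivity)]
          congr 1
          simp only [lm]
          field_simp
          ring
  rw [hB0'] at key
  refine (crit_le hr _).trans ?_
  rw [← ENNReal.ofReal_rpow_of_nonneg (by positivity) (by linarith)]
  refine ENNReal.rpow_le_rpow ?_ (by linarith)
  calc 2 * ∑' k, ENNReal.ofReal (1 / nk k) * ‖W0 c q cc η γ lm N k‖ₑ
      ≤ 2 * ENNReal.ofReal (2 * (t * ‖cK q‖ + c * ‖γ‖ / (Real.pi * sq q * t) * ‖cK cc‖)) :=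
        mul_le_mul' le_rfl key
    _ = _ := by
        rw [show (2 : ℝ≥0∞) = ENNReal.ofReal 2 by simp, ← ENNReal.ofReal_mul (by norm_num)]
        congr 1; ring

lemma coef_le {l : K} (hl : l ≠ 0) {v : C3} {g : ℂ} (h : dt l v = g * (ip l l : ℂ)) :
    ‖g‖ * ‖cK l‖ ≤ 2 * ‖v‖ := by
  have hs := sq_pos hl
  have h1 : ‖dt l v‖ ≤ (∑ i, |(l i : ℝ)|) * ‖v‖ := by
    unfold dt
    refine (norm_sum_le _ _).trans ?_
    rw [Finset.sum_mul]
    refine Finset.sum_le_sum fun i _ => ?_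
    rw [norm_mul, Complex.norm_intCast]
    exact mul_le_mul_of_nonneg_left (norm_le_pi_norm v i) (abs_nonneg _)
  have h2 : ‖dt l v‖ = ‖g‖ * sq l := by
    rw [h, norm_mul, Complex.norm_intCast, ← sq_eq_ip, abs_of_pos hs]
  have hS : 0 ≤ ∑ i, |(l i : ℝ)| := Finset.sum_nonneg fun i _ => abs_nonneg _
  have h3 : ‖cK l‖ * ∑ i, |(l i : ℝ)| ≤ 2 * sq l := by
    rcases hS.eq_or_lt with h0 | h0
    · rw [← h0, mul_zero]; positivity
    rw [← le_div_iff₀ h0, pi_norm_le_iff_of_nonneg (by positivity)]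
    intro i
    rw [le_div_iff₀ h0]
    unfold cK sq
    rw [Complex.norm_intCast, Fin.sum_univ_three, Fin.sum_univ_three]
    have hi : |(l i : ℝ)| = |(l 0 : ℝ)| ∨ |(l i : ℝ)| = |(l 1 : ℝ)| ∨ |(l i : ℝ)| = |(l 2 : ℝ)| := by
      fin_cases i <;> simp
    have q0 := sq_abs (l 0 : ℝ)
    have q1 := sq_abs (l 1 : ℝ)
    have q2 := sq_abs (l 2 : ℝ)
    rw [← q0, ← q1, ← q2]
    generalize |(l 0 : ℝ)| = x at *
    generalize |(l 1 : ℝ)| = y at *
    generalize |(l 2 : ℝ)| = z at *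
    generalize |(l i : ℝ)| = w at *
    rcases hi with rfl | rfl | rfl
    · nlinarith [sq_nonneg (w - y), sq_nonneg (w - z), sq_nonneg y, sq_nonneg z]
    · nlinarith [sq_nonneg (w - x), sq_nonneg (w - z), sq_nonneg x, sq_nonneg z]
    · nlinarith [sq_nonneg (w - y), sq_nonneg (w - x), sq_nonneg y, sq_nonneg x]
  have h4 : ‖g‖ * ‖cK l‖ * sq l ≤ 2 * ‖v‖ * sq l := by
    calc ‖g‖ * ‖cK l‖ * sq l = ‖cK l‖ * ‖dt l v‖ := by rw [h2]; ring
      _ ≤ ‖cK l‖ * ((∑ i, |(l i : ℝ)|) * ‖v‖) := mul_le_mul_of_nonneg_left h1 (norm_nonneg _)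
      _ = (‖cK l‖ * ∑ i, |(l i : ℝ)|) * ‖v‖ := by ring
      _ ≤ (2 * sq l) * ‖v‖ := mul_le_mul_of_nonneg_right h3 (norm_nonneg _)
      _ = _ := by ring
  exact le_of_mul_le_mul_right h4 hs

end Pool.Agent.H356R3.NS
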