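import Pool.Agent.H3NY.R.Basic2

namespace Pool.Agent.H356R3.NS
end Pool.Agent.H356R3.NS
namespace Pool.Agent.H356R3.NS.H3
end Pool.Agent.H356R3.NS.H3
namespace Pool.Agent.H356R3.NS.X
end Pool.Agent.H356R3.NS.X
namespace Pool.Agent.H3NS
end Pool.Agent.H3NS
namespace H459R3.NS
end H459R3.NS

open MeasureTheory Set Filter Topology
open scoped ENNReal NNReal

namespace Pool.Agent.H356R3.NS

lemma dt_smul' (k : K) (s : ℂ) (v : C3) : dt k (s • v) = s * dt k v := by
  unfold dt
  rw [Finset.mul_sum]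
  exact Finset.sum_congr rfl fun i _ => by simp; ring

end Pool.Agent.H356R3.NS
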