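import Pool.Agent.H3NY.R.Basic2

namespace Pool.Agent.H356R3.NS
end Pool.Agent.H356R3.NS
namespace Pool.Agent.H356R3.NS.H3
end Pool.Agent.H356R3.NS.H3
namespace Pool.Agent.H356R3.NS.X
end Pool.Agent.H356R3.NS.X
namespace Pool.Agent.H3NS
end Pool.Agent.H3NS
namespace H459R3.NS
end H459R3.NS

open MeasureTheory Set Filter Topology
open scoped ENNReal NNReal

namespace Pool.Agent.H356R3.NS

/-- Families of functions of time. -/
abbrev Fam := K → ℝ → C3

/-- The value of a family at time `t`. -/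
def at' (x : Fam) (t : ℝ) : K → C3 := fun k => x k t

/-- The Duhamel operator. -/
noncomputable def Duh (c : ℝ) (F : Fam) : Fam := fun k t =>
  ∫ s in (0 : ℝ)..(max t 0), Real.exp (-(c * sq k * (max t 0 - s))) • F k s

/-- continuity of all components -/
def CF (F : Fam) : Prop := ∀ k, Continuous (F k)

lemma Duh_eq (c : ℝ) (F : Fam) (k : K) (t : ℝ) : Duh c F k t =
    Real.exp (-(c * sq k * max t 0)) • ∫ s in (0 : ℝ)..(max t 0), Real.exp (c * sq k * s) • F k s := by
  unfold Duh
  rw [← intervalIntegral.integral_smul]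
  refine intervalIntegral.integral_congr fun s _ => ?_
  simp only [smul_smul, ← Real.exp_add]
  congr 2
  ring

lemma cont_inner {F : Fam} (hF : CF F) (c : ℝ) (k : K) :
    Continuous fun s => Real.exp (c * sq k * s) • F k s := by
  have := hF k
  fun_prop

lemma Duh_cont {F : Fam} (hF : CF F) (c : ℝ) : CF (Duh c F) := by
  intro k
  have e : Duh c F k = fun t => Real.exp (-(c * sq k * max t 0)) •
      (fun u => ∫ s in (0 : ℝ)..u, Real.exp (c * sq k * s) • F k s) (max t 0) := by
    funext t; exact Duh_eq c F k t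
  rw [e]
  have h1 : Continuous (fun u => ∫ s in (0 : ℝ)..u, Real.exp (c * sq k * s) • F k s) :=
    intervalIntegral.continuous_primitive
      (fun a b => (cont_inner hF c k).intervalIntegrable a b) 0
  have h2 : Continuous fun t : ℝ => max t 0 := by fun_prop
  exact (by fun_prop : Continuous fun t : ℝ => Real.exp (-(c * sq k * max t 0))).smul (h1.comp h2)

lemma Duh_max (c : ℝ) (F : Fam) (k : K) (t : ℝ) : Duh c F k (max t 0) = Duh c F k t := by
  unfold Duh; simp

lemma Duh_at_zero (c : ℝ) (F : Fam) (k : K) : Duh c F k 0 = 0 := by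
  unfold Duh; simp

lemma Duh_hasDeriv {F : Fam} (hF : CF F) (c : ℝ) (k : K) {t : ℝ} (ht : 0 < t) :
    HasDerivAt (Duh c F k) (-(c * sq k) • Duh c F k t + F k t) t := by
  have h1 : HasDerivAt (fun u => ∫ s in (0 : ℝ)..u, Real.exp (c * sq k * s) • F k s)
      (Real.exp (c * sq k * t) • F k t) t :=
    intervalIntegral.integral_hasDerivAt_right
      ((cont_inner hF c k).intervalIntegrable _ _)
      (cont_inner hF c k).aestronglyMeasurable.stronglyMeasurableAtFilter
      (cont_inner hF c k).continuousAt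
  have h2 : HasDerivAt (fun u => Real.exp (-(c * sq k * u))) (Real.exp (-(c * sq k * t)) * -(c * sq k)) t := by
    have : HasDerivAt (fun u : ℝ => -(c * sq k * u)) (-(c * sq k)) t := by
      simpa using ((hasDerivAt_id' t).const_mul (c * sq k)).fun_neg
    exact this.exp
  have h3 := h2.fun_smul h1
  have e : Duh c F k =ᶠ[𝓝 t] fun u => Real.exp (-(c * sq k * u)) •
      ∫ s in (0 : ℝ)..u, Real.exp (c * sq k * s) • F k s := by
    filter_upwards [lt_mem_nhds ht] with u hu
    rw [Duh_eq, max_eq_left hu.le]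
  refine HasDerivAt.congr_of_eventuallyEq ?_ e
  convert h3 using 1
  rw [Duh_eq, max_eq_left ht.le, smul_smul, smul_smul, ← Real.exp_add]
  simp only [neg_add_cancel, Real.exp_zero, one_smul]
  rw [add_comm]
  congr 2
  ring

lemma enorm_Duh_le (c : ℝ) (F : Fam) (k : K) {t : ℝ} (ht : 0 ≤ t) :
    ‖Duh c F k t‖ₑ ≤ ∫⁻ s in Ioc 0 t, ENNReal.ofReal (Real.exp (-(c * sq k * (t - s)))) * ‖F k s‖ₑ := by
  unfold Duh
  rw [max_eq_left ht, intervalIntegral.integral_of_le ht]
  refine (enorm_integral_le_lintegral_enorm _).trans (le_of_eq ?_)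
  refine lintegral_congr fun s => ?_
  rw [enorm_smul, Real.enorm_of_nonneg (Real.exp_pos _).le]

lemma enorm_Duh_le' {c : ℝ} (hc : 0 ≤ c) (F : Fam) (k : K) {t : ℝ} (ht : 0 ≤ t) :
    ‖Duh c F k t‖ₑ ≤ ∫⁻ s in Ioc 0 t, ‖F k s‖ₑ := by
  refine (enorm_Duh_le c F k ht).trans ?_
  refine setLIntegral_mono' measurableSet_Ioc fun s hs => ?_
  calc _ ≤ 1 * ‖F k s‖ₑ := by
        apply mul_le_mul' _ le_rfl
        rw [ENNReal.ofReal_le_one, Real.exp_le_one_iff]
        have := sq_nonneg' k
        have h2 : 0 ≤ t - s := sub_nonneg.2 hs.2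
        have : 0 ≤ c * sq k * (t - s) := by positivity
        linarith
    _ = _ := one_mul _

lemma NW_meas (W : K → ℝ≥0∞) {F : Fam} (hF : CF F) : Measurable fun s => NW W (at' F s) := by
  unfold NW at'
  exact Measurable.tsum fun k => ((hF k).enorm.measurable).const_mul _

/-- sup estimate -/
lemma NW_Duh_le {c : ℝ} (hc : 0 ≤ c) (W : K → ℝ≥0∞) {F : Fam} (hF : CF F) {t : ℝ} (ht : 0 ≤ t) :
    NW W (at' (Duh c F) t) ≤ ∫⁻ s in Ioc 0 t, NW W (at' F s) := by
  unfold NW at'
  rw [lintegral_tsum]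
  · refine ENNReal.tsum_le_tsum fun k => ?_
    rw [lintegral_const_mul _ (hF k).enorm.measurable]
    exact mul_le_mul' le_rfl (enorm_Duh_le' hc F k ht)
  · intro k
    exact (((hF k).enorm.measurable).const_mul _).aemeasurable

lemma lint_exp {lam : ℝ} (hl : 0 < lam) (s : ℝ) :
    ∫⁻ t in Ici s, ENNReal.ofReal (Real.exp (-(lam * (t - s)))) = ENNReal.ofReal (1 / lam) := by
  have h1 : ∀ t, Real.exp (-(lam * (t - s))) = Real.exp (lam * s) * Real.exp (-lam * t) := by
    intro t; rw [← Real.exp_add]; congr 1; ring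
  simp only [h1]
  have hi : IntegrableOn (fun t => Real.exp (lam * s) * Real.exp (-lam * t)) (Ioi s) :=
    (exp_neg_integrableOn_Ioi s hl).const_mul _
  rw [setLIntegral_congr (Ioi_ae_eq_Ici).symm]
  rw [← ofReal_integral_eq_lintegral_ofReal hi
    (Filter.Eventually.of_forall fun t => by positivity)]
  congr 1
  rw [integral_const_mul, integral_exp_mul_Ioi (neg_lt_zero.2 hl)]
  rw [neg_div, div_neg, neg_neg, mul_div_assoc', ← Real.exp_add]
  congr 1
  rw [Real.exp_eq_one_iff]; ring

/-- Weight in time: `g` monotone. -/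
lemma L1b {c : ℝ} (hc : 0 < c) {a : ℝ} {F : Fam} (hF : CF F) {g : ℝ → ℝ} (hg : Monotone g) :
    ENNReal.ofReal c * ∫⁻ t in Ioi 0, ENNReal.ofReal (Real.exp (-g t)) * NW (Wp a) (at' (Duh c F) t)
      ≤ ∫⁻ s in Ioi 0, ENNReal.ofReal (Real.exp (-g s)) * NW (Wm a) (at' F s) := by
  have hgm : Measurable fun t => ENNReal.ofReal (Real.exp (-g t)) :=
    ENNReal.measurable_ofReal.comp (Real.measurable_exp.comp hg.measurable.neg)
  -- one mode
  have hk : ∀ k : K, k ≠ 0 → ENNReal.ofReal (c * sq k) *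
      ∫⁻ t in Ioi 0, ENNReal.ofReal (Real.exp (-g t)) * ‖Duh c F k t‖ₑ
      ≤ ∫⁻ s in Ioi 0, ENNReal.ofReal (Real.exp (-g s)) * ‖F k s‖ₑ := by
    intro k hk0
    have hlam : 0 < c * sq k := mul_pos hc (sq_pos hk0)
    set H : ℝ → ℝ → ℝ≥0∞ := fun t s => (Ici s).indicator (fun t =>
      ENNReal.ofReal (Real.exp (-g s)) * (ENNReal.ofReal (Real.exp (-(c * sq k * (t - s)))) * ‖F k s‖ₑ)) t
    have h1 : ∀ t ∈ Ioi (0 : ℝ), ENNReal.ofReal (Real.exp (-g t)) * ‖Duh c F k t‖ₑ
        ≤ ∫⁻ s in Ioi 0, H t s := by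
      intro t ht
      have ht' : 0 < t := ht
      calc ENNReal.ofReal (Real.exp (-g t)) * ‖Duh c F k t‖ₑ
          ≤ ENNReal.ofReal (Real.exp (-g t)) * ∫⁻ s in Ioc 0 t,
            ENNReal.ofReal (Real.exp (-(c * sq k * (t - s)))) * ‖F k s‖ₑ :=
            mul_le_mul' le_rfl (enorm_Duh_le c F k ht'.le)
        _ = ∫⁻ s in Ioc 0 t, ENNReal.ofReal (Real.exp (-g t)) *
            (ENNReal.ofReal (Real.exp (-(c * sq k * (t - s)))) * ‖F k s‖ₑ) := by
            rw [lintegral_const_mul]
            have := (hF k).enorm.measurable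
            fun_prop
        _ ≤ ∫⁻ s in Ioc 0 t, H t s := by
            refine setLIntegral_mono' measurableSet_Ioc fun s hs => ?_
            simp only [H]
            rw [indicator_of_mem (show t ∈ Ici s from hs.2)]
            apply mul_le_mul' _ le_rfl
            apply ENNReal.ofReal_le_ofReal
            apply Real.exp_le_exp.2
            have := hg hs.2
            linarith
        _ ≤ ∫⁻ s in Ioi 0, H t s := lintegral_mono_set fun s hs => hs.1
    have hH : Measurable (Function.uncurry H) := by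
      have e : Function.uncurry H = {p : ℝ × ℝ | p.2 ≤ p.1}.indicator (fun p =>
        ENNReal.ofReal (Real.exp (-g p.2)) *
          (ENNReal.ofReal (Real.exp (-(c * sq k * (p.1 - p.2)))) * ‖F k p.2‖ₑ)) := by
        funext ⟨t, s⟩
        simp only [Function.uncurry, H, indicator, mem_Ici, mem_ofPred_eq]
      rw [e]
      refine Measurable.indicator ?_ (measurableSet_le measurable_snd measurable_fst)
      have m1 := hgm.comp (measurable_snd : Measurable (Prod.snd : ℝ × ℝ → ℝ))
      have m2 := (hF k).enorm.measurable.comp (measurable_snd : Measurable (Prod.snd : ℝ × ℝ → ℝ))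
      refine m1.mul (Measurable.mul ?_ m2)
      fun_prop
    calc ENNReal.ofReal (c * sq k) *
          ∫⁻ t in Ioi 0, ENNReal.ofReal (Real.exp (-g t)) * ‖Duh c F k t‖ₑ
        ≤ ENNReal.ofReal (c * sq k) * ∫⁻ t in Ioi 0, ∫⁻ s in Ioi 0, H t s :=
          mul_le_mul' le_rfl (setLIntegral_mono' measurableSet_Ioi h1)
      _ = ENNReal.ofReal (c * sq k) * ∫⁻ s in Ioi 0, ∫⁻ t in Ioi 0, H t s := by
          rw [lintegral_lintegral_swap hH.aemeasurable]
      _ = ∫⁻ s in Ioi 0, ENNReal.ofReal (c * sq k) * ∫⁻ t in Ioi 0, H t s := by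
          have mH : Measurable fun s => ∫⁻ t in Ioi 0, H t s := Measurable.lintegral_prod_left' hH
          rw [lintegral_const_mul _ mH]
      _ ≤ ∫⁻ s in Ioi 0, ENNReal.ofReal (Real.exp (-g s)) * ‖F k s‖ₑ := by
          refine lintegral_mono fun s => ?_
          have h3 : ∫⁻ t in Ioi 0, H t s ≤ ENNReal.ofReal (Real.exp (-g s)) * ‖F k s‖ₑ *
              ENNReal.ofReal (1 / (c * sq k)) := by
            calc ∫⁻ t in Ioi 0, H t s ≤ ∫⁻ t, H t s := setLIntegral_le_lintegral _ _
              _ = ∫⁻ t in Ici s, ENNReal.ofReal (Real.exp (-g s)) *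
                  (ENNReal.ofReal (Real.exp (-(c * sq k * (t - s)))) * ‖F k s‖ₑ) :=
                  lintegral_indicator measurableSet_Ici _
              _ = ∫⁻ t in Ici s, (ENNReal.ofReal (Real.exp (-g s)) * ‖F k s‖ₑ) *
                  ENNReal.ofReal (Real.exp (-(c * sq k * (t - s)))) := by
                  refine lintegral_congr fun t => ?_
                  ring
              _ = _ := by
                  rw [lintegral_const_mul _ (by fun_prop), lint_exp hlam]
          calc ENNReal.ofReal (c * sq k) * ∫⁻ t in Ioi 0, H t s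
              ≤ ENNReal.ofReal (c * sq k) * (ENNReal.ofReal (Real.exp (-g s)) * ‖F k s‖ₑ *
              ENNReal.ofReal (1 / (c * sq k))) := mul_le_mul' le_rfl h3
            _ = (ENNReal.ofReal (c * sq k) * ENNReal.ofReal (1 / (c * sq k))) *
                (ENNReal.ofReal (Real.exp (-g s)) * ‖F k s‖ₑ) := by ring
            _ = _ := by
                rw [← ENNReal.ofReal_mul hlam.le, mul_one_div_cancel hlam.ne', ENNReal.ofReal_one,
                  one_mul]
  unfold NW
  simp_rw [← ENNReal.tsum_mul_left]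
  rw [lintegral_tsum, lintegral_tsum, ← ENNReal.tsum_mul_left]
  · refine ENNReal.tsum_le_tsum fun k => ?_
    by_cases hk0 : k = 0
    · subst hk0
      simp [Wp, nk_zero]
    have hn := nk_pos hk0
    have m1 : Measurable fun s => ENNReal.ofReal (Real.exp (-g s)) * ‖F k s‖ₑ :=
      hgm.mul (hF k).enorm.measurable
    have m2 : Measurable fun s => ENNReal.ofReal (Real.exp (-g s)) * ‖Duh c F k s‖ₑ :=
      hgm.mul (Duh_cont hF c k).enorm.measurable
    have e1 : ∫⁻ s in Ioi 0, ENNReal.ofReal (Real.exp (-g s)) * (Wm a k * ‖at' F s k‖ₑ)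
        = Wm a k * ∫⁻ s in Ioi 0, ENNReal.ofReal (Real.exp (-g s)) * ‖F k s‖ₑ := by
      rw [← lintegral_const_mul _ m1]
      refine lintegral_congr fun s => ?_
      simp only [at']; ring
    have e2 : ∫⁻ s in Ioi 0, ENNReal.ofReal (Real.exp (-g s)) * (Wp a k * ‖at' (Duh c F) s k‖ₑ)
        = Wp a k * ∫⁻ s in Ioi 0, ENNReal.ofReal (Real.exp (-g s)) * ‖Duh c F k s‖ₑ := by
      rw [← lintegral_const_mul _ m2]
      refine lintegral_congr fun s => ?_
      simp only [at']; ring
    rw [e1, e2]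
    calc ENNReal.ofReal c * (Wp a k * ∫⁻ s in Ioi 0, ENNReal.ofReal (Real.exp (-g s)) * ‖Duh c F k s‖ₑ)
        = Wm a k * (ENNReal.ofReal (c * sq k) *
          ∫⁻ s in Ioi 0, ENNReal.ofReal (Real.exp (-g s)) * ‖Duh c F k s‖ₑ) := by
          rw [← mul_assoc, ← mul_assoc]
          congr 1
          unfold Wm Wp
          have := om_pos a k
          rw [← ENNReal.ofReal_mul hc.le, ← ENNReal.ofReal_mul (by positivity)]
          congr 1
          rw [← nk_mul_self]
          field_simp
      _ ≤ _ := mul_le_mul' le_rfl (hk k hk0)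
  · intro k
    have m1 : Measurable fun s => Wm a k * ‖at' F s k‖ₑ := ((hF k).enorm.measurable).const_mul _
    exact (hgm.mul m1).aemeasurable
  · intro k
    have m1 : Measurable fun s => Wp a k * ‖at' (Duh c F) s k‖ₑ :=
      ((Duh_cont hF c k).enorm.measurable).const_mul _
    exact (hgm.mul m1).aemeasurable

end Pool.Agent.H356R3.NS
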