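import Pool.Agent.H3NY.R.Crit
import Pool.Agent.H356R3.NS.Defs

namespace Pool.Agent.H356R3.NS
end Pool.Agent.H356R3.NS
namespace Pool.Agent.H356R3.NS.H3
end Pool.Agent.H356R3.NS.H3
namespace Pool.Agent.H356R3.NS.X
end Pool.Agent.H356R3.NS.X
namespace Pool.Agent.H3NS
end Pool.Agent.H3NS
namespace H459R3.NS
end H459R3.NS

open MeasureTheory Set Filter Topology
open scoped ENNReal NNReal ContDiff ComplexConjugate

namespace Pool.Agent.H356R3.NS

lemma shellSum_eq (a : K → C3) (j : ℕ) : shellSum a j = shell j fun k => ‖a k‖ₑ := by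
  unfold shellSum shell
  refine tsum_congr fun k => ?_
  have e : sq k = ((∑ i, k i ^ 2 : ℤ) : ℝ) := by unfold sq; push_cast; rfl
  have h1 : ((4 : ℤ) ^ j ≤ ∑ i, k i ^ 2) ↔ ((4 : ℝ) ^ j ≤ sq k) := by rw [e]; exact_mod_cast Iff.rfl
  have h2 : (∑ i, k i ^ 2 < (4 : ℤ) ^ (j + 1)) ↔ (sq k < (4 : ℝ) ^ (j + 1)) := by
    rw [e]; exact_mod_cast Iff.rfl
  simp only [h1, h2]

lemma critNorm_eq (r : ℝ) (a : K → C3) : critNorm r a = crit r a ^ (1 / r) := by
  unfold critNorm crit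
  simp only [shellSum_eq]

end Pool.Agent.H356R3.NS
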