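import Pool.Agent.H3NY.R.Duh

namespace Pool.Agent.H356R3.NS
end Pool.Agent.H356R3.NS
namespace Pool.Agent.H356R3.NS.H3
end Pool.Agent.H356R3.NS.H3
namespace Pool.Agent.H356R3.NS.X
end Pool.Agent.H356R3.NS.X
namespace Pool.Agent.H3NS
end Pool.Agent.H3NS
namespace H459R3.NS
end H459R3.NS

open MeasureTheory Set Filter Topology
open scoped ENNReal NNReal

namespace Pool.Agent.H356R3.NS

lemma summ_int {b : ℝ} (hb : 0 < b) : Summable fun n : ℤ => Real.exp (-(b * |(n : ℝ)|)) := by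
  have h1 : Summable fun n : ℕ => Real.exp (-(b * n)) := by
    have : ∀ n : ℕ, Real.exp (-(b * n)) = (Real.exp (-b)) ^ n := by
      intro n; rw [← Real.exp_nat_mul]; congr 1; ring
    simp only [this]
    exact summable_geometric_of_lt_one (Real.exp_pos _).le
      (by simpa using Real.exp_lt_exp.2 (show -b < 0 by linarith))
  apply Summable.of_nat_of_neg
  · simpa using h1
  · simpa using h1

def eqv : K ≃ ℤ × ℤ × ℤ where
  toFun k := (k 0, k 1, k 2)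
  invFun p := ![p.1, p.2.1, p.2.2]
  left_inv k := by funext i; fin_cases i <;> rfl
  right_inv p := rfl

lemma summ_exp {b : ℝ} (hb : 0 < b) : Summable fun k : K => Real.exp (-(b * l1 k)) := by
  have h := summ_int hb
  have hn : (0 : ℤ → ℝ) ≤ fun n : ℤ => Real.exp (-(b * |(n : ℝ)|)) := fun n => (Real.exp_pos _).le
  have h2 := h.mul_of_nonneg h hn hn
  have h3 := h.mul_of_nonneg h2 hn (fun p => by
    simp only [Pi.zero_apply]; positivity)
  rw [← eqv.symm.summable_iff]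
  refine h3.congr fun p => ?_
  have e : eqv.symm p = ![p.1, p.2.1, p.2.2] := rfl
  rw [Function.comp_apply, e]
  simp only [l1, Fin.sum_univ_three]
  rw [← Real.exp_add, ← Real.exp_add]
  congr 1
  simp only [Matrix.cons_val_zero, Matrix.cons_val_one, Matrix.cons_val]
  ring

lemma summ_nk {b : ℝ} (hb : 0 < b) : Summable fun k : K => nk k * Real.exp (-(b * l1 k)) := by
  have h := (summ_exp (half_pos hb)).mul_left (2 / b)
  refine h.of_nonneg_of_le (fun k => mul_nonneg (nk_nonneg k) (Real.exp_pos _).le) fun k => ?_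
  have h1 : nk k ≤ 2 / b * Real.exp (b / 2 * l1 k) := by
    have h2 : b / 2 * l1 k + 1 ≤ Real.exp (b / 2 * l1 k) := Real.add_one_le_exp _
    have h3 := nk_le_l1 k
    rw [div_mul_eq_mul_div, le_div_iff₀ hb]
    nlinarith
  calc nk k * Real.exp (-(b * l1 k)) ≤ 2 / b * Real.exp (b / 2 * l1 k) * Real.exp (-(b * l1 k)) :=
        mul_le_mul_of_nonneg_right h1 (Real.exp_pos _).le
    _ = 2 / b * Real.exp (-(b / 2 * l1 k)) := by
        rw [mul_assoc, ← Real.exp_add]; congr 2; ring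

/-- Dominated families. -/
def Dom (u : Fam) : Prop := ∃ b : K → ℝ, Summable b ∧ ∀ k t, ‖u k t‖ ≤ b k

lemma Dom.sn {u : Fam} (h : Dom u) (t : ℝ) : SN (at' u t) := by
  obtain ⟨b, hb, h⟩ := h
  exact hb.of_nonneg_of_le (fun _ => norm_nonneg _) fun k => h k t

lemma Dom.add {u v : Fam} (hu : Dom u) (hv : Dom v) : Dom (u + v) := by
  obtain ⟨b, hb, h⟩ := hu
  obtain ⟨b', hb', h'⟩ := hv
  exact ⟨fun k => b k + b' k, hb.add hb', fun k t => (norm_add_le _ _).trans (add_le_add (h k t) (h' k t))⟩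

/-- The nonlinear term of a family. -/
noncomputable def Bt (u : Fam) : Fam := fun k t => Bf (at' u t) (at' u t) k

lemma cv_cont {u v : Fam} (hu : CF u) (hv : CF v) (hu' : Dom u) (hv' : Dom v) (k : K) (i j : Fin 3) :
    Continuous fun t => cv (at' u t) (at' v t) k i j := by
  obtain ⟨b, hb, h⟩ := hu'
  obtain ⟨b', hb', h'⟩ := hv'
  have hb0 : ∀ k, 0 ≤ b k := fun k => (norm_nonneg _).trans (h k 0)
  have hb0' : ∀ k, 0 ≤ b' k := fun k => (norm_nonneg _).trans (h' k 0)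
  unfold cv at'
  refine continuous_tsum (u := fun l => b l * ∑' l', b' l') (fun l => ?_) (hb.mul_right _) fun l t => ?_
  · exact ((continuous_apply i).comp (hu l)).mul ((continuous_apply j).comp (hv (k - l)))
  · rw [norm_mul]
    apply mul_le_mul ((norm_le_pi_norm _ i).trans (h l t)) _ (norm_nonneg _) (hb0 l)
    exact ((norm_le_pi_norm _ j).trans (h' (k - l) t)).trans (hb'.le_tsum (k - l) fun _ _ => hb0' _)

lemma BB_cont {u v : Fam} (hu : CF u) (hv : CF v) (hu' : Dom u) (hv' : Dom v) :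
    CF (fun k t => Bf (at' u t) (at' v t) k) := by
  intro k
  refine continuous_pi fun i => ?_
  unfold Bf
  refine continuous_finsetSum _ fun j _ => continuous_finsetSum _ fun m _ => ?_
  exact continuous_const.mul (cv_cont hu hv hu' hv' k j m)

lemma Bt_cont {u : Fam} (hu : CF u) (hu' : Dom u) : CF (Bt u) := BB_cont hu hu hu' hu'

lemma NW_one_le {x : K → C3} {b : K → ℝ} (hb : Summable b) (h : ∀ k, ‖x k‖ ≤ b k) :
    ∑' k, ‖x k‖ₑ ≤ ENNReal.ofReal (∑' k, b k) := by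
  have hb0 : ∀ k, 0 ≤ b k := fun k => (norm_nonneg _).trans (h k)
  rw [ENNReal.ofReal_tsum_of_nonneg hb0 hb]
  refine ENNReal.tsum_le_tsum fun k => ?_
  rw [← ofReal_norm]
  exact ENNReal.ofReal_le_ofReal (h k)

lemma norm_Bf_le {x : K → C3} {b : K → ℝ} (hb : Summable b) (h : ∀ k, ‖x k‖ ≤ b k) (k : K) :
    ‖Bf x x k‖ ≤ C0 * nk k * ((∑' k, b k) * ∑' k, b k) := by
  have hb0 : ∀ k, 0 ≤ b k := fun k => (norm_nonneg _).trans (h k)
  have hC := C0_pos
  have hn := nk_nonneg k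
  have ht : 0 ≤ ∑' k, b k := tsum_nonneg hb0
  have h1 := enorm_Bf_le x x k
  have h2 : ∑' l, ‖x l‖ₑ * ‖x (k - l)‖ₑ ≤ ENNReal.ofReal ((∑' k, b k) * ∑' k, b k) := by
    rw [ENNReal.ofReal_mul ht]
    calc ∑' l, ‖x l‖ₑ * ‖x (k - l)‖ₑ ≤ ∑' l, ‖x l‖ₑ * ∑' l', ‖x l'‖ₑ :=
          ENNReal.tsum_le_tsum fun l => mul_le_mul' le_rfl (ENNReal.le_tsum (k - l))
      _ = (∑' l, ‖x l‖ₑ) * ∑' l', ‖x l'‖ₑ := ENNReal.tsum_mul_right
      _ ≤ _ := mul_le_mul' (NW_one_le hb h) (NW_one_le hb h)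
  have h3 : ‖Bf x x k‖ₑ ≤ ENNReal.ofReal (C0 * nk k * ((∑' k, b k) * ∑' k, b k)) := by
    rw [ENNReal.ofReal_mul (by positivity)]
    exact h1.trans (mul_le_mul' le_rfl h2)
  rw [← ofReal_norm] at h3
  exact (ENNReal.ofReal_le_ofReal_iff (by positivity)).1 h3

/-- Pointwise bound from the weighted norm. -/
lemma norm_le_of_NWm {a M : ℝ} (hM : 0 ≤ M) {x : K → C3} (h0 : x 0 = 0)
    (h : NW (Wm a) x ≤ ENNReal.ofReal M) (k : K) : ‖x k‖ ≤ M * (nk k * Real.exp (-(a * l1 k))) := by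
  by_cases hk : k = 0
  · subst hk; simp [h0, nk_zero]
  have hn := nk_pos hk
  have h1 : Wm a k * ‖x k‖ₑ ≤ ENNReal.ofReal M := (ENNReal.le_tsum k).trans h
  unfold Wm at h1
  rw [← ofReal_norm, ← ENNReal.ofReal_mul (div_nonneg (om_pos a k).le hn.le)] at h1
  have h2 := (ENNReal.ofReal_le_ofReal_iff hM).1 h1
  rw [Real.exp_neg]
  have h3 : om a k = Real.exp (a * l1 k) := rfl
  rw [← h3]
  have h4 := om_pos a k
  rw [div_mul_eq_mul_div, div_le_iff₀ hn] at h2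
  rw [← mul_assoc, ← div_eq_mul_inv, le_div_iff₀ h4]
  linarith

lemma dom_of_NWm {a M : ℝ} (ha : 0 < a) (hM : 0 ≤ M) {u : Fam} (h0 : ∀ t, u 0 t = 0)
    (h : ∀ t, NW (Wm a) (at' u t) ≤ ENNReal.ofReal M) : Dom u :=
  ⟨_, (summ_nk ha).mul_left M, fun k t => norm_le_of_NWm hM (h0 t) (h t) k⟩

/-- Lower semicontinuity. -/
lemma NW_le_liminf {W : K → ℝ≥0∞} (hW : ∀ k, W k ≠ ⊤) {x : ℕ → K → C3} {y : K → C3}
    (h : ∀ k, Tendsto (fun n => x n k) atTop (𝓝 (y k))) :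
    NW W y ≤ liminf (fun n => NW W (x n)) atTop := by
  refine le_of_forall_lt fun c hc => ?_
  unfold NW at hc
  rw [ENNReal.tsum_eq_iSup_sum, lt_iSup_iff] at hc
  obtain ⟨s, hs⟩ := hc
  have h1 : Tendsto (fun n => ∑ k ∈ s, W k * ‖x n k‖ₑ) atTop (𝓝 (∑ k ∈ s, W k * ‖y k‖ₑ)) := by
    refine tendsto_finsetSum _ fun k _ => ?_
    exact ENNReal.Tendsto.const_mul ((continuous_enorm.tendsto _).comp (h k)) (Or.inr (hW k))
  calc c < ∑ k ∈ s, W k * ‖y k‖ₑ := hs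
    _ = liminf (fun n => ∑ k ∈ s, W k * ‖x n k‖ₑ) atTop := h1.liminf_eq.symm
    _ ≤ _ := liminf_le_liminf (Filter.Eventually.of_forall fun n => ENNReal.sum_le_tsum s)

lemma NW_le_of_tendsto {W : K → ℝ≥0∞} (hW : ∀ k, W k ≠ ⊤) {x : ℕ → K → C3} {y : K → C3}
    (h : ∀ k, Tendsto (fun n => x n k) atTop (𝓝 (y k))) {C : ℝ≥0∞} (hC : ∀ n, NW W (x n) ≤ C) :
    NW W y ≤ C := by
  refine (NW_le_liminf hW h).trans ?_
  calc liminf (fun n => NW W (x n)) atTop ≤ liminf (fun _ : ℕ => C) atTop :=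
        liminf_le_liminf (Filter.Eventually.of_forall hC)
    _ = C := liminf_const C

lemma Wm_ne_top (a : ℝ) (k : K) : Wm a k ≠ ⊤ := ENNReal.ofReal_ne_top
lemma Wa_ne_top (a : ℝ) (k : K) : Wa a k ≠ ⊤ := ENNReal.ofReal_ne_top

end Pool.Agent.H356R3.NS
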