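import Pool.Agent.H3NY.R.Key
import Pool.Agent.H3NY.R.Summ

namespace Pool.Agent.H356R3.NS
end Pool.Agent.H356R3.NS
namespace Pool.Agent.H356R3.NS.H3
end Pool.Agent.H356R3.NS.H3
namespace Pool.Agent.H356R3.NS.X
end Pool.Agent.H356R3.NS.X
namespace Pool.Agent.H3NS
end Pool.Agent.H3NS
namespace H459R3.NS
end H459R3.NS

open MeasureTheory Set Filter Topology
open scoped ENNReal NNReal

namespace Pool.Agent.H356R3.NS

lemma Duh_sub {c : ℝ} {F F' : Fam} (hF : CF F) (hF' : CF F') : Duh c (F - F') = Duh c F - Duh c F' := by
  funext k t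
  simp only [Duh, Pi.sub_apply]
  rw [← intervalIntegral.integral_sub]
  · refine intervalIntegral.integral_congr fun s _ => ?_
    simp only [smul_sub]
  · apply Continuous.intervalIntegrable
    have := hF k
    fun_prop
  · apply Continuous.intervalIntegrable
    have := hF' k
    fun_prop

lemma Duh_add {c : ℝ} {F F' : Fam} (hF : CF F) (hF' : CF F') : Duh c (F + F') = Duh c F + Duh c F' := by
  funext k t
  simp only [Duh, Pi.add_apply]
  rw [← intervalIntegral.integral_add]
  · refine intervalIntegral.integral_congr fun s _ => ?_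
    simp only [smul_add]
  · apply Continuous.intervalIntegrable
    have := hF k
    fun_prop
  · apply Continuous.intervalIntegrable
    have := hF' k
    fun_prop

lemma LF_add_le {g : ℝ → ℝ} (hg : Monotone g) {a : ℝ} {x y : Fam} (hx : CF x) (hy : CF y) :
    LF g a (x + y) ≤ LF g a x + LF g a y := by
  have hgm : Measurable fun t => ENNReal.ofReal (Real.exp (-g t)) :=
    ENNReal.measurable_ofReal.comp (Real.measurable_exp.comp hg.measurable.neg)
  unfold LF
  refine le_trans (LN_mono fun t _ => ?_) (LN_add_le (hgm.mul (NW_meas _ hx)) (hgm.mul (NW_meas _ hy)))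
  rw [← mul_add]
  exact mul_le_mul' le_rfl (NW_add_le _ _ _)

/-- Families satisfying the reality condition. -/
def SymF (u : Fam) : Prop := ∀ t, Sym (at' u t)

lemma Duh_sym {c : ℝ} {F : Fam} (h : SymF F) (hF : CF F) : SymF (Duh c F) := by
  intro t k i
  simp only [at', Duh]
  have e1 : ∀ κ : K, (∫ s in (0 : ℝ)..(max t 0), Real.exp (-(c * sq κ * (max t 0 - s))) • F κ s) i
      = ∫ s in (0 : ℝ)..(max t 0), (Real.exp (-(c * sq κ * (max t 0 - s))) • F κ s) i := by
    intro κ
    have hint : IntervalIntegrable (fun s => Real.exp (-(c * sq κ * (max t 0 - s))) • F κ s)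
        volume 0 (max t 0) := by
      apply Continuous.intervalIntegrable
      have := hF κ
      fun_prop
    exact ((ContinuousLinearMap.proj (R := ℝ) (φ := fun _ : Fin 3 => ℂ) i).intervalIntegral_comp_comm
      hint).symm
  rw [e1, e1]
  have e2 : ∀ s, (Real.exp (-(c * sq (-k) * (max t 0 - s))) • F (-k) s) i
      = star ((Real.exp (-(c * sq k * (max t 0 - s))) • F k s) i) := by
    intro s
    simp only [sq_neg, Pi.smul_apply, star_smul, star_trivial]
    congr 1
    exact h s k i
  simp only [e2]
  rw [intervalIntegral.integral_of_le (le_max_right t 0), intervalIntegral.integral_of_le (le_max_right t 0)]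
  exact integral_conj

lemma Bt_sym {u : Fam} (h : SymF u) : SymF (Bt u) := fun t => Bf_sym (h t) (h t)

variable {c D Lam ρ : ℝ}

end Pool.Agent.H356R3.NS
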