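import Pool.Agent.H3NY.R.Basic

namespace Pool.Agent.H356R3.NS
end Pool.Agent.H356R3.NS
namespace Pool.Agent.H356R3.NS.H3
end Pool.Agent.H356R3.NS.H3
namespace Pool.Agent.H356R3.NS.X
end Pool.Agent.H356R3.NS.X
namespace Pool.Agent.H3NS
end Pool.Agent.H3NS
namespace H459R3.NS
end H459R3.NS

open MeasureTheory Set Filter Topology
open scoped ENNReal NNReal

namespace Pool.Agent.H356R3.NS

lemma cv_tendsto {x : ℕ → K → C3} {y : K → C3} {b : K → ℝ} (hb : Summable b)
    (h : ∀ n k, ‖x n k‖ ≤ b k) (ht : ∀ k, Tendsto (fun n => x n k) atTop (𝓝 (y k)))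
    (k : K) (i j : Fin 3) : Tendsto (fun n => cv (x n) (x n) k i j) atTop (𝓝 (cv y y k i j)) := by
  have hb0 : ∀ k, 0 ≤ b k := fun k => (norm_nonneg _).trans (h 0 k)
  unfold cv
  refine tendsto_tsum_of_dominated_convergence (bound := fun l => b l * ∑' l', b l')
    (hb.mul_right _) (fun l => ?_) (Filter.Eventually.of_forall fun n l => ?_)
  · have h1 : Tendsto (fun n => x n l i) atTop (𝓝 (y l i)) :=
      ((continuous_apply i).tendsto _).comp (ht l)
    have h2 : Tendsto (fun n => x n (k - l) j) atTop (𝓝 (y (k - l) j)) :=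
      ((continuous_apply j).tendsto _).comp (ht (k - l))
    exact h1.mul h2
  · rw [norm_mul]
    apply mul_le_mul ((norm_le_pi_norm _ i).trans (h n l)) _ (norm_nonneg _) (hb0 l)
    exact ((norm_le_pi_norm _ j).trans (h n (k - l))).trans (hb.le_tsum (k - l) fun _ _ => hb0 _)

lemma Bf_tendsto {x : ℕ → K → C3} {y : K → C3} {b : K → ℝ} (hb : Summable b)
    (h : ∀ n k, ‖x n k‖ ≤ b k) (ht : ∀ k, Tendsto (fun n => x n k) atTop (𝓝 (y k)))
    (k : K) : Tendsto (fun n => Bf (x n) (x n) k) atTop (𝓝 (Bf y y k)) := by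
  refine tendsto_pi_nhds.2 fun i => ?_
  unfold Bf
  exact tendsto_finsetSum _ fun j _ => tendsto_finsetSum _ fun m _ =>
    (cv_tendsto hb h ht k j m).const_mul _

variable {c D Lam ρ : ℝ}

end Pool.Agent.H356R3.NS
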