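import Pool.Agent.H3NY.R.Reg2

namespace Pool.Agent.H356R3.NS
end Pool.Agent.H356R3.NS
namespace Pool.Agent.H356R3.NS.H3
end Pool.Agent.H356R3.NS.H3
namespace Pool.Agent.H356R3.NS.X
end Pool.Agent.H356R3.NS.X
namespace Pool.Agent.H3NS
end Pool.Agent.H3NS
namespace H459R3.NS
end H459R3.NS

open MeasureTheory Set Filter Topology
open scoped ENNReal NNReal ContDiff ComplexConjugate

namespace Pool.Agent.H356R3.NS

/-- the unit cube -/
def Q3 : Set E3 := Icc 0 1

lemma Q3_eq : Q3 = Set.univ.pi fun _ : Fin 3 => Icc (0 : ℝ) 1 := by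
  unfold Q3
  rw [← Set.pi_univ_Icc]; rfl

lemma Q3_vol : (volume : Measure E3) Q3 = 1 := by
  unfold Q3
  rw [Real.volume_Icc_pi]; simp

instance Q3_fin : IsFiniteMeasure (volume.restrict Q3 : Measure E3) := by
  constructor
  rw [Measure.restrict_apply_univ, Q3_vol]; exact ENNReal.one_lt_top

lemma int1 (n : ℤ) : ∫ t in Icc (0 : ℝ) 1, Complex.exp (2 * Real.pi * Complex.I * ((n : ℂ) * (t : ℂ)))
    = if n = 0 then 1 else 0 := by
  rw [integral_Icc_eq_integral_Ioc, ← intervalIntegral.integral_of_le zero_le_one]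
  split_ifs with h
  · subst h; simp
  · have hc : (2 * Real.pi * Complex.I * (n : ℂ)) ≠ 0 := by
      have h1 : (n : ℂ) ≠ 0 := by exact_mod_cast h
      have h2 : (Real.pi : ℂ) ≠ 0 := by exact_mod_cast Real.pi_ne_zero
      simp [h1, h2, Complex.I_ne_zero]
    have e : ∀ t : ℝ, Complex.exp (2 * Real.pi * Complex.I * ((n : ℂ) * (t : ℂ)))
        = Complex.exp ((2 * Real.pi * Complex.I * (n : ℂ)) * (t : ℂ)) := fun t => by congr 1; ring
    simp only [e]
    rw [integral_exp_mul_complex hc]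
    have h3 : Complex.exp (2 * Real.pi * Complex.I * (n : ℂ) * ((1 : ℝ) : ℂ)) = 1 := by
      rw [Complex.ofReal_one, mul_one, mul_comm]
      exact Complex.exp_int_mul_two_pi_mul_I n
    rw [h3]
    simp

lemma ex_prod (k : K) (x : E3) :
    ex k x = ∏ j, Complex.exp (2 * Real.pi * Complex.I * ((k j : ℂ) * (x j : ℂ))) := by
  unfold ex
  rw [← Complex.exp_sum, Finset.mul_sum]

lemma ex_int (k : K) : ∫ x in Q3, ex k x = if k = 0 then 1 else 0 := by
  have h1 : (volume.restrict Q3 : Measure E3) = Measure.pi fun _ => (volume.restrict (Icc (0 : ℝ) 1)) := by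
    rw [Q3_eq, volume_pi, Measure.restrict_pi_pi]
  rw [h1]
  simp only [ex_prod]
  rw [integral_fintype_prod_eq_prod (fun j (t : ℝ) => Complex.exp (2 * Real.pi * Complex.I * ((k j : ℂ) * (t : ℂ))))]
  simp only [int1]
  split_ifs with h
  · subst h; simp
  · obtain ⟨j, hj⟩ := Function.ne_iff.1 h
    exact Finset.prod_eq_zero (Finset.mem_univ j) (if_neg hj)

end Pool.Agent.H356R3.NS
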