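import Pool.Agent.H356R3.NS.Defs
import Pool.Agent.H3NY.R.Four
import Pool.Agent.H3NY.R.Summ

namespace Pool.Agent.H356R3.NS
end Pool.Agent.H356R3.NS
namespace Pool.Agent.H356R3.NS.H3
end Pool.Agent.H356R3.NS.H3
namespace Pool.Agent.H356R3.NS.X
end Pool.Agent.H356R3.NS.X
namespace Pool.Agent.H3NS
end Pool.Agent.H3NS
namespace H459R3.NS
end H459R3.NS

open MeasureTheory Set Filter Topology
open scoped ENNReal NNReal ContDiff ComplexConjugate

namespace Pool.Agent.H356R3.NS

lemma ex_neg_eq (k : K) (x : E3) :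
    Complex.exp (-(2 * Real.pi * Complex.I * ∑ j, (k j : ℂ) * (x j : ℂ))) = ex (-k) x := by
  unfold ex
  congr 1
  simp only [Pi.neg_apply, Int.cast_neg, neg_mul, Finset.sum_neg_distrib, mul_neg]

lemma fc_eq (v : R3 → R3) (k : K) (i : Fin 3) : fc v k i = ∫ x in Q3, (v x i : ℂ) * ex (-k) x := by
  unfold fc
  simp only [ex_neg_eq]
  rfl

lemma fc_sym (v : R3 → R3) : Sym (fc v) := by
  intro k i
  rw [fc_eq, fc_eq, Complex.star_def, ← integral_conj]
  refine integral_congr_ae (Filter.Eventually.of_forall fun x => ?_)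
  simp only [map_mul, Complex.conj_ofReal]
  rw [← Complex.star_def, ← ex_neg]

section
variable {v : R3 → R3} (hv : ContDiff ℝ 1 v) (hp : ∀ x j, v (x + Pi.single j 1) = v x)
include hv

include hp

end

lemma summ_g : Summable fun n : ℤ => (1 + |(n : ℝ)|) ^ (-(4 / 3 : ℝ)) := by
  have h1 := Real.summable_abs_int_rpow (b := 4 / 3) (by norm_num)
  have h2 : Summable fun n : ℤ => if n = 0 then (1 : ℝ) else 0 :=
    summable_of_ne_finset_zero (s := {0}) fun n hn => by rw [if_neg (by simpa using hn)]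
  refine (h1.add h2).of_nonneg_of_le (fun n => by positivity) fun n => ?_
  by_cases h : n = 0
  · subst h; simp
  · rw [if_neg h, add_zero]
    have : 0 < |(n : ℝ)| := abs_pos.2 (by exact_mod_cast h)
    exact Real.rpow_le_rpow_of_nonpos this (by linarith) (by norm_num)

lemma summ_nk4 : Summable fun k : K => (1 / nk k) ^ 4 := by
  have h := summ_g
  have hn : (0 : ℤ → ℝ) ≤ fun n : ℤ => (1 + |(n : ℝ)|) ^ (-(4 / 3 : ℝ)) := fun n => by
    simp only [Pi.zero_apply]; positivity
  have h2 := h.mul_of_nonneg h hn hn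
  have h3 := h.mul_of_nonneg h2 hn (fun p => by
    simp only [Pi.zero_apply]; positivity)
  rw [← eqv.symm.summable_iff]
  refine (h3.mul_left 16).of_nonneg_of_le (fun p => by
    have := nk_nonneg (eqv.symm p)
    simp only [Function.comp_apply]; positivity) fun p => ?_
  obtain ⟨a, b, c⟩ := p
  set k : K := eqv.symm (a, b, c)
  have e : k = ![a, b, c] := rfl
  rw [Function.comp_apply]
  show (1 / nk k) ^ 4 ≤ _
  by_cases hk : k = 0
  · rw [hk, nk_zero, div_zero, zero_pow (by norm_num)]; positivity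
  · have hnk := one_le_nk hk
    have ha : 1 + |(a : ℝ)| ≤ 2 * nk k := by
      have := abs_le_nk k 0
      have e0 : k 0 = a := by rw [e]; rfl
      rw [e0] at this; linarith
    have hb : 1 + |(b : ℝ)| ≤ 2 * nk k := by
      have := abs_le_nk k 1
      have e0 : k 1 = b := by rw [e]; rfl
      rw [e0] at this; linarith
    have hc : 1 + |(c : ℝ)| ≤ 2 * nk k := by
      have := abs_le_nk k 2
      have e0 : k 2 = c := by rw [e]; rfl
      rw [e0] at this; linarith
    have hm : ∀ {x : ℝ}, 0 < x → x ≤ 2 * nk k → (2 * nk k) ^ (-(4 / 3 : ℝ)) ≤ x ^ (-(4 / 3 : ℝ)) :=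
      fun hx h => Real.rpow_le_rpow_of_nonpos hx h (by norm_num)
    have pa : 0 < 1 + |(a : ℝ)| := by positivity
    have pb : 0 < 1 + |(b : ℝ)| := by positivity
    have pc : 0 < 1 + |(c : ℝ)| := by positivity
    have p2 : 0 < 2 * nk k := by linarith
    have h4 : ((2 * nk k) ^ (-(4 / 3 : ℝ))) * (((2 * nk k) ^ (-(4 / 3 : ℝ))) * ((2 * nk k) ^ (-(4 / 3 : ℝ))))
        = 1 / (2 * nk k) ^ 4 := by
      rw [← Real.rpow_add p2, ← Real.rpow_add p2]
      have : -(4 / 3 : ℝ) + (-(4 / 3) + -(4 / 3)) = -((4 : ℕ) : ℝ) := by norm_num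
      rw [this, Real.rpow_neg p2.le, Real.rpow_natCast, one_div]
    calc (1 / nk k) ^ 4 = 16 * (1 / (2 * nk k) ^ 4) := by field_simp; norm_num
      _ = 16 * (((2 * nk k) ^ (-(4 / 3 : ℝ))) * (((2 * nk k) ^ (-(4 / 3 : ℝ))) * ((2 * nk k) ^ (-(4 / 3 : ℝ))))) := by
          rw [h4]
      _ ≤ _ := by
          have q := Real.rpow_nonneg p2.le (-(4 / 3 : ℝ))
          have qb := Real.rpow_nonneg pb.le (-(4 / 3 : ℝ))
          have qc := Real.rpow_nonneg pc.le (-(4 / 3 : ℝ))
          exact mul_le_mul_of_nonneg_left (mul_le_mul (hm pa ha) (mul_le_mul (hm pb hb) (hm pc hc) q qb)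
            (mul_nonneg q q) (Real.rpow_nonneg pa.le _)) (by norm_num)

end Pool.Agent.H356R3.NS
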