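import Pool.Agent.H3NY.R.Duh

namespace Pool.Agent.H356R3.NS
end Pool.Agent.H356R3.NS
namespace Pool.Agent.H356R3.NS.H3
end Pool.Agent.H356R3.NS.H3
namespace Pool.Agent.H356R3.NS.X
end Pool.Agent.H356R3.NS.X
namespace Pool.Agent.H3NS
end Pool.Agent.H3NS
namespace H459R3.NS
end H459R3.NS

open MeasureTheory Set Filter Topology
open scoped ENNReal NNReal

namespace Pool.Agent.H356R3.NS

/-- `L²(0,∞)` norm of an extended function. -/
noncomputable def LN (φ : ℝ → ℝ≥0∞) : ℝ≥0∞ := (∫⁻ t in Ioi 0, φ t ^ (2 : ℝ)) ^ (1 / 2 : ℝ)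

lemma LN_mono {φ ψ : ℝ → ℝ≥0∞} (h : ∀ t, 0 < t → φ t ≤ ψ t) : LN φ ≤ LN ψ := by
  unfold LN
  apply ENNReal.rpow_le_rpow _ (by norm_num)
  exact setLIntegral_mono' measurableSet_Ioi fun t ht => ENNReal.rpow_le_rpow (h t ht) (by norm_num)

lemma LN_add_le {φ ψ : ℝ → ℝ≥0∞} (hφ : Measurable φ) (hψ : Measurable ψ) :
    LN (fun t => φ t + ψ t) ≤ LN φ + LN ψ := by
  unfold LN
  exact ENNReal.lintegral_Lp_add_le hφ.aemeasurable hψ.aemeasurable (by norm_num)

lemma LN_const_mul (c : ℝ≥0∞) {φ : ℝ → ℝ≥0∞} (hφ : Measurable φ) :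
    LN (fun t => c * φ t) = c * LN φ := by
  unfold LN
  simp_rw [ENNReal.mul_rpow_of_nonneg _ _ (by norm_num : (0 : ℝ) ≤ 2)]
  rw [lintegral_const_mul _ (hφ.pow_const _), ENNReal.mul_rpow_of_nonneg _ _ (by norm_num),
    ← ENNReal.rpow_mul]
  norm_num

/-- Cauchy-Schwarz -/
lemma LN_cs {φ ψ : ℝ → ℝ≥0∞} (hφ : Measurable φ) (hψ : Measurable ψ) :
    ∫⁻ t in Ioi 0, φ t * ψ t ≤ LN φ * LN ψ := by
  have := ENNReal.lintegral_mul_le_Lp_mul_Lq (volume.restrict (Ioi (0 : ℝ)))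
    Real.HolderConjugate.two_two hφ.aemeasurable hψ.aemeasurable
  exact this

/-- The weighted norm of a family. -/
noncomputable def LF (g : ℝ → ℝ) (a : ℝ) (x : Fam) : ℝ≥0∞ :=
  LN fun t => ENNReal.ofReal (Real.exp (-g t)) * NW (Wa a) (at' x t)

lemma LF_sq (g : ℝ → ℝ) (a : ℝ) (x : Fam) : LF g a x ^ 2 =
    ∫⁻ t in Ioi 0, (ENNReal.ofReal (Real.exp (-g t)) * NW (Wa a) (at' x t)) *
      (ENNReal.ofReal (Real.exp (-g t)) * NW (Wa a) (at' x t)) := by
  unfold LF LN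
  rw [← ENNReal.rpow_two, ← ENNReal.rpow_mul]
  norm_num
  refine lintegral_congr fun t => ?_
  rw [pow_two]

lemma at'_Duh_zero {c : ℝ} {F : Fam} (h0 : ∀ t, F 0 t = 0) (t : ℝ) : at' (Duh c F) t 0 = 0 := by
  simp [at', Duh, h0]

/-- Basic estimate. -/
lemma key_le {c : ℝ} (hc : 0 < c) {a : ℝ} {F : Fam} (hF : CF F) (h0 : ∀ t, F 0 t = 0)
    {g : ℝ → ℝ} (hg : Monotone g) {P Q : ℝ≥0∞}
    (hP : ∀ t, 0 < t → ENNReal.ofReal (Real.exp (-g t)) * ∫⁻ s in Ioc 0 t, NW (Wm a) (at' F s) ≤ P)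
    (hQ : ∫⁻ s in Ioi 0, ENNReal.ofReal (Real.exp (-g s)) * NW (Wm a) (at' F s) ≤ Q) :
    ENNReal.ofReal c * LF g a (Duh c F) ^ 2 ≤ P * Q := by
  have hgm : Measurable fun t => ENNReal.ofReal (Real.exp (-g t)) :=
    ENNReal.measurable_ofReal.comp (Real.measurable_exp.comp hg.measurable.neg)
  have h1 : LF g a (Duh c F) ^ 2 ≤
      P * ∫⁻ t in Ioi 0, ENNReal.ofReal (Real.exp (-g t)) * NW (Wp a) (at' (Duh c F) t) := by
    have mm : Measurable fun t => ENNReal.ofReal (Real.exp (-g t)) * NW (Wp a) (at' (Duh c F) t) :=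
      hgm.mul (NW_meas _ (Duh_cont hF c))
    rw [LF_sq, ← lintegral_const_mul _ mm]
    refine setLIntegral_mono' measurableSet_Ioi fun t ht => ?_
    have ht' : (0 : ℝ) < t := ht
    calc ENNReal.ofReal (Real.exp (-g t)) * NW (Wa a) (at' (Duh c F) t) *
          (ENNReal.ofReal (Real.exp (-g t)) * NW (Wa a) (at' (Duh c F) t))
        = ENNReal.ofReal (Real.exp (-g t)) * ENNReal.ofReal (Real.exp (-g t)) *
          (NW (Wa a) (at' (Duh c F) t) * NW (Wa a) (at' (Duh c F) t)) := by ring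
      _ ≤ ENNReal.ofReal (Real.exp (-g t)) * ENNReal.ofReal (Real.exp (-g t)) *
          (NW (Wm a) (at' (Duh c F) t) * NW (Wp a) (at' (Duh c F) t)) :=
          mul_le_mul' le_rfl (NW_interp (at'_Duh_zero h0 t))
      _ = (ENNReal.ofReal (Real.exp (-g t)) * NW (Wm a) (at' (Duh c F) t)) *
          (ENNReal.ofReal (Real.exp (-g t)) * NW (Wp a) (at' (Duh c F) t)) := by ring
      _ ≤ P * (ENNReal.ofReal (Real.exp (-g t)) * NW (Wp a) (at' (Duh c F) t)) := by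
          apply mul_le_mul' _ le_rfl
          exact (mul_le_mul' le_rfl (NW_Duh_le hc.le (Wm a) hF ht'.le)).trans (hP t ht')
  calc ENNReal.ofReal c * LF g a (Duh c F) ^ 2
      ≤ ENNReal.ofReal c * (P * ∫⁻ t in Ioi 0,
        ENNReal.ofReal (Real.exp (-g t)) * NW (Wp a) (at' (Duh c F) t)) := mul_le_mul' le_rfl h1
    _ = P * (ENNReal.ofReal c * ∫⁻ t in Ioi 0,
        ENNReal.ofReal (Real.exp (-g t)) * NW (Wp a) (at' (Duh c F) t)) := by ring
    _ ≤ P * Q := mul_le_mul' le_rfl ((L1b hc hF hg).trans hQ)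

/-- The time weight. -/
noncomputable def gw (Lam : ℝ) (A : ℝ → ℝ) (t : ℝ) : ℝ := Lam * ∫ s in (0 : ℝ)..t, A s ^ 2

lemma gw_mono {Lam : ℝ} (hL : 0 ≤ Lam) {A : ℝ → ℝ} (hA : Continuous A) : Monotone (gw Lam A) := by
  intro s t hst
  unfold gw
  apply mul_le_mul_of_nonneg_left _ hL
  have h1 : ∫ u in (0 : ℝ)..t, A u ^ 2 = (∫ u in (0 : ℝ)..s, A u ^ 2) + ∫ u in s..t, A u ^ 2 := by
    rw [intervalIntegral.integral_add_adjacent_intervals] <;>
    exact (hA.pow 2).intervalIntegrable _ _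
  rw [h1]
  have : 0 ≤ ∫ u in s..t, A u ^ 2 := intervalIntegral.integral_nonneg hst fun u _ => sq_nonneg _
  linarith

lemma gw_zero (Lam : ℝ) (A : ℝ → ℝ) : gw Lam A 0 = 0 := by simp [gw]

lemma gw_nonneg {Lam : ℝ} (hL : 0 ≤ Lam) {A : ℝ → ℝ} (hA : Continuous A) {t : ℝ} (ht : 0 ≤ t) :
    0 ≤ gw Lam A t := by
  rw [← gw_zero Lam A]; exact gw_mono hL hA ht

lemma gw_deriv (Lam : ℝ) {A : ℝ → ℝ} (hA : Continuous A) (t : ℝ) :
    HasDerivAt (gw Lam A) (Lam * A t ^ 2) t := by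
  unfold gw
  exact (intervalIntegral.integral_hasDerivAt_right ((hA.pow 2).intervalIntegrable _ _)
    (hA.pow 2).aestronglyMeasurable.stronglyMeasurableAtFilter (hA.pow 2).continuousAt).const_mul _

lemma kernel_le {Lam : ℝ} (hL : 0 < Lam) {A : ℝ → ℝ} (hA : Continuous A) {t : ℝ} (ht : 0 ≤ t) :
    ∫⁻ s in Ioc 0 t, ENNReal.ofReal (Real.exp (-(gw Lam A t - gw Lam A s)) * |A s|) ^ (2 : ℝ)
      ≤ ENNReal.ofReal (1 / (2 * Lam)) := by
  set g := gw Lam A
  have hgd : ∀ s, HasDerivAt g (Lam * A s ^ 2) s := gw_deriv Lam hA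
  have hgc : Continuous g := continuous_iff_continuousAt.2 fun s => (hgd s).continuousAt
  have e1 : ∀ s, ENNReal.ofReal (Real.exp (-(g t - g s)) * |A s|) ^ (2 : ℝ)
      = ENNReal.ofReal (Real.exp (-(2 * (g t - g s))) * A s ^ 2) := by
    intro s
    have h2 : Real.exp (-(g t - g s)) ^ 2 = Real.exp (-(2 * (g t - g s))) := by
      rw [← Real.exp_nat_mul]; congr 1; push_cast; ring
    rw [ENNReal.rpow_two, ← ENNReal.ofReal_pow (by positivity), mul_pow, sq_abs, h2]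
  simp only [e1]
  have hc : Continuous fun s => Real.exp (-(2 * (g t - g s))) * A s ^ 2 := by fun_prop
  rw [← ofReal_integral_eq_lintegral_ofReal]
  · apply ENNReal.ofReal_le_ofReal
    rw [← intervalIntegral.integral_of_le ht]
    have hd : ∀ s ∈ uIcc 0 t, HasDerivAt (fun s => 1 / (2 * Lam) * Real.exp (-(2 * (g t - g s))))
        (Real.exp (-(2 * (g t - g s))) * A s ^ 2) s := by
      intro s _
      have h1 : HasDerivAt (fun s => -(2 * (g t - g s))) (2 * (Lam * A s ^ 2)) s := by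
        have := (((hgd s).const_sub (g t)).const_mul 2).fun_neg
        refine this.congr_deriv ?_; ring
      have h2 := (h1.exp).const_mul (1 / (2 * Lam))
      refine h2.congr_deriv ?_
      field_simp
    rw [intervalIntegral.integral_eq_sub_of_hasDerivAt hd (hc.intervalIntegrable _ _)]
    simp only [sub_self, mul_zero, neg_zero, Real.exp_zero, mul_one]
    have : 0 ≤ 1 / (2 * Lam) * Real.exp (-(2 * (g t - g 0))) := by positivity
    linarith
  · exact (hc.integrableOn_Icc (a := 0) (b := t)).mono_set Ioc_subset_Icc_self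
  · exact Filter.Eventually.of_forall fun s => by positivity

end Pool.Agent.H356R3.NS
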