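import Pool.Agent.H3NY.R.Basic2

namespace Pool.Agent.H356R3.NS
end Pool.Agent.H356R3.NS
namespace Pool.Agent.H356R3.NS.H3
end Pool.Agent.H356R3.NS.H3
namespace Pool.Agent.H356R3.NS.X
end Pool.Agent.H356R3.NS.X
namespace Pool.Agent.H3NS
end Pool.Agent.H3NS
namespace H459R3.NS
end H459R3.NS

open MeasureTheory Set Filter Topology
open scoped ENNReal NNReal

namespace Pool.Agent.H356R3.NS

lemma NW_Wa_zero (x : K → C3) : NW (Wa 0) x = ∑' k, ‖x k‖ₑ := by
  unfold NW Wa om
  refine tsum_congr fun k => ?_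
  simp

end Pool.Agent.H356R3.NS
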