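import Pool.Agent.H3NY.R.Duh

namespace Pool.Agent.H356R3.NS
end Pool.Agent.H356R3.NS
namespace Pool.Agent.H356R3.NS.H3
end Pool.Agent.H356R3.NS.H3
namespace Pool.Agent.H356R3.NS.X
end Pool.Agent.H356R3.NS.X
namespace Pool.Agent.H3NS
end Pool.Agent.H3NS
namespace H459R3.NS
end H459R3.NS

open MeasureTheory Set Filter Topology
open scoped ENNReal NNReal ContDiff

namespace Pool.Agent.H356R3.NS

/-- space -/
abbrev E3 := Fin 3 → ℝ

/-- scalar families -/
abbrev SFam := K → ℝ → ℂ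

/-- polynomial weight -/
noncomputable def pw (k : K) : ℝ := 1 + l1 k

lemma pw_pos (k : K) : 0 < pw k := by have := l1_nonneg k; unfold pw; linarith

lemma one_le_pw (k : K) : 1 ≤ pw k := by have := l1_nonneg k; unfold pw; linarith

lemma pw_sub (k l : K) : pw k ≤ pw l * pw (k - l) := by
  have h1 := l1_add l (k - l)
  rw [add_sub_cancel] at h1
  have h2 := l1_nonneg l
  have h3 := l1_nonneg (k - l)
  unfold pw
  nlinarith [mul_nonneg h2 h3]

/-- rapidly decreasing, uniformly in time -/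
def RD (c : SFam) : Prop := ∀ m : ℕ, ∃ b : K → ℝ, Summable b ∧ ∀ k t, pw k ^ m * ‖c k t‖ ≤ b k

lemma RD.add {c d : SFam} (hc : RD c) (hd : RD d) : RD (fun k t => c k t + d k t) := by
  intro m
  obtain ⟨b, hb, h⟩ := hc m
  obtain ⟨b', hb', h'⟩ := hd m
  refine ⟨fun k => b k + b' k, hb.add hb', fun k t => ?_⟩
  calc pw k ^ m * ‖c k t + d k t‖ ≤ pw k ^ m * (‖c k t‖ + ‖d k t‖) :=
        mul_le_mul_of_nonneg_left (norm_add_le _ _) (pow_pos (pw_pos k) m).le
    _ ≤ _ := by rw [mul_add]; exact add_le_add (h k t) (h' k t)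

lemma RD.mul {c : SFam} (hc : RD c) {p : K → ℂ} {C : ℝ} {r : ℕ} (hp : ∀ k, ‖p k‖ ≤ C * pw k ^ r) :
    RD (fun k t => p k * c k t) := by
  intro m
  obtain ⟨b, hb, h⟩ := hc (m + r)
  refine ⟨fun k => |C| * b k, hb.mul_left _, fun k t => ?_⟩
  rw [norm_mul]
  have h1 : ‖p k‖ ≤ |C| * pw k ^ r := (hp k).trans
    (mul_le_mul_of_nonneg_right (le_abs_self C) (pow_pos (pw_pos k) r).le)
  calc pw k ^ m * (‖p k‖ * ‖c k t‖) ≤ pw k ^ m * ((|C| * pw k ^ r) * ‖c k t‖) := by
        have := pow_pos (pw_pos k) m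
        gcongr
    _ = |C| * (pw k ^ (m + r) * ‖c k t‖) := by rw [pow_add]; ring
    _ ≤ _ := mul_le_mul_of_nonneg_left (h k t) (abs_nonneg _)

lemma RD.summ {c : SFam} (hc : RD c) : ∃ b : K → ℝ, Summable b ∧ ∀ k t, ‖c k t‖ ≤ b k := by
  obtain ⟨b, hb, h⟩ := hc 0
  exact ⟨b, hb, fun k t => by simpa using h k t⟩

/-- convolution of families -/
noncomputable def cvv (c d : SFam) : SFam := fun k t => ∑' l, c l t * d (k - l) t

lemma summ_conv {b b' : K → ℝ} (hb : Summable b) (hb' : Summable b') (h0 : ∀ k, 0 ≤ b k)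
    (h0' : ∀ k, 0 ≤ b' k) : Summable fun k => ∑' l, b l * b' (k - l) := by
  have h1 := hb.mul_of_nonneg hb' h0 h0'
  let e : K × K ≃ K × K :=
    { toFun := fun p => (p.2, p.1 - p.2)
      invFun := fun p => (p.1 + p.2, p.1)
      left_inv := fun p => by simp
      right_inv := fun p => by simp }
  have h2 : Summable fun p : K × K => b p.2 * b' (p.1 - p.2) := (e.summable_iff).2 h1
  exact h2.prod

lemma RD.conv {c d : SFam} (hc : RD c) (hd : RD d) : RD (cvv c d) := by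
  intro m
  obtain ⟨b, hb, h⟩ := hc m
  obtain ⟨b', hb', h'⟩ := hd m
  have p : ∀ k, 0 < pw k ^ m := fun k => pow_pos (pw_pos k) m
  have hb0 : ∀ k, 0 ≤ b k := fun k => (mul_nonneg (p k).le (norm_nonneg _)).trans (h k 0)
  have hb0' : ∀ k, 0 ≤ b' k := fun k => (mul_nonneg (p k).le (norm_nonneg _)).trans (h' k 0)
  refine ⟨_, summ_conv hb hb' hb0 hb0', fun k t => ?_⟩
  have hs : Summable fun l => b l * b' (k - l) := by
    refine (hb.mul_right (∑' l, b' l)).of_nonneg_of_le (fun l => mul_nonneg (hb0 _) (hb0' _)) fun l => ?_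
    exact mul_le_mul_of_nonneg_left (hb'.le_tsum _ fun _ _ => hb0' _) (hb0 l)
  have ht : ∀ l, pw k ^ m * ‖c l t * d (k - l) t‖ ≤ b l * b' (k - l) := by
    intro l
    rw [norm_mul]
    calc pw k ^ m * (‖c l t‖ * ‖d (k - l) t‖) ≤ (pw l * pw (k - l)) ^ m * (‖c l t‖ * ‖d (k - l) t‖) := by
          apply mul_le_mul_of_nonneg_right _ (by positivity)
          exact pow_le_pow_left₀ (pw_pos k).le (pw_sub k l) m
      _ = (pw l ^ m * ‖c l t‖) * (pw (k - l) ^ m * ‖d (k - l) t‖) := by rw [mul_pow]; ring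
      _ ≤ _ := mul_le_mul (h l t) (h' (k - l) t) (mul_nonneg (p _).le (norm_nonneg _)) (hb0 l)
  have hn : Summable fun l => ‖c l t * d (k - l) t‖ := by
    refine hs.of_nonneg_of_le (fun _ => norm_nonneg _) fun l => ?_
    calc ‖c l t * d (k - l) t‖ = 1 * ‖c l t * d (k - l) t‖ := (one_mul _).symm
      _ ≤ pw k ^ m * ‖c l t * d (k - l) t‖ :=
          mul_le_mul_of_nonneg_right (one_le_pow₀ (one_le_pw k)) (norm_nonneg _)
      _ ≤ _ := ht l
  unfold cvv
  calc pw k ^ m * ‖∑' l, c l t * d (k - l) t‖ ≤ pw k ^ m * ∑' l, ‖c l t * d (k - l) t‖ :=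
        mul_le_mul_of_nonneg_left (norm_tsum_le_tsum_norm hn) (p k).le
    _ = ∑' l, pw k ^ m * ‖c l t * d (k - l) t‖ := by rw [tsum_mul_left]
    _ ≤ _ := (hn.mul_left _).tsum_le_tsum ht hs

lemma cvv_cont {c d : SFam} (hc : RD c) (hd : RD d) (hcc : ∀ k, Continuous (c k))
    (hdc : ∀ k, Continuous (d k)) (k : K) : Continuous (cvv c d k) := by
  obtain ⟨b, hb, h⟩ := hc.summ
  obtain ⟨b', hb', h'⟩ := hd.summ
  have hb0 : ∀ k, 0 ≤ b k := fun k => (norm_nonneg _).trans (h k 0)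
  have hb0' : ∀ k, 0 ≤ b' k := fun k => (norm_nonneg _).trans (h' k 0)
  unfold cvv
  refine continuous_tsum (u := fun l => b l * ∑' l', b' l') (fun l => (hcc l).mul (hdc (k - l)))
    (hb.mul_right _) fun l t => ?_
  rw [norm_mul]
  exact mul_le_mul (h l t) ((h' _ t).trans (hb'.le_tsum _ fun _ _ => hb0' _)) (norm_nonneg _) (hb0 l)

/-- `n` times differentiable families -/
def TT : ℕ → SFam → Prop
  | 0, c => RD c ∧ ∀ k, Continuous (c k)
  | n + 1, c => RD c ∧ (∀ k, Continuous (c k)) ∧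
      ∃ c' : SFam, (∀ k t, 0 < t → HasDerivAt (c k) (c' k t) t) ∧ TT n c'

lemma TT.rd : ∀ {n : ℕ} {c : SFam}, TT n c → RD c
  | 0, _, h => h.1
  | _ + 1, _, h => h.1

lemma TT.ct : ∀ {n : ℕ} {c : SFam}, TT n c → ∀ k, Continuous (c k)
  | 0, _, h => h.2
  | _ + 1, _, h => h.2.1

lemma TT.pred : ∀ {n : ℕ} {c : SFam}, TT (n + 1) c → TT n c := by
  intro n
  induction n with
  | zero => intro c h; exact ⟨h.1, h.2.1⟩
  | succ n ih =>
    intro c h
    obtain ⟨h1, h2, c', h3, h4⟩ := h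
    exact ⟨h1, h2, c', h3, ih h4⟩

lemma TT.add {n : ℕ} : ∀ {c d : SFam}, TT n c → TT n d → TT n (fun k t => c k t + d k t) := by
  induction n with
  | zero => intro c d hc hd; exact ⟨hc.1.add hd.1, fun k => (hc.2 k).add (hd.2 k)⟩
  | succ n ih =>
    intro c d hc hd
    obtain ⟨h1, h2, c', h3, h4⟩ := hc
    obtain ⟨g1, g2, d', g3, g4⟩ := hd
    exact ⟨h1.add g1, fun k => (h2 k).add (g2 k), _, fun k t ht => (h3 k t ht).fun_add (g3 k t ht), ih h4 g4⟩

lemma TT.mul {n : ℕ} {p : K → ℂ} {C : ℝ} {r : ℕ} (hp : ∀ k, ‖p k‖ ≤ C * pw k ^ r) :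
    ∀ {c : SFam}, TT n c → TT n (fun k t => p k * c k t) := by
  induction n with
  | zero => intro c hc; exact ⟨hc.1.mul hp, fun k => continuous_const.mul (hc.2 k)⟩
  | succ n ih =>
    intro c hc
    obtain ⟨h1, h2, c', h3, h4⟩ := hc
    exact ⟨h1.mul hp, fun k => continuous_const.mul (h2 k), _,
      fun k t ht => (h3 k t ht).const_mul (p k), ih h4⟩

lemma cvv_deriv {c d c' d' : SFam} (hc : RD c) (hd : RD d) (hc' : RD c') (hd' : RD d')
    (h1 : ∀ k t, 0 < t → HasDerivAt (c k) (c' k t) t) (h2 : ∀ k t, 0 < t → HasDerivAt (d k) (d' k t) t)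
    (k : K) {t : ℝ} (ht : 0 < t) :
    HasDerivAt (cvv c d k) (cvv c' d k t + cvv c d' k t) t := by
  obtain ⟨b, hb, h⟩ := hc.summ
  obtain ⟨b', hb', h'⟩ := hd.summ
  obtain ⟨b1, hb1, hh1⟩ := hc'.summ
  obtain ⟨b1', hb1', hh1'⟩ := hd'.summ
  have hb0 : ∀ k, 0 ≤ b k := fun k => (norm_nonneg _).trans (h k 0)
  have hb0' : ∀ k, 0 ≤ b' k := fun k => (norm_nonneg _).trans (h' k 0)
  have hb10 : ∀ k, 0 ≤ b1 k := fun k => (norm_nonneg _).trans (hh1 k 0)
  have hb10' : ∀ k, 0 ≤ b1' k := fun k => (norm_nonneg _).trans (hh1' k 0)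
  have bd : ∀ {x y : SFam} {bx by' : K → ℝ}, Summable bx → Summable by' → (∀ k t, ‖x k t‖ ≤ bx k) →
      (∀ k t, ‖y k t‖ ≤ by' k) → ∀ t l, ‖x l t * y (k - l) t‖ ≤ bx l * ∑' l', by' l' := by
    intro x y bx by' hbx hby hx hy t l
    have p0 : ∀ k, 0 ≤ by' k := fun k => (norm_nonneg _).trans (hy k 0)
    rw [norm_mul]
    exact mul_le_mul (hx l t) ((hy _ t).trans (hby.le_tsum _ fun _ _ => p0 _)) (norm_nonneg _)
      ((norm_nonneg _).trans (hx l t))
  have s1 : ∀ t, Summable fun l => c' l t * d (k - l) t := fun t =>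
    Summable.of_norm_bounded (hb1.mul_right _) fun l => bd hb1 hb' hh1 h' t l
  have s2 : ∀ t, Summable fun l => c l t * d' (k - l) t := fun t =>
    Summable.of_norm_bounded (hb.mul_right _) fun l => bd hb hb1' h hh1' t l
  have s0 : ∀ t, Summable fun l => c l t * d (k - l) t := fun t =>
    Summable.of_norm_bounded (hb.mul_right _) fun l => bd hb hb' h h' t l
  have key := hasDerivAt_tsum_of_isPreconnected (t := Ioi (0 : ℝ))
    (u := fun l => b1 l * (∑' l', b' l') + b l * ∑' l', b1' l')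
    (g := fun l t => c l t * d (k - l) t)
    (g' := fun l t => c' l t * d (k - l) t + c l t * d' (k - l) t)
    ((hb1.mul_right _).add (hb.mul_right _)) isOpen_Ioi isPreconnected_Ioi
    (fun l t ht => (h1 l t ht).mul (h2 (k - l) t ht))
    (fun l t _ => (norm_add_le _ _).trans (add_le_add (bd hb1 hb' hh1 h' t l) (bd hb hb1' h hh1' t l)))
    (y₀ := t) ht (s0 t) ht
  have e : ∑' l, (c' l t * d (k - l) t + c l t * d' (k - l) t) = cvv c' d k t + cvv c d' k t :=
    (s1 t).tsum_add (s2 t)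
  rw [← e]
  exact key

lemma TT.conv {n : ℕ} : ∀ {c d : SFam}, TT n c → TT n d → TT n (cvv c d) := by
  induction n with
  | zero => intro c d hc hd; exact ⟨hc.1.conv hd.1, cvv_cont hc.1 hd.1 hc.2 hd.2⟩
  | succ n ih =>
    intro c d hc hd
    have hc0 := hc.pred
    have hd0 := hd.pred
    obtain ⟨h1, h2, c', h3, h4⟩ := hc
    obtain ⟨g1, g2, d', g3, g4⟩ := hd
    exact ⟨h1.conv g1, cvv_cont h1 g1 h2 g2, _,
      fun k t ht => cvv_deriv h1 g1 h4.rd g4.rd h3 g3 k ht, (ih h4 hd0).add (ih hc0 g4)⟩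

lemma TT.sum {n : ℕ} {ι : Type*} (s : Finset ι) {f : ι → SFam} (h : ∀ i ∈ s, TT n (f i)) :
    TT n (fun k t => ∑ i ∈ s, f i k t) := by
  classical
  induction s using Finset.induction_on with
  | empty =>
    have h0 : ∀ n, TT n (fun _ _ => 0) := by
      intro n
      induction n with
      | zero => exact ⟨fun m => ⟨fun _ => 0, summable_zero, fun k t => by simp⟩, fun k => continuous_const⟩
      | succ n ih => exact ⟨fun m => ⟨fun _ => 0, summable_zero, fun k t => by simp⟩,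
          fun k => continuous_const, _, fun k t _ => hasDerivAt_const _ _, ih⟩
    simpa using h0 n
  | insert i s hi ih =>
    simp only [Finset.sum_insert hi]
    exact (h i (Finset.mem_insert_self _ _)).add (ih fun j hj => h j (Finset.mem_insert_of_mem hj))

/-! ### Fourier side solutions are smooth in time -/

lemma pw_le_om {a : ℝ} (ha : 0 < a) (m : ℕ) : ∃ C : ℝ, 0 ≤ C ∧ ∀ k, pw k ^ m ≤ C * om a k := by
  -- `x^m ≤ m! e^x`, applied to `x = a (1 + l1)`
  refine ⟨(m.factorial : ℝ) / a ^ m * Real.exp a, by positivity, fun k => ?_⟩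
  have h1 : (a * pw k) ^ m / m.factorial ≤ Real.exp (a * pw k) :=
    Real.pow_div_factorial_le_exp _ (mul_nonneg ha.le (pw_pos k).le) m
  have h2 : Real.exp (a * pw k) = Real.exp a * om a k := by
    unfold om pw; rw [← Real.exp_add]; congr 1; ring
  rw [h2, mul_pow, div_le_iff₀ (by positivity)] at h1
  have h3 : 0 < a ^ m := by positivity
  calc pw k ^ m = a ^ m * pw k ^ m / a ^ m := by field_simp
    _ ≤ Real.exp a * om a k * m.factorial / a ^ m := by gcongr
    _ = _ := by ring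

/-- The time derivative on the Fourier side. -/
noncomputable def dU (c : ℝ) (u : Fam) (i : Fin 3) : SFam := fun k t =>
  (-((c * sq k : ℝ) : ℂ)) * u k t i + ∑ j, ∑ m, coef k i j m * cvv (fun k t => u k t j) (fun k t => u k t m) k t

lemma norm_sq_le (c : ℝ) (k : K) : ‖(-((c * sq k : ℝ) : ℂ))‖ ≤ |c| * pw k ^ 2 := by
  rw [norm_neg, Complex.norm_real, Real.norm_eq_abs, abs_mul, abs_of_nonneg (sq_nonneg' k)]
  apply mul_le_mul_of_nonneg_left _ (abs_nonneg _)
  rw [← nk_sq]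
  apply pow_le_pow_left₀ (nk_nonneg k)
  have := nk_le_l1 k
  unfold pw; linarith

lemma nk_le_pw (k : K) : nk k ≤ pw k := by
  have := nk_le_l1 k
  unfold pw; linarith

end Pool.Agent.H356R3.NS
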