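import Pool.Agent.H3NY.R.Reg

namespace Pool.Agent.H356R3.NS
end Pool.Agent.H356R3.NS
namespace Pool.Agent.H356R3.NS.H3
end Pool.Agent.H356R3.NS.H3
namespace Pool.Agent.H356R3.NS.X
end Pool.Agent.H356R3.NS.X
namespace Pool.Agent.H3NS
end Pool.Agent.H3NS
namespace H459R3.NS
end H459R3.NS

open MeasureTheory Set Filter Topology
open scoped ENNReal NNReal ContDiff

namespace Pool.Agent.H356R3.NS

/-- The linear form `(s, y) ↦ s b0 + ∑ y_j b_j`. -/
noncomputable def Ph (b0 : ℂ) (b : Fin 3 → ℂ) : (ℝ × E3) →L[ℝ] ℂ :=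
  b0 • (Complex.ofRealCLM.comp (ContinuousLinearMap.fst ℝ ℝ E3)) +
    ∑ j, b j • (Complex.ofRealCLM.comp ((ContinuousLinearMap.proj (R := ℝ) (φ := fun _ : Fin 3 => ℝ) j).comp
      (ContinuousLinearMap.snd ℝ ℝ E3)))

lemma Ph_apply (b0 : ℂ) (b : Fin 3 → ℂ) (p : ℝ × E3) :
    Ph b0 b p = b0 * (p.1 : ℂ) + ∑ j, b j * (p.2 j : ℂ) := by
  simp [Ph]

lemma norm_Ph_le (b0 : ℂ) (b : Fin 3 → ℂ) : ‖Ph b0 b‖ ≤ ‖b0‖ + ∑ j, ‖b j‖ := by
  refine ContinuousLinearMap.opNorm_le_bound _ (by positivity) fun p => ?_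
  rw [Ph_apply]
  calc ‖b0 * (p.1 : ℂ) + ∑ j, b j * (p.2 j : ℂ)‖ ≤ ‖b0 * (p.1 : ℂ)‖ + ∑ j, ‖b j * (p.2 j : ℂ)‖ :=
        (norm_add_le _ _).trans (add_le_add le_rfl (norm_sum_le _ _))
    _ ≤ ‖b0‖ * ‖p‖ + ∑ j, ‖b j‖ * ‖p‖ := by
        refine add_le_add ?_ (Finset.sum_le_sum fun j _ => ?_)
        · rw [norm_mul, Complex.norm_real]
          exact mul_le_mul_of_nonneg_left (norm_fst_le p) (norm_nonneg _)
        · rw [norm_mul, Complex.norm_real]
          exact mul_le_mul_of_nonneg_left ((norm_le_pi_norm p.2 j).trans (norm_snd_le p)) (norm_nonneg _)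
    _ = _ := by rw [← Finset.sum_mul]; ring

/-- the characters -/
noncomputable def ex (k : K) (x : E3) : ℂ :=
  Complex.exp (2 * Real.pi * Complex.I * ∑ j, (k j : ℂ) * (x j : ℂ))

lemma norm_ex (k : K) (x : E3) : ‖ex k x‖ = 1 := by
  unfold ex
  have : (2 * Real.pi * Complex.I * ∑ j, (k j : ℂ) * (x j : ℂ)) =
      ((2 * Real.pi * ∑ j, (k j : ℝ) * x j : ℝ) : ℂ) * Complex.I := by push_cast; ring
  rw [this, Complex.norm_exp_ofReal_mul_I]

lemma ex_add (k l : K) (x : E3) : ex (k + l) x = ex k x * ex l x := by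
  unfold ex
  rw [← Complex.exp_add, ← mul_add, ← Finset.sum_add_distrib]
  congr 2
  refine Finset.sum_congr rfl fun j _ => ?_
  simp only [Pi.add_apply, Int.cast_add]; ring

lemma ex_neg (k : K) (x : E3) : ex (-k) x = star (ex k x) := by
  unfold ex
  rw [Complex.star_def, ← Complex.exp_conj]
  congr 1
  simp only [map_mul, map_sum, Complex.conj_I, Complex.conj_ofReal, Pi.neg_apply, Int.cast_neg]
  have h2 : (starRingEnd ℂ) 2 = 2 := Complex.conj_ofReal 2
  have h3 : ∀ j, (starRingEnd ℂ) (k j : ℂ) = (k j : ℂ) := fun j => by simp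
  simp only [h2, h3, neg_mul, Finset.sum_neg_distrib]
  ring

lemma ex_cont (k : K) : Continuous (ex k) := by
  unfold ex; fun_prop

/-- the factor of `∂_j` -/
noncomputable def fj (k : K) (j : Fin 3) : ℂ := 2 * Real.pi * Complex.I * (k j : ℂ)

lemma norm_fj_le (k : K) (j : Fin 3) : ‖fj k j‖ ≤ 2 * Real.pi * pw k ^ 1 := by
  unfold fj
  rw [norm_mul, norm_mul, norm_mul, Complex.norm_I, Complex.norm_intCast, Complex.norm_real]
  have h1 : |(k j : ℝ)| ≤ pw k := (abs_le_nk k j).trans (nk_le_pw k)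
  simp only [Complex.norm_ofNat, Real.norm_eq_abs, abs_of_pos Real.pi_pos, pow_one, mul_one]
  exact mul_le_mul_of_nonneg_left h1 (by positivity)

/-- Fourier multiplier of `∂_j` -/
noncomputable def dS (j : Fin 3) (c : SFam) : SFam := fun k t => fj k j * c k t

lemma TT.dS {n : ℕ} {c : SFam} (h : TT n c) (j : Fin 3) : TT n (dS j c) :=
  TT.mul (fun k => norm_fj_le k j) h

/-- Fourier series -/
noncomputable def SF (c : SFam) (p : ℝ × E3) : ℂ := ∑' k, c k p.1 * ex k p.2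

lemma SF_cont {c : SFam} (hc : RD c) (hcc : ∀ k, Continuous (c k)) : Continuous (SF c) := by
  obtain ⟨b, hb, h⟩ := hc.summ
  unfold SF
  refine continuous_tsum (u := b) (fun k => ?_) hb fun k p => ?_
  · exact ((hcc k).comp continuous_fst).mul ((ex_cont k).comp continuous_snd)
  · rw [norm_mul, norm_ex, mul_one]; exact h k p.1

lemma SF_summable {c : SFam} (hc : RD c) (p : ℝ × E3) : Summable fun k => c k p.1 * ex k p.2 := by
  obtain ⟨b, hb, h⟩ := hc.summ
  refine Summable.of_norm_bounded hb fun k => ?_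
  rw [norm_mul, norm_ex, mul_one]; exact h k p.1

lemma ex_hasFDerivAt (k : K) (p : ℝ × E3) :
    HasFDerivAt (fun p : ℝ × E3 => ex k p.2) (Ph 0 fun j => fj k j * ex k p.2) p := by
  have h1 : HasFDerivAt (fun p : ℝ × E3 => (2 * Real.pi * Complex.I * ∑ j, (k j : ℂ) * (p.2 j : ℂ)))
      (Ph 0 fun j => fj k j) p := by
    have h2 : (fun p : ℝ × E3 => (2 * Real.pi * Complex.I * ∑ j, (k j : ℂ) * (p.2 j : ℂ)))
        = fun p => Ph 0 (fun j => fj k j) p := by
      funext p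
      rw [Ph_apply]
      unfold fj
      rw [Finset.mul_sum]
      simp only [zero_mul, zero_add]
      exact Finset.sum_congr rfl fun j _ => by ring
    rw [h2]
    exact (Ph 0 fun j => fj k j).hasFDerivAt
  have h3 := h1.cexp
  refine h3.congr_fderiv (ContinuousLinearMap.ext fun q => ?_)
  rw [_root_.smul_apply, Ph_apply, Ph_apply]
  simp only [zero_mul, zero_add, smul_eq_mul]
  rw [Finset.mul_sum]
  refine Finset.sum_congr rfl fun j _ => ?_
  unfold ex
  ring

lemma term_hasFDerivAt {c : SFam} {k : K} {p : ℝ × E3} {d : ℂ} (h : HasDerivAt (c k) d p.1) :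
    HasFDerivAt (fun p : ℝ × E3 => c k p.1 * ex k p.2)
      (Ph (d * ex k p.2) fun j => (fj k j * c k p.1) * ex k p.2) p := by
  have h1 : HasFDerivAt (fun p : ℝ × E3 => c k p.1) (Ph d 0) p := by
    have h2 := h.hasFDerivAt.comp p (hasFDerivAt_fst (𝕜 := ℝ) (E := ℝ) (F := E3) (p := p))
    refine h2.congr_fderiv (ContinuousLinearMap.ext fun q => ?_)
    rw [Ph_apply]
    simp [mul_comm]
  have h3 := h1.fun_mul (ex_hasFDerivAt k p)
  refine h3.congr_fderiv (ContinuousLinearMap.ext fun q => ?_)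
  rw [_root_.add_apply, _root_.smul_apply, _root_.smul_apply,
    Ph_apply, Ph_apply, Ph_apply]
  simp only [Pi.zero_apply, zero_mul, Finset.sum_const_zero, add_zero, zero_add, smul_eq_mul]
  rw [Finset.mul_sum, add_comm]
  congr 1
  · ring
  · exact Finset.sum_congr rfl fun j _ => by ring

/-- time-space domain -/
def Dm : Set (ℝ × E3) := Ici 0 ×ˢ univ

def Dm' : Set (ℝ × E3) := Ioi 0 ×ˢ univ

lemma closure_Dm' : closure Dm' = Dm := by
  unfold Dm' Dm
  rw [closure_prod_eq, closure_Ioi, closure_univ]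

lemma Dm_uniq : UniqueDiffOn ℝ Dm := (uniqueDiffOn_Ici 0).prod uniqueDiffOn_univ

lemma Dm'_open : IsOpen Dm' := isOpen_Ioi.prod isOpen_univ

lemma Dm'_convex : Convex ℝ Dm' := (convex_Ioi 0).prod convex_univ

lemma tsum_Ph {b0 : K → ℂ} {b : K → Fin 3 → ℂ} (h0 : Summable b0) (h : ∀ j, Summable fun k => b k j) :
    ∑' k, Ph (b0 k) (b k) = Ph (∑' k, b0 k) (fun j => ∑' k, b k j) := by
  have hs : HasSum (fun k => Ph (b0 k) (b k)) (Ph (∑' k, b0 k) (fun j => ∑' k, b k j)) := by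
    unfold Ph
    refine (h0.hasSum.smul_const _).add ?_
    exact hasSum_sum fun j _ => (h j).hasSum.smul_const _
  exact hs.tsum_eq

lemma SF_hasFDerivAt {c c' : SFam} (hc : RD c) (hc' : RD c')
    (h1 : ∀ k t, 0 < t → HasDerivAt (c k) (c' k t) t) {p : ℝ × E3} (hp : p ∈ Dm') :
    HasFDerivAt (SF c) (Ph (SF c' p) fun j => SF (dS j c) p) p := by
  obtain ⟨b, hb, h⟩ := hc.summ
  obtain ⟨b', hb', h'⟩ := hc'.summ
  have hdS : ∀ j, RD (dS j c) := fun j => hc.mul (fun k => norm_fj_le k j)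
  choose bd hbd hbd' using fun j => (hdS j).summ
  have key := hasFDerivAt_tsum_of_isPreconnected (𝕜 := ℝ) (s := Dm')
    (u := fun k => b' k + ∑ j, bd j k)
    (f := fun k (p : ℝ × E3) => c k p.1 * ex k p.2)
    (f' := fun k (p : ℝ × E3) => Ph (c' k p.1 * ex k p.2) fun j => (fj k j * c k p.1) * ex k p.2)
    (hb'.add (summable_sum fun j _ => hbd j)) Dm'_open Dm'_convex.isPreconnected
    (fun k p hp => term_hasFDerivAt (h1 k p.1 hp.1)) (fun k p hp => ?_) (x₀ := p) hp
    (SF_summable hc p) hp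
  · refine key.congr_fderiv ?_
    exact tsum_Ph (SF_summable hc' p) (fun j => SF_summable (hdS j) p)
  · refine (norm_Ph_le _ _).trans (add_le_add ?_ (Finset.sum_le_sum fun j _ => ?_))
    · rw [norm_mul, norm_ex, mul_one]; exact h' k p.1
    · rw [norm_mul, norm_ex, mul_one]; exact hbd' j k p.1

lemma Ph_cont {X : Type*} [TopologicalSpace X] {b0 : X → ℂ} {b : X → Fin 3 → ℂ} (h0 : Continuous b0)
    (h : ∀ j, Continuous fun x => b x j) : Continuous fun x => Ph (b0 x) (b x) := by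
  unfold Ph
  exact (h0.smul continuous_const).add (continuous_finsetSum _ fun j _ => (h j).smul continuous_const)

lemma SF_hasFDerivWithinAt {n : ℕ} {c : SFam} (hc : TT (n + 1) c) {c' : SFam}
    (h1 : ∀ k t, 0 < t → HasDerivAt (c k) (c' k t) t) (hc' : TT n c') (p : ℝ × E3) :
    HasFDerivWithinAt (SF c) (Ph (SF c' p) fun j => SF (dS j c) p) Dm p := by
  have hF : ∀ q ∈ Dm', HasFDerivAt (SF c) (Ph (SF c' q) fun j => SF (dS j c) q) q :=
    fun q hq => SF_hasFDerivAt hc.rd hc'.rd h1 hq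
  have hcont : Continuous fun q => Ph (SF c' q) fun j => SF (dS j c) q :=
    Ph_cont (SF_cont hc'.rd hc'.ct) fun j => SF_cont (hc.dS j).rd (hc.dS j).ct
  rw [← closure_Dm']
  refine hasFDerivWithinAt_closure_of_tendsto_fderiv
    (fun q hq => (hF q hq).differentiableAt.differentiableWithinAt) Dm'_convex Dm'_open
    (fun q _ => (SF_cont hc.rd hc.ct).continuousWithinAt) ?_
  have h3 : Tendsto (fun q => Ph (SF c' q) fun j => SF (dS j c) q) (𝓝[Dm'] p)
      (𝓝 (Ph (SF c' p) fun j => SF (dS j c) p)) := hcont.continuousAt.continuousWithinAt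
  refine h3.congr' ?_
  filter_upwards [self_mem_nhdsWithin] with q hq
  exact (hF q hq).fderiv.symm

lemma SF_contDiffOn_nat (n : ℕ) : ∀ {c : SFam}, TT n c → ContDiffOn ℝ n (SF c) Dm := by
  induction n with
  | zero =>
    intro c hc
    rw [Nat.cast_zero, contDiffOn_zero]
    exact (SF_cont hc.rd hc.ct).continuousOn
  | succ n ih =>
    intro c hc
    obtain ⟨c', h1, hc'⟩ := hc.2.2
    have hF := SF_hasFDerivWithinAt hc h1 hc'
    rw [Nat.cast_succ]
    refine contDiffOn_succ_of_fderivWithin (fun p _ => (hF p).differentiableWithinAt) (fun h => ?_) ?_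
    · exact absurd h (by simp)
    · refine ContDiffOn.congr (f := fun q => Ph (SF c' q) fun j => SF (dS j c) q) ?_
        fun p hp => (hF p).fderivWithin (Dm_uniq p hp)
      unfold Ph
      refine ((ih hc').smul contDiffOn_const).add (ContDiffOn.sum fun j _ => ?_)
      exact (ih (hc.pred.dS j)).smul contDiffOn_const

lemma SF_contDiffOn {c : SFam} (h : ∀ n, TT n c) : ContDiffOn ℝ ∞ (SF c) Dm :=
  contDiffOn_infty.2 fun n => SF_contDiffOn_nat n (h n)

end Pool.Agent.H356R3.NS
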