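import Pool.Agent.H3NY.R.Reg2

namespace Pool.Agent.H356R3.NS
end Pool.Agent.H356R3.NS
namespace Pool.Agent.H356R3.NS.H3
end Pool.Agent.H356R3.NS.H3
namespace Pool.Agent.H356R3.NS.X
end Pool.Agent.H356R3.NS.X
namespace Pool.Agent.H3NS
end Pool.Agent.H3NS
namespace H459R3.NS
end H459R3.NS

open MeasureTheory Set Filter Topology
open scoped ENNReal NNReal ContDiff

namespace Pool.Agent.H356R3.NS

/-! ### Algebra of Fourier series -/

lemma SF_add {c d : SFam} (hc : RD c) (hd : RD d) (p : ℝ × E3) :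
    SF (fun k t => c k t + d k t) p = SF c p + SF d p := by
  unfold SF
  rw [← (SF_summable hc p).tsum_add (SF_summable hd p)]
  exact tsum_congr fun k => by ring

lemma SF_sum {c : Fin 3 → SFam} (hc : ∀ j, RD (c j)) (p : ℝ × E3) :
    SF (fun k t => ∑ j, c j k t) p = ∑ j, SF (c j) p := by
  unfold SF
  rw [← Summable.tsum_finsetSum fun j _ => SF_summable (hc j) p]
  exact tsum_congr fun k => by rw [Finset.sum_mul]

lemma SF_const_mul (a : ℂ) (c : SFam) (p : ℝ × E3) :
    SF (fun k t => a * c k t) p = a * SF c p := by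
  unfold SF
  rw [← tsum_mul_left]
  exact tsum_congr fun k => by ring

lemma SF_mul {c d : SFam} (hc : RD c) (hd : RD d) (p : ℝ × E3) :
    SF c p * SF d p = SF (cvv c d) p := by
  have hf : Summable fun k => ‖c k p.1 * ex k p.2‖ := (SF_summable hc p).norm
  have hg : Summable fun k => ‖d k p.1 * ex k p.2‖ := (SF_summable hd p).norm
  have h1 := summable_mul_of_summable_norm hf hg
  let e : K × K ≃ K × K :=
    { toFun := fun p => (p.2, p.1 - p.2)
      invFun := fun p => (p.1 + p.2, p.1)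
      left_inv := fun p => by simp
      right_inv := fun p => by simp }
  have h2 : Summable fun z : K × K => (c z.2 p.1 * ex z.2 p.2) * (d (z.1 - z.2) p.1 * ex (z.1 - z.2) p.2) :=
    (e.summable_iff).2 h1
  unfold SF cvv
  rw [tsum_mul_tsum_of_summable_norm hf hg, ← e.tsum_eq]
  refine h2.tsum_prod.trans ?_
  refine tsum_congr fun k => ?_
  rw [← tsum_mul_right]
  refine tsum_congr fun l => ?_
  have h3 : ex k p.2 = ex l p.2 * ex (k - l) p.2 := by rw [← ex_add, add_sub_cancel]
  show (c l p.1 * ex l p.2) * (d (k - l) p.1 * ex (k - l) p.2) = _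
  rw [h3]; ring

lemma SF_real {c : SFam} (h : ∀ k t, c (-k) t = star (c k t)) (p : ℝ × E3) : (SF c p).im = 0 := by
  have h1 : star (SF c p) = SF c p := by
    unfold SF
    rw [tsum_star]
    rw [← (Equiv.neg K).tsum_eq]
    refine tsum_congr fun k => ?_
    simp only [Equiv.neg_apply, star_mul', h, ex_neg, star_star]
  rw [Complex.star_def] at h1
  exact Complex.conj_eq_iff_im.1 h1

/-! ### divergence free -/

/-! ### the pressure and the equation on the Fourier side -/

/-- component families -/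
def cf' (u : Fam) (i : Fin 3) : SFam := fun k t => u k t i

/-- pressure -/
noncomputable def PF (u : Fam) : SFam := fun k t =>
  ∑ j, ∑ m, (-((k j : ℂ) * (k m : ℂ) / ((sq k : ℝ) : ℂ))) * cvv (cf' u j) (cf' u m) k t

lemma TT_PF {u : Fam} {n : ℕ} (h : ∀ i, TT n (cf' u i)) : TT n (PF u) := by
  unfold PF
  refine TT.sum _ fun j _ => TT.sum _ fun m _ => TT.mul (C := 1) (r := 0) (fun k => ?_) ((h j).conv (h m))
  rw [pow_zero, mul_one, norm_neg, norm_div, norm_mul, Complex.norm_real, Complex.norm_intCast, Complex.norm_intCast,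
    Real.norm_of_nonneg (sq_nonneg' k)]
  apply div_le_one_of_le₀ _ (sq_nonneg' k)
  rw [← nk_mul_self]
  exact mul_le_mul (abs_le_nk k j) (abs_le_nk k m) (abs_nonneg _) (nk_nonneg k)

lemma TT_dU {c : ℝ} {u : Fam} {n : ℕ} (h : ∀ i, TT n (cf' u i)) (i : Fin 3) : TT n (dU c u i) := by
  unfold dU
  refine TT.add (TT.mul (norm_sq_le c) (h i)) ?_
  refine TT.sum _ fun j _ => TT.sum _ fun m _ => ?_
  refine TT.mul (C := 4 * Real.pi) (r := 1) (fun k => ?_) ((h j).conv (h m))
  refine (norm_coef_le k i j m).trans ?_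
  rw [pow_one]
  exact mul_le_mul_of_nonneg_left (nk_le_pw k) (by positivity)

lemma cvv_summ {c d : SFam} (hc : RD c) (hd : RD d) (k : K) (t : ℝ) : Summable fun l => c l t * d (k - l) t := by
  obtain ⟨b, hb, h⟩ := hc.summ
  obtain ⟨b', hb', h'⟩ := hd.summ
  have hb0' : ∀ k, 0 ≤ b' k := fun k => (norm_nonneg _).trans (h' k 0)
  refine Summable.of_norm_bounded (hb.mul_right (∑' l, b' l)) fun l => ?_
  rw [norm_mul]
  exact mul_le_mul (h l t) ((h' _ t).trans (hb'.le_tsum _ fun _ _ => hb0' _)) (norm_nonneg _)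
    ((norm_nonneg _).trans (h l t))

lemma fourier_eq {ν : ℝ} {u : Fam} (hu : ∀ i, RD (cf' u i)) (hdiv : ∀ k t, dt k (u k t) = 0) (i : Fin 3) (k : K)
    (t : ℝ) : dU (4 * Real.pi ^ 2 * ν) u i k t + ∑ j, cvv (cf' u j) (dS j (cf' u i)) k t
      = (ν : ℂ) * ∑ j, dS j (dS j (cf' u i)) k t + (-1) * dS i (PF u) k t := by
  have hd : ∀ j, RD (dS j (cf' u i)) := fun j => (hu i).mul (fun k => norm_fj_le k j)
  have h1 : ∑ j, cvv (cf' u j) (dS j (cf' u i)) k t = ∑ j, fj k j * cvv (cf' u j) (cf' u i) k t := by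
    unfold cvv
    rw [← Summable.tsum_finsetSum fun j _ => cvv_summ (hu j) (hd j) k t]
    simp_rw [← tsum_mul_left]
    rw [← Summable.tsum_finsetSum fun j _ => (cvv_summ (hu j) (hu i) k t).mul_left _]
    refine tsum_congr fun l => ?_
    have h2 : ∑ j, fj l j * cf' u j l t = 0 := by
      have := hdiv l t
      unfold dt at this
      unfold fj cf'
      calc ∑ j, 2 * Real.pi * Complex.I * (l j : ℂ) * u l t j
          = 2 * Real.pi * Complex.I * ∑ j, (l j : ℂ) * u l t j := by
            rw [Finset.mul_sum]; exact Finset.sum_congr rfl fun j _ => by ring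
        _ = 0 := by rw [this, mul_zero]
    have h3 : ∀ j, fj (k - l) j = fj k j - fj l j := by
      intro j; unfold fj; simp only [Pi.sub_apply, Int.cast_sub]; ring
    calc ∑ j, cf' u j l t * dS j (cf' u i) (k - l) t
        = ∑ j, fj k j * (cf' u j l t * cf' u i (k - l) t) - (∑ j, fj l j * cf' u j l t) * cf' u i (k - l) t := by
          rw [Finset.sum_mul, ← Finset.sum_sub_distrib]
          refine Finset.sum_congr rfl fun j _ => ?_
          unfold dS
          rw [h3]; ring
      _ = _ := by rw [h2, zero_mul, sub_zero]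
  rw [h1]
  unfold dU PF dS
  have hs : ∑ j, fj k j * (fj k j * cf' u i k t) = -(4 * Real.pi ^ 2 * sq k : ℝ) * cf' u i k t := by
    calc ∑ j, fj k j * (fj k j * cf' u i k t) = (∑ j, fj k j * fj k j) * cf' u i k t := by
          rw [Finset.sum_mul]; exact Finset.sum_congr rfl fun j _ => by ring
      _ = _ := by
          congr 1
          unfold fj sq
          push_cast
          rw [Finset.mul_sum, ← Finset.sum_neg_distrib]
          refine Finset.sum_congr rfl fun j _ => ?_
          linear_combination (4 * (Real.pi : ℂ) ^ 2 * (k j : ℂ) ^ 2) * Complex.I_mul_I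
  rw [hs]
  set C : Fin 3 → Fin 3 → ℂ := fun j m => cvv (cf' u j) (cf' u m) k t
  have hC : ∀ j m, cvv (fun k t => u k t j) (fun k t => u k t m) k t = C j m := fun _ _ => rfl
  simp only [hC]
  have h4 : ∑ j, ∑ m, coef k i j m * C j m = -(∑ j, fj k j * C j i)
      - fj k i * ∑ j, ∑ m, (-((k j : ℂ) * (k m : ℂ) / ((sq k : ℝ) : ℂ))) * C j m := by
    rw [Finset.mul_sum, ← Finset.sum_neg_distrib, ← Finset.sum_sub_distrib]
    refine Finset.sum_congr rfl fun j _ => ?_
    rw [Finset.mul_sum]
    have h5 : fj k j * C j i = ∑ m, (if m = i then 1 else 0) * (fj k j * C j m) := by simp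
    rw [h5, ← Finset.sum_neg_distrib, ← Finset.sum_sub_distrib]
    refine Finset.sum_congr rfl fun m _ => ?_
    unfold coef fj
    ring
  have h6 : ∑ j, fj k j * cvv (cf' u j) (cf' u i) k t = ∑ j, fj k j * C j i := rfl
  rw [h4, h6]
  have h7 : (fun k t => u k t i) k t = cf' u i k t := rfl
  show -((4 * Real.pi ^ 2 * ν * sq k : ℝ) : ℂ) * cf' u i k t + _ + _ = _
  push_cast
  ring

end Pool.Agent.H356R3.NS
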