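import Pool.Agent.H356R3.NS.Defs
import Pool.Agent.H3NY.R.Reg2

namespace Pool.Agent.H356R3.NS
end Pool.Agent.H356R3.NS
namespace Pool.Agent.H356R3.NS.H3
end Pool.Agent.H356R3.NS.H3
namespace Pool.Agent.H356R3.NS.X
end Pool.Agent.H356R3.NS.X
namespace Pool.Agent.H3NS
end Pool.Agent.H3NS
namespace H459R3.NS
end H459R3.NS

open MeasureTheory Set Filter Topology
open scoped ENNReal NNReal ContDiff

namespace Pool.Agent.H356R3.NS

/-- Galilean shift of a Fourier series. -/
noncomputable def GS (m : E3) (c : SFam) (t : ℝ) (x : E3) : ℂ := SF c (t, x - t • m)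

lemma GS_smooth (m : E3) {c : SFam} (hc : ∀ n, TT n c) :
    ContDiffOn ℝ ∞ (fun z : ℝ × E3 => GS m c z.1 z.2) (Ici 0 ×ˢ univ) := by
  have hA : ContDiff ℝ ∞ fun z : ℝ × E3 => ((z.1, z.2 - z.1 • m) : ℝ × E3) :=
    contDiff_fst.prodMk (contDiff_snd.sub (contDiff_fst.smul contDiff_const))
  exact (SF_contDiffOn hc).comp hA.contDiffOn fun z hz => ⟨hz.1, mem_univ _⟩

lemma GS_dt (m : E3) {c : SFam} (hc : TT 1 c) {c' : SFam}
    (h1 : ∀ k t, 0 < t → HasDerivAt (c k) (c' k t) t) (hc' : TT 0 c') {t : ℝ} (ht : 0 ≤ t) (x : E3) :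
    HasDerivWithinAt (fun s => GS m c s x) (GS m c' t x + ∑ j, GS m (dS j c) t x * (-(m j) : ℝ)) (Ici 0) t := by
  have hF := SF_hasFDerivWithinAt hc h1 hc' (t, x - t • m)
  have hg : HasDerivWithinAt (fun s : ℝ => ((s, x - s • m) : ℝ × E3)) (1, -m) (Ici 0) t := by
    have h2 : HasDerivAt (fun s : ℝ => x - s • m) (-m) t := by
      have := ((hasDerivAt_id' t).smul_const m).const_sub x
      simpa using this
    exact ((hasDerivAt_id' t).prodMk h2).hasDerivWithinAt
  have hm : MapsTo (fun s : ℝ => ((s, x - s • m) : ℝ × E3)) (Ici 0) Dm := fun s hs => ⟨hs, mem_univ _⟩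
  have h3 := hF.comp_hasDerivWithinAt t hg hm
  refine h3.congr_deriv ?_
  rw [Ph_apply]
  simp only [Complex.ofReal_one, mul_one, Pi.neg_apply]
  rfl

lemma GS_dx (m : E3) {c : SFam} (hc : TT 1 c) {t : ℝ} (ht : 0 ≤ t) (x : E3) :
    HasFDerivAt (fun y => GS m c t y)
      ((Ph 0 fun j => GS m (dS j c) t x).comp (ContinuousLinearMap.inr ℝ ℝ E3)) x := by
  obtain ⟨c', h1, hc'⟩ := hc.2.2
  have hF := SF_hasFDerivWithinAt hc h1 hc' (t, x - t • m)
  have hg : HasFDerivWithinAt (fun y : E3 => ((t, y - t • m) : ℝ × E3)) (ContinuousLinearMap.inr ℝ ℝ E3) univ x := by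
    have h2 : HasFDerivAt (fun y : E3 => y - t • m) (ContinuousLinearMap.id ℝ E3) x :=
      (hasFDerivAt_id x).sub_const _
    exact ((hasFDerivAt_const t x).prodMk h2).hasFDerivWithinAt
  have hm : MapsTo (fun y : E3 => ((t, y - t • m) : ℝ × E3)) univ Dm := fun y _ => ⟨ht, mem_univ _⟩
  have h3 := hF.comp x hg hm
  rw [hasFDerivWithinAt_univ] at h3
  refine h3.congr_fderiv (ContinuousLinearMap.ext fun q => ?_)
  rw [ContinuousLinearMap.comp_apply, ContinuousLinearMap.comp_apply, Ph_apply, Ph_apply]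
  simp
  rfl

lemma pd_GS (m : E3) {c : SFam} (hc : TT 1 c) {t : ℝ} (ht : 0 ≤ t) (a : ℝ) (j : Fin 3) (x : E3) :
    pd j (fun y => a + (GS m c t y).re) x = (GS m (dS j c) t x).re := by
  unfold pd
  have h1 := Complex.reCLM.hasFDerivAt.comp x (GS_dx m hc ht x)
  have h2 : HasFDerivAt (fun y => a + (GS m c t y).re) _ x := h1.const_add a
  rw [h2.fderiv, ContinuousLinearMap.comp_apply, ContinuousLinearMap.comp_apply, Ph_apply]
  simp [Pi.single_apply]

lemma pd_GS' (m : E3) {c : SFam} (hc : TT 1 c) {t : ℝ} (ht : 0 ≤ t) (j : Fin 3) (x : E3) :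
    pd j (fun y => (GS m c t y).re) x = (GS m (dS j c) t x).re := by
  have := pd_GS m hc ht 0 j x
  simpa using this

lemma ex_periodic (k : K) (x : E3) (j : Fin 3) : ex k (x + Pi.single j 1) = ex k x := by
  unfold ex
  have : (2 * Real.pi * Complex.I * ∑ i, (k i : ℂ) * ((x + Pi.single j 1 : E3) i : ℂ))
      = (2 * Real.pi * Complex.I * ∑ i, (k i : ℂ) * (x i : ℂ)) + (k j : ℂ) * (2 * Real.pi * Complex.I) := by
    have h : ∑ i, (k i : ℂ) * ((x + Pi.single j 1 : E3) i : ℂ) = ∑ i, (k i : ℂ) * (x i : ℂ) + (k j : ℂ) := by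
      simp only [Pi.add_apply, Complex.ofReal_add, mul_add, Finset.sum_add_distrib]
      congr 1
      rw [Finset.sum_eq_single j]
      · simp
      · intro b _ hb; simp [hb]
      · simp
    rw [h]; ring
  rw [this, Complex.exp_add, Complex.exp_int_mul_two_pi_mul_I, mul_one]

lemma GS_periodic (m : E3) (c : SFam) (t : ℝ) (x : E3) (j : Fin 3) :
    GS m c t (x + Pi.single j 1) = GS m c t x := by
  unfold GS SF
  refine tsum_congr fun k => ?_
  show c k t * ex k (x + Pi.single j 1 - t • m) = _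
  rw [show x + Pi.single j 1 - t • m = (x - t • m) + Pi.single j 1 by abel, ex_periodic]

end Pool.Agent.H356R3.NS
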