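import Pool.Agent.H3NY.R.Summ

namespace Pool.Agent.H356R3.NS
end Pool.Agent.H356R3.NS
namespace Pool.Agent.H356R3.NS.H3
end Pool.Agent.H356R3.NS.H3
namespace Pool.Agent.H356R3.NS.X
end Pool.Agent.H356R3.NS.X
namespace Pool.Agent.H3NS
end Pool.Agent.H3NS
namespace H459R3.NS
end H459R3.NS

open MeasureTheory Set Filter Topology
open scoped ENNReal NNReal

namespace Pool.Agent.H356R3.NS

/-! ### Small solutions in `ℓ¹` stay small -/

section
variable {c a : ℝ} {V : K → C3} {u : Fam}

/-- `ℓ¹` norm as a real function -/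
noncomputable def An (u : Fam) (t : ℝ) : ℝ := ∑' k, ‖u k t‖

lemma An_nonneg (u : Fam) (t : ℝ) : 0 ≤ An u t := tsum_nonneg fun _ => norm_nonneg _

lemma An_cont (hu : CF u) (hd : Dom u) : Continuous (An u) := by
  obtain ⟨b, hb, hb'⟩ := hd
  unfold An
  exact continuous_tsum (fun k => (hu k).norm) hb fun k t => by rw [norm_norm]; exact hb' k t

lemma An_eq (hd : Dom u) (t : ℝ) : ∑' k, ‖u k t‖ₑ = ENNReal.ofReal (An u t) := by
  unfold An
  have hs : Summable fun k => ‖u k t‖ := hd.sn t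
  rw [ENNReal.ofReal_tsum_of_nonneg (fun _ => norm_nonneg _) hs]
  exact tsum_congr fun k => (ofReal_norm _).symm

end

end Pool.Agent.H356R3.NS
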